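import Mathlib

set_option autoImplicit false

open Complex Metric Set Filter Topology

namespace Pool.Agent.Lib.MP_354547_an

section
variable {U : Set ℂ} {φ χ : ℂ → ℂ}

lemma not_eventually_const_of_injOn (hU : IsOpen U) (hinj : InjOn φ U) {z : ℂ} (hz : z ∈ U) :
    ¬ ∀ᶠ w in 𝓝 z, φ w = φ z := by
  intro h
  have h1 : ∀ᶠ w in 𝓝[≠] z, φ w = φ z ∧ w ∈ U :=
    (h.and (hU.mem_nhds hz)).filter_mono nhdsWithin_le_nhds
  obtain ⟨w, ⟨hw, hwU⟩, hne⟩ := (h1.and self_mem_nhdsWithin).exists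
  exact hne (hinj hwU hz hw)

lemma nhds_le_map_of_injOn (hU : IsOpen U) (hd : DifferentiableOn ℂ φ U) (hinj : InjOn φ U)
    {z : ℂ} (hz : z ∈ U) : 𝓝 (φ z) ≤ map φ (𝓝 z) := by
  rcases (hd.analyticAt (hU.mem_nhds hz)).eventually_constant_or_nhds_le_map_nhds with h | h
  · exact absurd h (not_eventually_const_of_injOn hU hinj hz)
  · exact h

lemma continuousAt_leftInv (hU : IsOpen U) (hd : DifferentiableOn ℂ φ U) (hinj : InjOn φ U)
    (hχ : LeftInvOn χ φ U) {z : ℂ} (hz : z ∈ U) : ContinuousAt χ (φ z) := by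
  intro N hN
  rw [hχ hz] at hN
  refine nhds_le_map_of_injOn hU hd hinj hz ?_
  show φ ⁻¹' (χ ⁻¹' N) ∈ 𝓝 z
  filter_upwards [hN, hU.mem_nhds hz] with w hw hwU
  show χ (φ w) ∈ N
  rwa [hχ hwU]

lemma isOpen_image_of_injOn (hU : IsOpen U) (hd : DifferentiableOn ℂ φ U) (hinj : InjOn φ U) :
    IsOpen (φ '' U) := by
  rw [isOpen_iff_mem_nhds]
  rintro _ ⟨z, hz, rfl⟩
  refine nhds_le_map_of_injOn hU hd hinj hz ?_
  exact image_mem_map (hU.mem_nhds hz)

lemma deriv_ne_and_hasDerivAt_leftInv (hU : IsOpen U) (hd : DifferentiableOn ℂ φ U)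
    (hinj : InjOn φ U) (hχ : LeftInvOn χ φ U) {z : ℂ} (hz : z ∈ U) :
    deriv φ z ≠ 0 ∧ HasDerivAt χ (deriv φ z)⁻¹ (φ z) := by
  have key : ∀ w ∈ U, deriv φ w ≠ 0 → HasDerivAt χ (deriv φ w)⁻¹ (φ w) := by
    intro w hw hne
    refine HasDerivAt.of_local_left_inverse (f := φ) (continuousAt_leftInv hU hd hinj hχ hw) ?_ hne ?_
    · rw [hχ hw]
      exact (hd.differentiableAt (hU.mem_nhds hw)).hasDerivAt
    · refine nhds_le_map_of_injOn hU hd hinj hw ?_
      show ∀ᶠ x in 𝓝 w, φ (χ (φ x)) = φ x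
      filter_upwards [hU.mem_nhds hw] with x hx
      rw [hχ hx]
  suffices hmain : deriv φ z ≠ 0 from ⟨hmain, key z hz hmain⟩
  intro h0
  have han : AnalyticAt ℂ (deriv φ) z := (hd.analyticAt (hU.mem_nhds hz)).deriv
  have hdχ : DifferentiableAt ℂ χ (φ z) := by
    rcases han.eventually_eq_zero_or_eventually_ne_zero with h | h
    · exfalso
      -- `φ` is locally constant
      obtain ⟨r, hr, hball⟩ := Metric.eventually_nhds_iff_ball.1 (h.and (hU.mem_nhds hz))
      apply not_eventually_const_of_injOn hU hinj hz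
      filter_upwards [ball_mem_nhds z hr] with w hw
      refine (convex_ball z r).is_const_of_fderivWithin_eq_zero (𝕜 := ℂ) (f := φ) ?_ ?_ hw
        (mem_ball_self hr)
      · exact hd.mono fun x hx => (hball x hx).2
      · intro x hx
        rw [fderivWithin_of_isOpen isOpen_ball hx]
        ext
        simpa using (hball x hx).1
    · refine (Complex.analyticAt_of_differentiable_on_punctured_nhds_of_continuousAt ?_
        (continuousAt_leftInv hU hd hinj hχ hz)).differentiableAt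
      rw [eventually_nhdsWithin_iff] at h ⊢
      refine nhds_le_map_of_injOn hU hd hinj hz ?_
      show ∀ᶠ x in 𝓝 z, φ x ∈ ({φ z}ᶜ : Set ℂ) → DifferentiableAt ℂ χ (φ x)
      filter_upwards [h, hU.mem_nhds hz] with x hx hxU hxz
      refine (key x hxU (hx ?_)).differentiableAt
      rintro rfl
      exact hxz rfl
  have h1 : HasDerivAt (χ ∘ φ) (deriv χ (φ z) * deriv φ z) z :=
    hdχ.hasDerivAt.comp z (hd.differentiableAt (hU.mem_nhds hz)).hasDerivAt
  have h2 : HasDerivAt (χ ∘ φ) 1 z := by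
    refine (hasDerivAt_id z).congr_of_eventuallyEq ?_
    filter_upwards [hU.mem_nhds hz] with x hx
    simpa using hχ hx
  have h3 := h1.unique h2
  rw [h0, mul_zero] at h3
  exact zero_ne_one h3

end

end Pool.Agent.Lib.MP_354547_an
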