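import Mathlib

set_option autoImplicit false

open Complex Metric Set Filter Topology ComplexConjugate

namespace Pool.Agent.Lib.MP_354547_an

/-- The Moebius map of the disc sending `a` to `0`. -/
noncomputable def mob (a z : ℂ) : ℂ := (z - a) / (1 - conj a * z)

lemma mob_den_ne_zero {a z : ℂ} (ha : ‖a‖ < 1) (hz : ‖z‖ < 1) : 1 - conj a * z ≠ 0 := by
  intro h
  have h1 : conj a * z = 1 := (sub_eq_zero.1 h).symm
  have h2 : ‖conj a * z‖ = 1 := by rw [h1]; simp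
  rw [norm_mul, Complex.norm_conj] at h2
  nlinarith [norm_nonneg a, norm_nonneg z]

lemma mob_identity {a z : ℂ} :
    ‖1 - conj a * z‖ ^ 2 - ‖z - a‖ ^ 2 = (1 - ‖a‖ ^ 2) * (1 - ‖z‖ ^ 2) := by
  simp only [← Complex.normSq_eq_norm_sq, Complex.normSq_apply]
  simp
  ring

lemma one_sub_norm_mob_sq {a z : ℂ} (ha : ‖a‖ < 1) (hz : ‖z‖ < 1) :
    1 - ‖mob a z‖ ^ 2 = (1 - ‖a‖ ^ 2) * (1 - ‖z‖ ^ 2) / ‖1 - conj a * z‖ ^ 2 := by
  have h0 : ‖1 - conj a * z‖ ≠ 0 := norm_ne_zero_iff.2 (mob_den_ne_zero ha hz)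
  rw [mob, norm_div, div_pow, ← mob_identity, sub_div, div_self (pow_ne_zero 2 h0)]

lemma norm_mob_lt_one {a z : ℂ} (ha : ‖a‖ < 1) (hz : ‖z‖ < 1) : ‖mob a z‖ < 1 := by
  have h0 : 0 < ‖1 - conj a * z‖ := norm_pos_iff.2 (mob_den_ne_zero ha hz)
  have h1 := one_sub_norm_mob_sq ha hz
  have h2 : 0 < (1 - ‖a‖ ^ 2) * (1 - ‖z‖ ^ 2) / ‖1 - conj a * z‖ ^ 2 := by
    have : 0 < 1 - ‖a‖ ^ 2 := by nlinarith [norm_nonneg a]
    have : 0 < 1 - ‖z‖ ^ 2 := by nlinarith [norm_nonneg z]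
    positivity
  nlinarith [norm_nonneg (mob a z)]

lemma mob_self (a : ℂ) : mob a a = 0 := by simp [mob]

lemma mob_zero (a : ℂ) : mob a 0 = -a := by simp [mob]

lemma mob_neg_mob {a z : ℂ} (ha : ‖a‖ < 1) (hz : ‖z‖ < 1) : mob (-a) (mob a z) = z := by
  have h0 := mob_den_ne_zero ha hz
  have h1 : (1 : ℂ) - conj a * a ≠ 0 := mob_den_ne_zero ha ha
  have h2 : 1 - conj (-a) * mob a z ≠ 0 :=
    mob_den_ne_zero (by simpa using ha) (norm_mob_lt_one ha hz)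
  have h3 : 1 - conj (-a) * mob a z = (1 - conj a * a) / (1 - conj a * z) := by
    rw [mob, eq_div_iff h0, sub_mul, mul_assoc, div_mul_cancel₀ _ h0, map_neg]
    ring
  have h4 : mob a z - -a = z * (1 - conj a * a) / (1 - conj a * z) := by
    rw [mob, eq_div_iff h0, sub_mul, div_mul_cancel₀ _ h0]
    ring
  rw [mob, h3, h4, div_div_div_cancel_right₀ h0, mul_div_assoc, div_self h1, mul_one]

lemma mob_mob_neg {a z : ℂ} (ha : ‖a‖ < 1) (hz : ‖z‖ < 1) : mob a (mob (-a) z) = z := by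
  have := mob_neg_mob (a := -a) (z := z) (by simpa using ha) hz
  simpa using this

lemma injOn_mob {a : ℂ} (ha : ‖a‖ < 1) : InjOn (mob a) (ball 0 1) := by
  intro x hx y hy hxy
  rw [mem_ball_zero_iff] at hx hy
  rw [← mob_neg_mob ha hx, hxy, mob_neg_mob ha hy]

lemma hasDerivAt_mob {a z : ℂ} (ha : ‖a‖ < 1) (hz : ‖z‖ < 1) :
    HasDerivAt (mob a) ((1 - conj a * a) / (1 - conj a * z) ^ 2) z := by
  have h0 := mob_den_ne_zero ha hz
  have h1 : HasDerivAt (fun w : ℂ => w - a) 1 z := (hasDerivAt_id z).sub_const a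
  have h2 : HasDerivAt (fun w : ℂ => 1 - conj a * w) (-(conj a * 1)) z :=
    ((hasDerivAt_id z).const_mul (conj a)).const_sub 1
  have h3 := h1.div h2 h0
  have h4 : (1 * (1 - conj a * z) - (z - a) * -(conj a * 1)) / (1 - conj a * z) ^ 2
      = (1 - conj a * a) / (1 - conj a * z) ^ 2 := by
    congr 1; ring
  rw [h4] at h3
  exact h3

lemma differentiableOn_mob {a : ℂ} (ha : ‖a‖ < 1) : DifferentiableOn ℂ (mob a) (ball 0 1) := by
  intro z hz
  rw [mem_ball_zero_iff] at hz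
  exact (hasDerivAt_mob ha hz).differentiableAt.differentiableWithinAt

lemma mapsTo_mob {a : ℂ} (ha : ‖a‖ < 1) : MapsTo (mob a) (ball 0 1) (ball 0 1) := by
  intro z hz
  rw [mem_ball_zero_iff] at hz ⊢
  exact norm_mob_lt_one ha hz

/-- Schwarz-Pick, in the form `‖mob (h b) (h a)‖ ≤ ‖mob b a‖`. -/
lemma schwarz_pick {h : ℂ → ℂ} (hd : DifferentiableOn ℂ h (ball 0 1))
    (hm : MapsTo h (ball 0 1) (ball 0 1)) {a b : ℂ} (ha : ‖a‖ < 1) (hb : ‖b‖ < 1) :
    ‖mob (h b) (h a)‖ ≤ ‖mob b a‖ := by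
  have hhb : ‖h b‖ < 1 := by simpa using hm (by simpa using hb)
  have hnb : ‖-b‖ < 1 := by simpa using hb
  set k : ℂ → ℂ := fun s => mob (h b) (h (mob (-b) s)) with hk
  have hkd : DifferentiableOn ℂ k (ball 0 1) :=
    (differentiableOn_mob hhb).comp (hd.comp (differentiableOn_mob hnb) (mapsTo_mob hnb))
      (hm.comp (mapsTo_mob hnb))
  have hkm : MapsTo k (ball 0 1) (closedBall 0 1) := by
    intro s hs
    exact ball_subset_closedBall (mapsTo_mob hhb (hm (mapsTo_mob hnb hs)))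
  have hk0 : k 0 = 0 := by
    simp [hk, mob_zero, mob_self]
  have h1 := Complex.norm_le_norm_of_mapsTo_ball hkd hkm hk0 (norm_mob_lt_one hb ha)
  have h2 : k (mob b a) = mob (h b) (h a) := by
    simp only [hk]
    rw [mob_neg_mob hb ha]
  rwa [h2] at h1

end Pool.Agent.Lib.MP_354547_an
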