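import Mathlib

set_option autoImplicit false

open Complex Metric Set Filter Topology

namespace Pool.Agent.Lib.MP_354547_an

/-- Holomorphic functions bounded by one are Lipschitz on smaller balls. -/
lemma norm_sub_le_of_bdd {U : Set ℂ} {f : ℂ → ℂ} (hd : DifferentiableOn ℂ f U)
    (hb : ∀ z ∈ U, ‖f z‖ ≤ 1) {z₀ : ℂ} {ρ : ℝ} (hρ : 0 < ρ) (hs : ball z₀ (3 * ρ) ⊆ U)
    {x y : ℂ} (hx : x ∈ ball z₀ ρ) (hy : y ∈ ball z₀ ρ) :
    ‖f x - f y‖ ≤ 1 / ρ * ‖x - y‖ := by
  have hsub : ∀ z ∈ ball z₀ ρ, closedBall z ρ ⊆ U := by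
    intro z hz w hw
    apply hs
    rw [mem_ball] at hz ⊢
    rw [mem_closedBall] at hw
    calc dist w z₀ ≤ dist w z + dist z z₀ := dist_triangle _ _ _
      _ < 3 * ρ := by linarith
  refine Convex.norm_image_sub_le_of_norm_deriv_le (𝕜 := ℂ) (s := ball z₀ ρ) ?_ ?_
    (convex_ball _ _) hy hx
  · intro z hz
    have : closedBall z ρ ∈ 𝓝 z := closedBall_mem_nhds z hρ
    exact hd.differentiableAt (mem_of_superset this (hsub z hz))
  · intro z hz
    refine Complex.norm_deriv_le_of_forall_mem_sphere_norm_le hρ ?_ ?_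
    · exact (hd.mono (hsub z hz)).diffContOnCl_ball (subset_refl _)
    · intro w hw
      exact hb w (hsub z hz (sphere_subset_closedBall hw))

/-- Montel theorem along an ultrafilter. -/
lemma exists_tendstoLocallyUniformlyOn {U : Set ℂ} (hU : IsOpen U) {F : ℕ → ℂ → ℂ}
    (hd : ∀ n, DifferentiableOn ℂ (F n) U) (hb : ∀ n, ∀ z ∈ U, ‖F n z‖ ≤ 1)
    (𝒰 : Ultrafilter ℕ) :
    ∃ g : ℂ → ℂ, TendstoLocallyUniformlyOn F g 𝒰 U := by
  classical
  have hlim : ∀ z ∈ U, ∃ a : ℂ, Tendsto (fun n => F n z) 𝒰 (𝓝 a) := by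
    intro z hz
    have hc : IsCompact (closedBall (0 : ℂ) 1) := isCompact_closedBall _ _
    have h1 : ((𝒰.map (fun n => F n z) : Ultrafilter ℂ) : Filter ℂ) ≤ 𝓟 (closedBall (0 : ℂ) 1) := by
      rw [le_principal_iff]
      refine Ultrafilter.mem_map.2 ?_
      filter_upwards with n
      simpa using hb n z hz
    obtain ⟨a, -, ha⟩ := hc.ultrafilter_le_nhds _ h1
    exact ⟨a, ha⟩
  choose! g hg using hlim
  refine ⟨g, ?_⟩
  refine tendstoLocallyUniformlyOn_of_forall_exists_nhds fun z₀ hz₀ => ?_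
  obtain ⟨r, hr, hball⟩ := Metric.isOpen_iff.1 hU z₀ hz₀
  set ρ := r / 3 with hρdef
  have hρ : 0 < ρ := by positivity
  have hs : ball z₀ (3 * ρ) ⊆ U := by
    have : 3 * ρ = r := by rw [hρdef]; ring
    rwa [this]
  have hsub : ball z₀ ρ ⊆ U := (ball_subset_ball (by linarith)).trans hs
  refine ⟨ball z₀ ρ, mem_nhdsWithin_of_mem_nhds (ball_mem_nhds _ hρ), ?_⟩
  have hLip : ∀ n, ∀ x ∈ ball z₀ ρ, ∀ y ∈ ball z₀ ρ, ‖F n x - F n y‖ ≤ 1 / ρ * ‖x - y‖ :=
    fun n x hx y hy => norm_sub_le_of_bdd (hd n) (hb n) hρ hs hx hy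
  have hLipg : ∀ x ∈ ball z₀ ρ, ∀ y ∈ ball z₀ ρ, ‖g x - g y‖ ≤ 1 / ρ * ‖x - y‖ := by
    intro x hx y hy
    have h1 : Tendsto (fun n => ‖F n x - F n y‖) 𝒰 (𝓝 ‖g x - g y‖) :=
      ((hg x (hsub hx)).sub (hg y (hsub hy))).norm
    exact le_of_tendsto h1 (Eventually.of_forall fun n => hLip n x hx y hy)
  rw [Metric.tendstoUniformlyOn_iff]
  intro ε hε
  have htb : TotallyBounded (ball z₀ ρ) := (isCompact_closedBall z₀ ρ).totallyBounded.subset
    ball_subset_closedBall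
  obtain ⟨t, htsub, htfin, htcov⟩ := Metric.finite_approx_of_totallyBounded htb
    (ε * ρ / 4) (by positivity)
  have hev : ∀ᶠ n in (𝒰 : Filter ℕ), ∀ y ∈ t, dist (g y) (F n y) < ε / 4 := by
    rw [eventually_all_finite htfin]
    intro y hy
    have := (hg y (hsub (htsub hy))) 
    rw [Metric.tendsto_nhds] at this
    filter_upwards [this (ε / 4) (by positivity)] with n hn
    rwa [dist_comm]
  filter_upwards [hev] with n hn x hx
  obtain ⟨y, hy, hxy⟩ := mem_iUnion₂.1 (htcov hx)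
  have hyb := htsub hy
  rw [mem_ball] at hxy
  have e1 : 1 / ρ * ‖x - y‖ ≤ ε / 4 := by
    rw [← dist_eq_norm]
    calc 1 / ρ * dist x y ≤ 1 / ρ * (ε * ρ / 4) := by gcongr
      _ = ε / 4 := by field_simp
  have h1 : dist (g x) (g y) ≤ ε / 4 := by
    rw [dist_eq_norm]; exact (hLipg x hx y hyb).trans e1
  have h2 : dist (F n y) (F n x) ≤ ε / 4 := by
    rw [dist_comm, dist_eq_norm]; exact (hLip n x hx y hyb).trans e1
  have h3 := hn y hy
  calc dist (g x) (F n x) ≤ dist (g x) (g y) + dist (g y) (F n y) + dist (F n y) (F n x) :=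
        dist_triangle4 _ _ _ _
    _ < ε := by linarith

/-- Hurwitz: a nonconstant locally uniform limit of injective holomorphic functions is
injective. -/
lemma injOn_of_tendstoLocallyUniformlyOn {U : Set ℂ} (hU : IsOpen U) (hc : IsPreconnected U)
    {F : ℕ → ℂ → ℂ} (hd : ∀ n, DifferentiableOn ℂ (F n) U) (hinj : ∀ n, InjOn (F n) U)
    {g : ℂ → ℂ} {p : Filter ℕ} [p.NeBot] (hF : TendstoLocallyUniformlyOn F g p U)
    {z₀ : ℂ} (hz₀ : z₀ ∈ U) (hne : deriv g z₀ ≠ 0) :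
    InjOn g U := by
  have hgd : DifferentiableOn ℂ g U := hF.differentiableOn (Eventually.of_forall hd) hU
  intro z₁ hz₁ z₂ hz₂ heq
  by_contra hz12
  -- the function `h = g - g z₁` has an isolated zero at `z₂`
  set h : ℂ → ℂ := fun z => g z - g z₁ with hh
  have hhd : DifferentiableOn ℂ h U := hgd.sub_const _
  have han : AnalyticOnNhd ℂ h U := hhd.analyticOnNhd hU
  have hnz : ∀ᶠ z in 𝓝[≠] z₂, h z ≠ 0 := by
    rcases (han z₂ hz₂).eventually_eq_zero_or_eventually_ne_zero with h0 | h0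
    · exfalso
      have hEq : EqOn h 0 U := han.eqOn_zero_of_preconnected_of_eventuallyEq_zero hc hz₂ h0
      have : g =ᶠ[𝓝 z₀] fun _ => g z₁ := by
        filter_upwards [hU.mem_nhds hz₀] with z hz
        have := hEq hz
        simpa [hh, sub_eq_zero] using this
      apply hne
      rw [this.deriv_eq]
      simp
    · exact h0
  have hev1 : ∀ᶠ z in 𝓝 z₂, z ≠ z₂ → h z ≠ 0 := by
    rwa [eventually_nhdsWithin_iff] at hnz
  have hev2 : ∀ᶠ z in 𝓝 z₂, z ∈ U := hU.mem_nhds hz₂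
  have hev3 : ∀ᶠ z in 𝓝 z₂, z ≠ z₁ := isOpen_ne.mem_nhds (Ne.symm hz12)
  obtain ⟨r, hr, hball⟩ := Metric.eventually_nhds_iff_ball.1 (hev1.and (hev2.and hev3))
  set ρ := r / 2 with hρdef
  have hρ : 0 < ρ := by positivity
  have hcb : closedBall z₂ ρ ⊆ ball z₂ r := closedBall_subset_ball (by linarith)
  have hcbU : closedBall z₂ ρ ⊆ U := fun z hz => (hball z (hcb hz)).2.1
  have hsph : ∀ z ∈ sphere z₂ ρ, h z ≠ 0 := by
    intro z hz
    exact (hball z (hcb (sphere_subset_closedBall hz))).1 (ne_of_mem_sphere hz hρ.ne')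
  have hcont : ContinuousOn (fun z => ‖h z‖) (sphere z₂ ρ) :=
    (hhd.continuousOn.mono (sphere_subset_closedBall.trans hcbU)).norm
  obtain ⟨zm, hzm, hmin⟩ := (isCompact_sphere z₂ ρ).exists_isMinOn
    ((NormedSpace.sphere_nonempty).2 hρ.le) hcont
  set m := ‖h zm‖ with hm
  have hmpos : 0 < m := norm_pos_iff.2 (hsph zm hzm)
  have hunif : TendstoUniformlyOn F g p (closedBall z₂ ρ) :=
    (tendstoLocallyUniformlyOn_iff_forall_isCompact hU).1 hF _ hcbU (isCompact_closedBall _ _)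
  rw [Metric.tendstoUniformlyOn_iff] at hunif
  have hpt : Tendsto (fun n => F n z₁) p (𝓝 (g z₁)) := hF.tendsto_at hz₁
  rw [Metric.tendsto_nhds] at hpt
  obtain ⟨n, hn1, hn2⟩ := ((hunif (m / 8) (by positivity)).and (hpt (m / 8) (by positivity))).exists
  -- compare
  set k : ℂ → ℂ := fun z => F n z - F n z₁ with hk
  have hkd : DifferentiableOn ℂ k (closedBall z₂ ρ) := ((hd n).sub_const _).mono hcbU
  have hk0 : ∀ z ∈ closedBall z₂ ρ, k z ≠ 0 := by
    intro z hz h0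
    have hzU := hcbU hz
    have : F n z = F n z₁ := by simpa [hk, sub_eq_zero] using h0
    exact (hball z (hcb hz)).2.2 (hinj n hzU hz₁ this)
  have hkh : ∀ z ∈ closedBall z₂ ρ, ‖k z - h z‖ ≤ m / 4 := by
    intro z hz
    have e1 := hn1 z hz
    have : k z - h z = (F n z - g z) - (F n z₁ - g z₁) := by simp [hk, hh]; ring
    rw [this]
    calc ‖(F n z - g z) - (F n z₁ - g z₁)‖ ≤ ‖F n z - g z‖ + ‖F n z₁ - g z₁‖ := norm_sub_le _ _
      _ ≤ m / 8 + m / 8 := by
        gcongr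
        · rw [← dist_eq_norm, dist_comm]; exact e1.le
        · rw [← dist_eq_norm]; exact hn2.le
      _ = m / 4 := by ring
  have hkinv : DiffContOnCl ℂ (fun z => (k z)⁻¹) (ball z₂ ρ) := by
    apply DifferentiableOn.diffContOnCl
    rw [closure_ball _ hρ.ne']
    exact hkd.inv hk0
  have hbd : ∀ z ∈ frontier (ball z₂ ρ), ‖(k z)⁻¹‖ ≤ 1 / (3 * m / 4) := by
    intro z hz
    rw [frontier_ball _ hρ.ne'] at hz
    have hz' := sphere_subset_closedBall hz
    have e1 : m ≤ ‖h z‖ := hmin hz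
    have e2 := hkh z hz'
    have e3 : ‖h z‖ ≤ ‖k z‖ + ‖k z - h z‖ := by
      have : h z = k z - (k z - h z) := by ring
      calc ‖h z‖ = ‖k z - (k z - h z)‖ := by rw [← this]
        _ ≤ _ := norm_sub_le _ _
    rw [norm_inv, ← one_div]
    gcongr
    linarith
  have hz₂mem : z₂ ∈ closure (ball z₂ ρ) := subset_closure (mem_ball_self hρ)
  have hfin := Complex.norm_le_of_forall_mem_frontier_norm_le isBounded_ball hkinv hbd hz₂mem
  have hk2 := hkh z₂ (mem_closedBall_self hρ.le)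
  have hh2 : h z₂ = 0 := by simp [hh, heq]
  rw [hh2, sub_zero] at hk2
  have hk2pos : 0 < ‖k z₂‖ := norm_pos_iff.2 (hk0 z₂ (mem_closedBall_self hρ.le))
  rw [norm_inv, ← one_div, one_div_le_one_div hk2pos (by positivity)] at hfin
  linarith

end Pool.Agent.Lib.MP_354547_an
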