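import Mathlib
import Pool.Agent.Lib.MP_354547_an.Montel
import Pool.Agent.Lib.MP_354547_an.Mobius

set_option autoImplicit false

open Complex Metric Set Filter Topology ComplexConjugate

namespace Pool.Agent.Lib.MP_354547_an

lemma hasDerivAt_of_sq {h G : ℂ → ℂ} {G' z : ℂ} (hc : ContinuousAt h z) (hG : HasDerivAt G G' z)
    (hsq : ∀ w, h w ^ 2 = G w) (hz : h z ≠ 0) : HasDerivAt h (G' / (2 * h z)) z := by
  rw [hasDerivAt_iff_tendsto_slope] at hG ⊢
  have h1 : Tendsto (fun w => h w + h z) (𝓝[≠] z) (𝓝 (2 * h z)) := by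
    have := (hc.tendsto.add_const (h z))
    rw [← two_mul] at this
    exact this.mono_left nhdsWithin_le_nhds
  have h2 : Tendsto (fun w => slope G z w / (h w + h z)) (𝓝[≠] z) (𝓝 (G' / (2 * h z))) :=
    hG.div h1 (mul_ne_zero two_ne_zero hz)
  have h3 : ∀ᶠ w in 𝓝[≠] z, h w + h z ≠ 0 :=
    h1.eventually_ne (mul_ne_zero two_ne_zero hz)
  refine h2.congr' ?_
  filter_upwards [h3, self_mem_nhdsWithin] with w hw hwz
  have hwz' : w - z ≠ 0 := sub_ne_zero.2 hwz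
  rw [slope_def_field, slope_def_field, ← hsq w, ← hsq z]
  field_simp
  ring

/-- The class of competitors. -/
def Fam (U : Set ℂ) (z₀ : ℂ) : Set (ℂ → ℂ) :=
  {g | DifferentiableOn ℂ g U ∧ InjOn g U ∧ MapsTo g U (ball 0 1) ∧ g z₀ = 0}

/-- Koebe's square root trick. -/
lemma koebe {U : Set ℂ} (hU : IsOpen U) (hsc : IsSimplyConnected U) {z₀ : ℂ} (hz₀ : z₀ ∈ U)
    {g : ℂ → ℂ} (hg : g ∈ Fam U z₀) (hg' : deriv g z₀ ≠ 0) {a : ℂ} (ha : ‖a‖ < 1)
    (hag : a ∉ g '' U) : ∃ G ∈ Fam U z₀, ‖deriv g z₀‖ < ‖deriv G z₀‖ := by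
  obtain ⟨hgd, hgi, hgm, hg0⟩ := hg
  have ha0 : a ≠ 0 := by
    rintro rfl
    exact hag ⟨z₀, hz₀, hg0⟩
  have hn : ∀ z ∈ U, ‖g z‖ < 1 := fun z hz => by simpa using hgm hz
  set q : ℂ → ℂ := fun z => mob a (g z) with hq
  have hqd : DifferentiableOn ℂ q U := (differentiableOn_mob ha).comp hgd hgm
  have hq0 : (0 : ℂ) ∉ q '' U := by
    rintro ⟨z, hz, hz0⟩
    have h1 := mob_den_ne_zero ha (hn z hz)
    simp only [hq, mob, div_eq_zero_iff] at hz0
    rcases hz0 with h | h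
    · exact hag ⟨z, hz, sub_eq_zero.1 h⟩
    · exact h1 h
  obtain ⟨h, hhc, hhsq⟩ := Complex.exists_continuousOn_pow_eq hsc hU hqd.continuousOn hq0
    (n := 2) two_ne_zero
  have hh0 : ∀ z ∈ U, h z ≠ 0 := by
    intro z hz h0
    apply hq0
    refine ⟨z, hz, ?_⟩
    rw [← hhsq z, h0]; simp
  have hhder : ∀ z ∈ U, HasDerivAt h (deriv q z / (2 * h z)) z := by
    intro z hz
    refine hasDerivAt_of_sq (hhc.continuousAt (hU.mem_nhds hz)) ?_ hhsq (hh0 z hz)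
    exact (hqd.differentiableAt (hU.mem_nhds hz)).hasDerivAt
  have hhn : ∀ z ∈ U, ‖h z‖ < 1 := by
    intro z hz
    have h1 : ‖q z‖ < 1 := norm_mob_lt_one ha (hn z hz)
    rw [← hhsq z, norm_pow] at h1
    by_contra hcon
    push Not at hcon
    nlinarith
  set b := h z₀ with hb
  have hbn : ‖b‖ < 1 := hhn z₀ hz₀
  have hb0 : b ≠ 0 := hh0 z₀ hz₀
  have hbsq : b ^ 2 = -a := by
    rw [hb, hhsq z₀]; simp [hq, hg0, mob_zero]
  have hhm : MapsTo h U (ball 0 1) := fun z hz => by simpa using hhn z hz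
  refine ⟨fun z => mob b (h z), ⟨?_, ?_, ?_, ?_⟩, ?_⟩
  · exact (differentiableOn_mob hbn).comp
      (fun z hz => (hhder z hz).differentiableAt.differentiableWithinAt) hhm
  · intro x hx y hy hxy
    have h1 : h x = h y := injOn_mob hbn (hhm hx) (hhm hy) hxy
    have h2 : q x = q y := by rw [← hhsq x, ← hhsq y, h1]
    exact hgi hx hy (injOn_mob ha (hgm hx) (hgm hy) h2)
  · exact (mapsTo_mob hbn).comp hhm
  · exact mob_self b
  · have hgder : HasDerivAt g (deriv g z₀) z₀ :=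
      (hgd.differentiableAt (hU.mem_nhds hz₀)).hasDerivAt
    have hqder : HasDerivAt q ((1 - conj a * a) / (1 - conj a * g z₀) ^ 2 * deriv g z₀) z₀ :=
      (hasDerivAt_mob ha (hn z₀ hz₀)).comp z₀ hgder
    rw [hg0] at hqder
    have hGder : HasDerivAt (fun z => mob b (h z))
        ((1 - conj b * b) / (1 - conj b * h z₀) ^ 2 * (deriv q z₀ / (2 * h z₀))) z₀ :=
      (hasDerivAt_mob hbn (hhn z₀ hz₀)).comp z₀ (hhder z₀ hz₀)
    rw [hGder.deriv, hqder.deriv, ← hb]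
    have e1 : (1 : ℂ) - conj b * b ≠ 0 := mob_den_ne_zero hbn hbn
    have e2 : (1 - conj b * b) / (1 - conj b * b) ^ 2 *
        ((1 - conj a * a) / (1 - conj a * 0) ^ 2 * deriv g z₀ / (2 * b))
        = (1 - conj a * a) / ((1 - conj b * b) * (2 * b)) * deriv g z₀ := by
      rw [mul_zero, sub_zero, one_pow, div_one, sq, ← div_div, div_self e1]
      rw [div_mul_div_comm, one_mul, div_mul_eq_mul_div]
    rw [e2, norm_mul]
    have e3 : (1 : ℂ) - conj a * a = ((1 - ‖a‖ ^ 2 : ℝ) : ℂ) := by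
      rw [← Complex.normSq_eq_conj_mul_self, Complex.normSq_eq_norm_sq]; push_cast; ring
    have e4 : (1 : ℂ) - conj b * b = ((1 - ‖b‖ ^ 2 : ℝ) : ℂ) := by
      rw [← Complex.normSq_eq_conj_mul_self, Complex.normSq_eq_norm_sq]; push_cast; ring
    have hab : ‖a‖ = ‖b‖ ^ 2 := by rw [← norm_pow, hbsq, norm_neg]
    have hbp : 0 < ‖b‖ := norm_pos_iff.2 hb0
    have e5 : ‖(1 - conj a * a) / ((1 - conj b * b) * (2 * b))‖ =
        (1 + ‖b‖ ^ 2) / (2 * ‖b‖) := by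
      rw [e3, e4, norm_div, norm_mul, norm_mul, Complex.norm_real, Complex.norm_real, hab]
      have p1 : 0 < 1 - ‖b‖ ^ 2 := by nlinarith
      have p2 : 0 < 1 - (‖b‖ ^ 2) ^ 2 := by nlinarith
      rw [Real.norm_of_nonneg p1.le, Real.norm_of_nonneg p2.le]
      simp only [Complex.norm_ofNat]
      rw [div_eq_div_iff (by positivity) (by positivity)]
      ring
    rw [e5]
    have hgp : 0 < ‖deriv g z₀‖ := norm_pos_iff.2 hg'
    have e6 : 1 < (1 + ‖b‖ ^ 2) / (2 * ‖b‖) := by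
      rw [one_lt_div (by positivity)]
      nlinarith
    nlinarith

/-- **Riemann mapping theorem** (given one injective map into the disc). -/
theorem exists_riemann_map {U : Set ℂ} (hU : IsOpen U) (hsc : IsSimplyConnected U)
    {z₀ : ℂ} (hz₀ : z₀ ∈ U) {g₀ : ℂ → ℂ} (hg₀d : DifferentiableOn ℂ g₀ U) (hg₀i : InjOn g₀ U)
    (hg₀m : MapsTo g₀ U (ball 0 1)) (hg₀' : deriv g₀ z₀ ≠ 0) :
    ∃ φ : ℂ → ℂ, DifferentiableOn ℂ φ U ∧ InjOn φ U ∧ φ '' U = ball 0 1 := by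
  classical
  -- the family is nonempty
  have hn₀ : ‖g₀ z₀‖ < 1 := by simpa using hg₀m hz₀
  obtain ⟨g₁, hg₁, hg₁'⟩ : ∃ g₁ ∈ Fam U z₀, deriv g₁ z₀ ≠ 0 := by
    refine ⟨fun z => mob (g₀ z₀) (g₀ z), ⟨?_, ?_, ?_, ?_⟩, ?_⟩
    · exact (differentiableOn_mob hn₀).comp hg₀d hg₀m
    · intro x hx y hy hxy
      exact hg₀i hx hy (injOn_mob hn₀ (hg₀m hx) (hg₀m hy) hxy)
    · exact (mapsTo_mob hn₀).comp hg₀m
    · exact mob_self _
    · have hgder : HasDerivAt g₀ (deriv g₀ z₀) z₀ :=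
        (hg₀d.differentiableAt (hU.mem_nhds hz₀)).hasDerivAt
      have := (hasDerivAt_mob hn₀ hn₀).comp z₀ hgder
      have h2 : deriv (fun z => mob (g₀ z₀) (g₀ z)) z₀ = _ := this.deriv
      rw [h2]
      have := mob_den_ne_zero hn₀ hn₀
      refine mul_ne_zero (div_ne_zero this (pow_ne_zero 2 this)) hg₀'
  -- the supremum
  obtain ⟨r, hr, hball⟩ := Metric.isOpen_iff.1 hU z₀ hz₀
  have hbound : ∀ g ∈ Fam U z₀, ‖deriv g z₀‖ ≤ 1 / (r / 2) := by
    intro g hg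
    refine Complex.norm_deriv_le_of_forall_mem_sphere_norm_le (by positivity) ?_ ?_
    · refine DifferentiableOn.diffContOnCl ?_
      refine hg.1.mono ?_
      rw [closure_ball _ (by positivity)]
      exact (closedBall_subset_ball (by linarith)).trans hball
    · intro z hz
      have : z ∈ U := hball (closedBall_subset_ball (by linarith) (sphere_subset_closedBall hz))
      have := hg.2.2.1 this
      rw [mem_ball_zero_iff] at this
      exact this.le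
  set S : Set ℝ := (fun g => ‖deriv g z₀‖) '' Fam U z₀ with hS
  have hSne : S.Nonempty := ⟨_, g₁, hg₁, rfl⟩
  have hSbdd : BddAbove S := ⟨1 / (r / 2), by rintro _ ⟨g, hg, rfl⟩; exact hbound g hg⟩
  set M := sSup S with hM
  have hMpos : 0 < M := lt_of_lt_of_le (norm_pos_iff.2 hg₁') (le_csSup hSbdd ⟨g₁, hg₁, rfl⟩)
  have hseq : ∀ n : ℕ, ∃ g ∈ Fam U z₀, M - 1 / (n + 1) < ‖deriv g z₀‖ := by
    intro n
    have : M - 1 / ((n : ℝ) + 1) < M := by
      have : (0 : ℝ) < 1 / ((n : ℝ) + 1) := by positivity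
      linarith
    obtain ⟨x, ⟨g, hg, rfl⟩, hx⟩ := exists_lt_of_lt_csSup hSne this
    exact ⟨g, hg, hx⟩
  choose F hF hFn using hseq
  have hb1 : ∀ n, ∀ z ∈ U, ‖F n z‖ ≤ 1 := by
    intro n z hz
    have := (hF n).2.2.1 hz
    rw [mem_ball_zero_iff] at this
    exact this.le
  set 𝒰 : Ultrafilter ℕ := hyperfilter ℕ with h𝒰
  obtain ⟨g, hg⟩ := exists_tendstoLocallyUniformlyOn hU (fun n => (hF n).1) hb1 𝒰
  have hgd : DifferentiableOn ℂ g U :=
    hg.differentiableOn (Eventually.of_forall fun n => (hF n).1) hU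
  have h𝒰le : (𝒰 : Filter ℕ) ≤ atTop := by
    rw [h𝒰, ← Nat.cofinite_eq_atTop]; exact hyperfilter_le_cofinite
  have hderiv : Tendsto (fun n => ‖deriv (F n) z₀‖) 𝒰 (𝓝 ‖deriv g z₀‖) :=
    ((hg.deriv (Eventually.of_forall fun n => (hF n).1) hU).tendsto_at hz₀).norm
  have hderiv2 : Tendsto (fun n => ‖deriv (F n) z₀‖) 𝒰 (𝓝 M) := by
    refine Tendsto.mono_left ?_ h𝒰le
    have h1 : Tendsto (fun n : ℕ => M - 1 / ((n : ℝ) + 1)) atTop (𝓝 (M - 0)) :=
      tendsto_const_nhds.sub tendsto_one_div_add_atTop_nhds_zero_nat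
    rw [sub_zero] at h1
    refine tendsto_of_tendsto_of_tendsto_of_le_of_le h1 tendsto_const_nhds ?_ ?_
    · intro n; exact (hFn n).le
    · intro n; exact le_csSup hSbdd ⟨F n, hF n, rfl⟩
  have hgM : ‖deriv g z₀‖ = M := tendsto_nhds_unique hderiv hderiv2
  have hg' : deriv g z₀ ≠ 0 := by
    rw [← norm_pos_iff, hgM]; exact hMpos
  have hconn : IsPreconnected U := hsc.isPathConnected.isConnected.isPreconnected
  have hginj : InjOn g U :=
    injOn_of_tendstoLocallyUniformlyOn hU hconn (fun n => (hF n).1) (fun n => (hF n).2.1) hg hz₀ hg'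
  have hg0 : g z₀ = 0 := by
    have h1 : Tendsto (fun n => F n z₀) 𝒰 (𝓝 (g z₀)) := hg.tendsto_at hz₀
    have h2 : Tendsto (fun n => F n z₀) 𝒰 (𝓝 0) := by
      simp only [(hF _).2.2.2]; exact tendsto_const_nhds
    exact tendsto_nhds_unique h1 h2
  have hgle : ∀ z ∈ U, ‖g z‖ ≤ 1 := by
    intro z hz
    have h1 : Tendsto (fun n => ‖F n z‖) 𝒰 (𝓝 ‖g z‖) := (hg.tendsto_at hz).norm
    exact le_of_tendsto h1 (Eventually.of_forall fun n => hb1 n z hz)
  have hgm : MapsTo g U (ball 0 1) := by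
    intro z hz
    rw [mem_ball_zero_iff]
    refine lt_of_le_of_ne (hgle z hz) fun h1 => ?_
    have hmax : IsMaxOn (norm ∘ g) U z := by
      intro w hw
      show ‖g w‖ ≤ ‖g z‖
      rw [h1]; exact hgle w hw
    have := Complex.norm_eqOn_of_isPreconnected_of_isMaxOn hconn hU hgd hz hmax hz₀
    simp [hg0, h1] at this
  have hgF : g ∈ Fam U z₀ := ⟨hgd, hginj, hgm, hg0⟩
  refine ⟨g, hgd, hginj, ?_⟩
  refine Subset.antisymm (hgm.image_subset) ?_
  intro a ha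
  rw [mem_ball_zero_iff] at ha
  by_contra hag
  obtain ⟨G, hG, hlt⟩ := koebe hU hsc hz₀ hgF hg' ha hag
  have : ‖deriv G z₀‖ ≤ M := le_csSup hSbdd ⟨G, hG, rfl⟩
  rw [hgM] at hlt
  linarith

end Pool.Agent.Lib.MP_354547_an
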