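import Mathlib
import Pool.Agent.Lib.MP_354547_an.RMT
import Pool.Agent.Lib.MP_354547_an.Inverse

set_option autoImplicit false

open Complex Metric Set Filter Topology ComplexConjugate

namespace Pool.Agent.Lib.MP_354547_an

/-- The strict epigraph of `f`, as a subset of the complex plane. -/
def Epi (f : ℝ → ℝ) : Set ℂ := {z | f z.re < z.im}

/-- The open upper half plane as a set. -/
def HP : Set ℂ := {z | 0 < z.im}

lemma isOpen_HP : IsOpen HP := isOpen_lt continuous_const continuous_im

lemma convex_HP : Convex ℝ HP := by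
  have : HP = Complex.imLm ⁻¹' (Ioi 0) := rfl
  rw [this]
  exact (convex_Ioi 0).linear_preimage _

lemma isSimplyConnected_HP : IsSimplyConnected HP := by
  have hne : HP.Nonempty := ⟨I, by simp [HP]⟩
  have : ContractibleSpace HP := convex_HP.contractibleSpace hne
  exact (inferInstance : SimplyConnectedSpace HP)

section
variable {f : ℝ → ℝ} {L : ℝ}

lemma continuous_of_lip (hf : ∀ x y, |f x - f y| ≤ L * |x - y|) : Continuous f := by
  have hL : 0 ≤ L := by
    have := hf 1 0
    have h1 : |(1 : ℝ) - 0| = 1 := by norm_num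
    rw [h1, mul_one] at this
    exact (abs_nonneg _).trans this
  refine (LipschitzWith.of_dist_le_mul (K := ⟨L, hL⟩) fun x y => ?_).continuous
  rw [Real.dist_eq, Real.dist_eq]
  exact hf x y

lemma isOpen_Epi (hf : ∀ x y, |f x - f y| ≤ L * |x - y|) : IsOpen (Epi f) :=
  isOpen_lt ((continuous_of_lip hf).comp continuous_re) continuous_im

/-- The shear homeomorphism flattening the epigraph. -/
def shear (hc : Continuous f) : ℂ ≃ₜ ℂ where
  toFun z := z - I * (f z.re : ℂ)
  invFun z := z + I * (f z.re : ℂ)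
  left_inv z := by simp
  right_inv z := by simp
  continuous_toFun := by fun_prop
  continuous_invFun := by fun_prop

lemma isSimplyConnected_Epi (hf : ∀ x y, |f x - f y| ≤ L * |x - y|) :
    IsSimplyConnected (Epi f) := by
  have h1 : Epi f = shear (continuous_of_lip hf) ⁻¹' HP := by
    ext z
    simp [Epi, HP, shear]
  rw [h1, Homeomorph.isSimplyConnected_preimage]
  exact isSimplyConnected_HP

lemma add_mem_Epi (hf : ∀ x y, |f x - f y| ≤ L * |x - y|) {z e : ℂ} (hz : z ∈ Epi f)
    (he : L * |e.re| ≤ e.im) : z + e ∈ Epi f := by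
  simp only [Epi, mem_ofPred_eq, add_re, add_im] at hz ⊢
  have h1 := hf (z.re + e.re) z.re
  rw [add_sub_cancel_left] at h1
  have h2 := (abs_le.1 h1).2
  linarith

lemma ball_subset_Epi (hf : ∀ x y, |f x - f y| ≤ L * |x - y|) (hL : 0 ≤ L) {t R : ℝ}
    (hR : (1 + L) * R ≤ t - f 0) : ball (I * t : ℂ) R ⊆ Epi f := by
  intro z hz
  rw [mem_ball, dist_eq_norm] at hz
  have h1 : |z.re| ≤ ‖z - I * t‖ := by
    have := abs_re_le_norm (z - I * t)
    simpa using this
  have h2 : |z.im - t| ≤ ‖z - I * t‖ := by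
    have := abs_im_le_norm (z - I * t)
    simpa using this
  have h3 := hf z.re 0
  rw [sub_zero] at h3
  have h4 := (abs_le.1 h3).2
  have h5 := (abs_le.1 h2).1
  simp only [Epi, mem_ofPred_eq]
  nlinarith

/-- An explicit injective map from the epigraph to the disc. -/
lemma exists_init (hf : ∀ x y, |f x - f y| ≤ L * |x - y|) (hL : 0 ≤ L) :
    ∃ g₀ : ℂ → ℂ, DifferentiableOn ℂ g₀ (Epi f) ∧ InjOn g₀ (Epi f) ∧
      MapsTo g₀ (Epi f) (ball 0 1) ∧ ∀ z ∈ Epi f, deriv g₀ z ≠ 0 := by
  set p : ℂ := I * ((f 0 - 1 : ℝ) : ℂ) with hp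
  set c : ℝ := 1 / (L + 1) with hc
  have hcpos : 0 < c := by positivity
  have hfar : ∀ z ∈ Epi f, c < ‖z - p‖ := by
    intro z hz
    simp only [Epi, mem_ofPred_eq] at hz
    have h1 : |z.re| ≤ ‖z - p‖ := by
      have := abs_re_le_norm (z - p)
      simpa [hp] using this
    have h2 : |z.im - (f 0 - 1)| ≤ ‖z - p‖ := by
      have := abs_im_le_norm (z - p)
      simpa [hp] using this
    have h3 := hf z.re 0
    rw [sub_zero] at h3
    have h4 := (abs_le.1 h3).1
    have h5 := (abs_le.1 h2).2
    rw [hc, div_lt_iff₀ (by positivity)]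
    nlinarith
  have hne : ∀ z ∈ Epi f, z - p ≠ 0 := by
    intro z hz h0
    have := hfar z hz
    rw [h0, norm_zero] at this
    linarith
  have hder : ∀ z ∈ Epi f, HasDerivAt (fun z => (c : ℂ) / (z - p)) (-(c : ℂ) / (z - p) ^ 2) z := by
    intro z hz
    have := ((hasDerivAt_const z (c : ℂ)).fun_div ((hasDerivAt_id z).sub_const p) (hne z hz))
    simpa using this
  refine ⟨fun z => c / (z - p), ?_, ?_, ?_, ?_⟩
  · intro z hz
    exact (hder z hz).differentiableAt.differentiableWithinAt
  · intro x hx y hy hxy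
    have h1 := hne x hx
    have h2 := hne y hy
    have hc0 : (c : ℂ) ≠ 0 := by exact_mod_cast hcpos.ne'
    simp only at hxy
    rw [div_eq_div_iff h1 h2] at hxy
    have := mul_left_cancel₀ hc0 hxy
    have h3 : y = x := by linear_combination this
    exact h3.symm
  · intro z hz
    rw [mem_ball_zero_iff, norm_div, Complex.norm_real, Real.norm_of_nonneg hcpos.le,
      div_lt_one (norm_pos_iff.2 (hne z hz))]
    exact hfar z hz
  · intro z hz
    rw [(hder z hz).deriv]
    have hc0 : (c : ℂ) ≠ 0 := by exact_mod_cast hcpos.ne'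
    exact div_ne_zero (neg_ne_zero.2 hc0) (pow_ne_zero 2 (hne z hz))

end

end Pool.Agent.Lib.MP_354547_an
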