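import Mathlib
import Pool.Agent.Lib.MP_354547_an.Epi

set_option autoImplicit false

open Complex Metric Set Filter Topology ComplexConjugate

namespace Pool.Agent.Lib.MP_354547_an

lemma ratio_bound {A B δ : ℝ} (hA : 0 < A) (hB : 0 < B) (hδ0 : 0 ≤ δ) (hδ1 : δ < 1)
    (h : (1 - δ ^ 2) * (A + B) ^ 2 ≤ 4 * (A * B)) : |B / A - 1| ≤ 2 * δ / (1 - δ) := by
  have h1 : (A - B) ^ 2 ≤ (δ * (A + B)) ^ 2 := by nlinarith
  have h2 : |A - B| ≤ δ * (A + B) := abs_le_of_sq_le_sq h1 (by positivity)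
  have h3 := abs_le.1 h2
  have h4 : B * (1 - δ) ≤ A * (1 + δ) := by nlinarith [h3.1]
  have e1 : B / A - 1 = (B - A) / A := by field_simp
  rw [e1, abs_div, abs_of_pos hA, div_le_div_iff₀ hA (by linarith), abs_sub_comm]
  have h5 : |A - B| * (1 - δ) ≤ δ * (A + B) * (1 - δ) :=
    mul_le_mul_of_nonneg_right h2 (by linarith)
  nlinarith [h3.1, h3.2]

/-- Two points of the disc at pseudo-hyperbolic distance `δ`: comparison. -/
lemma mob_compare {a b : ℂ} (ha : ‖a‖ < 1) (hb : ‖b‖ < 1) :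
    (1 - ‖mob a b‖ ^ 2) * ((1 - ‖a‖ ^ 2) + (1 - ‖b‖ ^ 2)) ^ 2 ≤
      4 * ((1 - ‖a‖ ^ 2) * (1 - ‖b‖ ^ 2)) := by
  have h0 : 0 < ‖1 - conj a * b‖ := norm_pos_iff.2 (mob_den_ne_zero ha hb)
  have hA : 0 < 1 - ‖a‖ ^ 2 := by nlinarith [norm_nonneg a]
  have hB : 0 < 1 - ‖b‖ ^ 2 := by nlinarith [norm_nonneg b]
  rw [one_sub_norm_mob_sq ha hb]
  have h1 : ((1 - ‖a‖ ^ 2) + (1 - ‖b‖ ^ 2)) / 2 ≤ ‖1 - conj a * b‖ := by
    have h2 : 1 - ‖a‖ * ‖b‖ ≤ ‖1 - conj a * b‖ := by
      have := norm_sub_norm_le (1 : ℂ) (conj a * b)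
      simpa using this
    nlinarith [sq_nonneg (‖a‖ - ‖b‖)]
  have h3 : ((1 - ‖a‖ ^ 2) + (1 - ‖b‖ ^ 2)) ^ 2 ≤ 4 * ‖1 - conj a * b‖ ^ 2 := by
    nlinarith
  rw [div_mul_eq_mul_div, div_le_iff₀ (by positivity)]
  nlinarith [mul_pos hA hB]

lemma norm_sub_le_of_mob {a b : ℂ} (ha : ‖a‖ < 1) (hb : ‖b‖ < 1) :
    ‖b - a‖ ≤ 2 * ‖mob a b‖ := by
  have h0 : 0 < ‖1 - conj a * b‖ := norm_pos_iff.2 (mob_den_ne_zero ha hb)
  have h1 : ‖1 - conj a * b‖ ≤ 2 := by
    calc ‖1 - conj a * b‖ ≤ ‖(1 : ℂ)‖ + ‖conj a * b‖ := norm_sub_le _ _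
      _ = 1 + ‖a‖ * ‖b‖ := by simp
      _ ≤ 2 := by nlinarith [norm_nonneg a, norm_nonneg b]
  rw [mob, norm_div, mul_div_assoc', le_div_iff₀ h0]
  nlinarith [norm_nonneg (b - a)]

/-- The Cayley map of the disc onto the upper half plane, sending `c` to infinity. -/
noncomputable def cay (c s : ℂ) : ℂ := I * (c + s) / (c - s)

lemma cay_im {c s : ℂ} (hc : ‖c‖ = 1) :
    (cay c s).im = (1 - ‖s‖ ^ 2) / ‖1 - conj c * s‖ ^ 2 := by
  have hcc : c * conj c = 1 := by
    rw [Complex.mul_conj, Complex.normSq_eq_norm_sq, hc]; norm_num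
  have h1 : ‖1 - conj c * s‖ = ‖c - s‖ := by
    have : c - s = c * (1 - conj c * s) := by
      rw [mul_sub, mul_one, ← mul_assoc, hcc, one_mul]
    rw [this, norm_mul, hc, one_mul]
  rw [h1]
  have h2 : (1 : ℝ) = ‖c‖ ^ 2 := by rw [hc]; norm_num
  rw [h2, cay, Complex.div_im]
  simp only [← Complex.normSq_eq_norm_sq, Complex.normSq_apply]
  simp
  ring

lemma cay_ne {c s : ℂ} (hc : ‖c‖ = 1) (hs : ‖s‖ < 1) : c - s ≠ 0 := by
  intro h
  rw [sub_eq_zero] at h
  rw [h] at hc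
  linarith

lemma cay_mem_HP {c s : ℂ} (hc : ‖c‖ = 1) (hs : ‖s‖ < 1) : cay c s ∈ HP := by
  show 0 < (cay c s).im
  have hcc : c * conj c = 1 := by
    rw [Complex.mul_conj, Complex.normSq_eq_norm_sq, hc]; norm_num
  rw [cay_im hc]
  have h0 : 0 < ‖1 - conj c * s‖ := by
    rw [norm_pos_iff]
    intro h
    have h1 : ‖conj c * s‖ = 1 := by
      rw [← sub_eq_zero.1 h]; simp
    rw [norm_mul, Complex.norm_conj, hc, one_mul] at h1
    linarith
  have : 0 < 1 - ‖s‖ ^ 2 := by nlinarith [norm_nonneg s]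
  positivity

lemma cay_injOn {c : ℂ} (hc : ‖c‖ = 1) : InjOn (cay c) (ball 0 1) := by
  intro x hx y hy hxy
  rw [mem_ball_zero_iff] at hx hy
  have h1 := cay_ne hc hx
  have h2 := cay_ne hc hy
  rw [cay, cay, div_eq_div_iff h1 h2] at hxy
  have hc0 : c ≠ 0 := by
    rintro rfl
    simp at hc
  have h3 : I * (2 * c) * (x - y) = 0 := by linear_combination hxy
  have h4 : I * (2 * c) ≠ 0 := mul_ne_zero I_ne_zero (mul_ne_zero two_ne_zero hc0)
  have := (mul_eq_zero.1 h3).resolve_left h4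
  exact sub_eq_zero.1 this

lemma cay_surj {c : ℂ} (hc : ‖c‖ = 1) {w : ℂ} (hw : w ∈ HP) :
    ∃ s ∈ ball (0 : ℂ) 1, cay c s = w := by
  have hw0 : 0 < w.im := hw
  have hden : w + I ≠ 0 := by
    intro h
    have := congrArg Complex.im h
    simp at this
    linarith
  have hc0 : c ≠ 0 := by
    rintro rfl
    simp at hc
  refine ⟨c * (w - I) / (w + I), ?_, ?_⟩
  · rw [mem_ball_zero_iff, norm_div, norm_mul, hc, one_mul, div_lt_one (norm_pos_iff.2 hden)]
    refine lt_of_pow_lt_pow_left₀ 2 (norm_nonneg _) ?_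
    simp only [← Complex.normSq_eq_norm_sq, Complex.normSq_apply]
    simp
    nlinarith
  · have h2I : (2 : ℂ) * I ≠ 0 := mul_ne_zero two_ne_zero I_ne_zero
    have e1 : c + c * (w - I) / (w + I) = c * (2 * w) / (w + I) := by
      rw [eq_div_iff hden, add_mul, div_mul_cancel₀ _ hden]; ring
    have e2 : c - c * (w - I) / (w + I) = c * (2 * I) / (w + I) := by
      rw [eq_div_iff hden, sub_mul, div_mul_cancel₀ _ hden]; ring
    rw [cay, e1, e2, mul_div_assoc', div_div_div_cancel_right₀ hden]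
    rw [div_eq_iff (mul_ne_zero hc0 h2I)]
    ring

lemma cay_differentiableOn {c : ℂ} (hc : ‖c‖ = 1) : DifferentiableOn ℂ (cay c) (ball 0 1) := by
  intro s hs
  rw [mem_ball_zero_iff] at hs
  have := cay_ne hc hs
  unfold cay
  apply DifferentiableAt.differentiableWithinAt
  fun_prop (disch := assumption)

section
variable {f : ℝ → ℝ} {L : ℝ}

theorem exists_cone_map (hf : ∀ x y, |f x - f y| ≤ L * |x - y|) (hL : 0 ≤ L) :
    ∃ w : ℂ → ℂ, DifferentiableOn ℂ w (Epi f) ∧ InjOn w (Epi f) ∧ w '' Epi f = HP ∧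
      ∀ z ∈ Epi f, ∀ e : ℂ, L * |e.re| ≤ e.im → (w z).im ≤ (w (z + e)).im := by
  classical
  have hopen := isOpen_Epi hf
  obtain ⟨g₀, hg₀d, hg₀i, hg₀m, hg₀'⟩ := exists_init hf hL
  have hz₀ : I * ((f 0 + 1 : ℝ) : ℂ) ∈ Epi f := by simp [Epi]
  obtain ⟨φ, hφd, hφi, hφ⟩ := exists_riemann_map hopen (isSimplyConnected_Epi hf) hz₀ hg₀d
    hg₀i hg₀m (hg₀' _ hz₀)
  have hφn : ∀ z ∈ Epi f, ‖φ z‖ < 1 := by
    intro z hz
    have : φ z ∈ φ '' Epi f := mem_image_of_mem _ hz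
    rw [hφ, mem_ball_zero_iff] at this
    exact this
  set χ : ℂ → ℂ := Function.invFunOn φ (Epi f) with hχdef
  have hχ : LeftInvOn χ φ (Epi f) := hφi.leftInvOn_invFunOn
  have hχd : DifferentiableOn ℂ χ (ball 0 1) := by
    intro s hs
    rw [← hφ] at hs
    obtain ⟨z, hz, rfl⟩ := hs
    exact (deriv_ne_and_hasDerivAt_leftInv hopen hφd hφi hχ hz).2.differentiableAt.differentiableWithinAt
  have hχm : MapsTo χ (ball 0 1) (Epi f) := by
    intro s hs
    rw [← hφ] at hs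
    obtain ⟨z, hz, rfl⟩ := hs
    rw [hχ hz]; exact hz
  set Z : ℕ → ℂ := fun n => I * ((n : ℝ) : ℂ) with hZ
  set R : ℕ → ℝ := fun n => ((n : ℝ) - f 0) / (1 + L) with hR
  have hRt : Tendsto R atTop atTop := by
    refine Tendsto.atTop_div_const (by positivity) ?_
    exact tendsto_atTop_add_const_right _ _ tendsto_natCast_atTop_atTop
  have hball : ∀ n, ball (Z n) (R n) ⊆ Epi f := by
    intro n
    refine ball_subset_Epi hf hL ?_
    rw [hR]
    field_simp
    exact le_refl _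
  have hZmem : ∀ᶠ n in atTop, Z n ∈ Epi f := by
    filter_upwards [hRt.eventually_gt_atTop 0] with n hn
    exact hball n (mem_ball_self hn)
  set 𝒰 : Ultrafilter ℕ := hyperfilter ℕ with h𝒰
  have h𝒰le : (𝒰 : Filter ℕ) ≤ atTop := by
    rw [h𝒰, ← Nat.cofinite_eq_atTop]; exact hyperfilter_le_cofinite
  obtain ⟨c, hcle, hc⟩ : ∃ c ∈ closedBall (0 : ℂ) 1, Tendsto (fun n => φ (Z n)) 𝒰 (𝓝 c) := by
    have hcpt : IsCompact (closedBall (0 : ℂ) 1) := isCompact_closedBall _ _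
    have h1 : ((𝒰.map (fun n => φ (Z n)) : Ultrafilter ℂ) : Filter ℂ) ≤
        𝓟 (closedBall (0 : ℂ) 1) := by
      rw [le_principal_iff]
      refine Ultrafilter.mem_map.2 ?_
      filter_upwards [h𝒰le hZmem] with n hn
      simpa using (hφn _ hn).le
    obtain ⟨a, ha1, ha⟩ := hcpt.ultrafilter_le_nhds _ h1
    exact ⟨a, ha1, ha⟩
  have hcn : ‖c‖ = 1 := by
    rw [mem_closedBall_zero_iff] at hcle
    refine le_antisymm hcle ?_
    by_contra hlt
    push Not at hlt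
    have hcb : c ∈ ball (0 : ℂ) 1 := by simpa using hlt
    rw [← hφ] at hcb
    obtain ⟨z, hz, hzc⟩ := hcb
    have hcont : ContinuousAt χ c := by
      rw [← hzc]; exact continuousAt_leftInv hopen hφd hφi hχ hz
    have h1 : Tendsto (fun n => χ (φ (Z n))) 𝒰 (𝓝 (χ c)) := hcont.tendsto.comp hc
    have h2 : Tendsto (fun n => Z n) 𝒰 (𝓝 (χ c)) := by
      refine h1.congr' ?_
      filter_upwards [h𝒰le hZmem] with n hn
      exact hχ hn
    have h3 : Tendsto (fun n => ‖Z n‖) 𝒰 (𝓝 ‖χ c‖) := h2.norm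
    have h4 : Tendsto (fun n => ‖Z n‖) 𝒰 atTop := by
      refine Tendsto.mono_left ?_ h𝒰le
      have : (fun n => ‖Z n‖) = fun n : ℕ => (n : ℝ) := by
        ext n; simp [hZ]
      rw [this]
      exact tendsto_natCast_atTop_atTop
    exact not_tendsto_nhds_of_tendsto_atTop h4 _ h3
  -- the key comparison
  have key : ∀ z ∈ Epi f, ∀ e : ℂ, L * |e.re| ≤ e.im →
      (1 - ‖φ z‖ ^ 2) / ‖1 - conj c * φ z‖ ^ 2 ≤
        (1 - ‖φ (z + e)‖ ^ 2) / ‖1 - conj c * φ (z + e)‖ ^ 2 := by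
    intro z hz e he
    have hze : z + e ∈ Epi f := add_mem_Epi hf hz he
    set g := φ (z + e) with hg
    have hgn : ‖g‖ < 1 := hφn _ hze
    have hzn : ‖φ z‖ < 1 := hφn _ hz
    -- the self map
    set G : ℂ → ℂ := fun s => φ (χ s + e) with hG
    have hGd : DifferentiableOn ℂ G (ball 0 1) :=
      hφd.comp (hχd.add_const e) fun s hs => add_mem_Epi hf (hχm hs) he
    have hGm : MapsTo G (ball 0 1) (ball 0 1) := by
      intro s hs
      rw [mem_ball_zero_iff]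
      exact hφn _ (add_mem_Epi hf (hχm hs) he)
    -- pseudo-hyperbolic distance between `φ (Z n)` and `φ (Z n + e)`
    have hδ : ∀ᶠ n in atTop, ‖mob (φ (Z n)) (φ (Z n + e))‖ ≤ ‖e‖ / R n := by
      filter_upwards [hRt.eventually_gt_atTop ‖e‖] with n hn
      have hRpos : 0 < R n := lt_of_le_of_lt (norm_nonneg _) hn
      have hd : DifferentiableOn ℂ (fun s : ℂ => φ (Z n + (R n : ℂ) * s)) (ball 0 1) := by
        refine hφd.comp (by fun_prop) ?_
        intro s hs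
        apply hball n
        rw [mem_ball_zero_iff] at hs
        rw [mem_ball, dist_eq_norm, add_sub_cancel_left, norm_mul, Complex.norm_real,
          Real.norm_of_nonneg hRpos.le]
        nlinarith
      have hm : MapsTo (fun s : ℂ => φ (Z n + (R n : ℂ) * s)) (ball 0 1) (ball 0 1) := by
        intro s hs
        rw [mem_ball_zero_iff]
        apply hφn
        apply hball n
        rw [mem_ball_zero_iff] at hs
        rw [mem_ball, dist_eq_norm, add_sub_cancel_left, norm_mul, Complex.norm_real,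
          Real.norm_of_nonneg hRpos.le]
        nlinarith
      have ha : ‖e / (R n : ℂ)‖ < 1 := by
        rw [norm_div, Complex.norm_real, Real.norm_of_nonneg hRpos.le, div_lt_one hRpos]
        exact hn
      have hb : ‖(0 : ℂ)‖ < 1 := by simp
      have := schwarz_pick hd hm ha hb
      have hRne : (R n : ℂ) ≠ 0 := by exact_mod_cast hRpos.ne'
      simp only [mul_zero, add_zero, mul_div_cancel₀ _ hRne] at this
      refine this.trans (le_of_eq ?_)
      simp [mob, abs_of_pos hRpos]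
    set δ : ℕ → ℝ := fun n => ‖mob (φ (Z n)) (φ (Z n + e))‖ with hδdef
    have hδ0 : Tendsto δ atTop (𝓝 0) := by
      refine squeeze_zero' (Eventually.of_forall fun n => norm_nonneg _) hδ ?_
      exact hRt.const_div_atTop _ 
    have hδ0' : Tendsto δ 𝒰 (𝓝 0) := hδ0.mono_left h𝒰le
    have hZe : ∀ᶠ n in atTop, Z n + e ∈ Epi f := by
      filter_upwards [hZmem] with n hn
      exact add_mem_Epi hf hn he
    -- `φ (Z n + e) → c`
    have hce : Tendsto (fun n => φ (Z n + e)) 𝒰 (𝓝 c) := by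
      have h1 : Tendsto (fun n => φ (Z n + e) - φ (Z n)) 𝒰 (𝓝 0) := by
        rw [tendsto_zero_iff_norm_tendsto_zero]
        refine squeeze_zero' (Eventually.of_forall fun n => norm_nonneg _) ?_
          (by simpa using hδ0'.const_mul 2)
        filter_upwards [h𝒰le hZmem, h𝒰le hZe] with n hn hne
        exact norm_sub_le_of_mob (hφn _ hn) (hφn _ hne)
      have h2 := h1.add hc
      simpa using h2
    -- ratio tends to one
    set x : ℕ → ℝ := fun n => (1 - ‖φ (Z n + e)‖ ^ 2) / (1 - ‖φ (Z n)‖ ^ 2) with hx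
    have hx1 : Tendsto x 𝒰 (𝓝 1) := by
      rw [tendsto_iff_norm_sub_tendsto_zero]
      have h1 : Tendsto (fun n => 2 * δ n / (1 - δ n)) 𝒰 (𝓝 (2 * 0 / (1 - 0))) :=
        (hδ0'.const_mul 2).div (tendsto_const_nhds.sub hδ0') (by norm_num)
      simp only [mul_zero, zero_div] at h1
      refine squeeze_zero' (Eventually.of_forall fun n => norm_nonneg _) ?_ h1
      filter_upwards [h𝒰le hZmem, h𝒰le hZe, hδ0'.eventually (gt_mem_nhds one_pos)] with n hn hne hlt
      rw [Real.norm_eq_abs]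
      have hA : 0 < 1 - ‖φ (Z n)‖ ^ 2 := by nlinarith [norm_nonneg (φ (Z n)), hφn _ hn]
      have hB : 0 < 1 - ‖φ (Z n + e)‖ ^ 2 := by
        nlinarith [norm_nonneg (φ (Z n + e)), hφn _ hne]
      exact ratio_bound hA hB (norm_nonneg _) hlt (mob_compare (hφn _ hn) (hφn _ hne))
    -- inequality for each n
    have hineq : ∀ᶠ n in (𝒰 : Filter ℕ),
        (1 - ‖φ z‖ ^ 2) / ‖1 - conj (φ (Z n)) * φ z‖ ^ 2 ≤
          x n * ((1 - ‖g‖ ^ 2) / ‖1 - conj (φ (Z n + e)) * g‖ ^ 2) := by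
      filter_upwards [h𝒰le hZmem, h𝒰le hZe] with n hn hne
      have h1 := schwarz_pick hGd hGm hzn (hφn _ hn)
      have e1 : G (φ (Z n)) = φ (Z n + e) := by simp only [hG]; rw [hχ hn]
      have e2 : G (φ z) = g := by simp only [hG]; rw [hχ hz]
      rw [e1, e2] at h1
      have h2 : 1 - ‖mob (φ (Z n)) (φ z)‖ ^ 2 ≤ 1 - ‖mob (φ (Z n + e)) g‖ ^ 2 := by
        nlinarith [norm_nonneg (mob (φ (Z n + e)) g)]
      rw [one_sub_norm_mob_sq (hφn _ hn) hzn, one_sub_norm_mob_sq (hφn _ hne) hgn] at h2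
      have hA : 0 < 1 - ‖φ (Z n)‖ ^ 2 := by nlinarith [norm_nonneg (φ (Z n)), hφn _ hn]
      have h3 := div_le_div_of_nonneg_right h2 hA.le
      refine le_trans (le_of_eq ?_) (h3.trans (le_of_eq ?_))
      · field_simp
      · rw [hx]; field_simp
    have hden1 : ‖1 - conj c * φ z‖ ^ 2 ≠ 0 := by
      have : 1 - conj c * φ z ≠ 0 := by
        intro h
        have h1 : ‖conj c * φ z‖ = 1 := by rw [← sub_eq_zero.1 h]; simp
        rw [norm_mul, Complex.norm_conj, hcn, one_mul] at h1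
        linarith
      positivity
    have hden2 : ‖1 - conj c * g‖ ^ 2 ≠ 0 := by
      have : 1 - conj c * g ≠ 0 := by
        intro h
        have h1 : ‖conj c * g‖ = 1 := by rw [← sub_eq_zero.1 h]; simp
        rw [norm_mul, Complex.norm_conj, hcn, one_mul] at h1
        linarith
      positivity
    have hconj1 : Tendsto (fun n => conj (φ (Z n))) 𝒰 (𝓝 (conj c)) :=
      (Complex.continuous_conj.tendsto c).comp hc
    have hconj2 : Tendsto (fun n => conj (φ (Z n + e))) 𝒰 (𝓝 (conj c)) :=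
      (Complex.continuous_conj.tendsto c).comp hce
    have lim1 : Tendsto (fun n => (1 - ‖φ z‖ ^ 2) / ‖1 - conj (φ (Z n)) * φ z‖ ^ 2) 𝒰
        (𝓝 ((1 - ‖φ z‖ ^ 2) / ‖1 - conj c * φ z‖ ^ 2)) :=
      tendsto_const_nhds.div
        (((tendsto_const_nhds.sub (hconj1.mul_const _)).norm).pow 2) hden1
    have lim2 : Tendsto (fun n => x n * ((1 - ‖g‖ ^ 2) / ‖1 - conj (φ (Z n + e)) * g‖ ^ 2)) 𝒰
        (𝓝 (1 * ((1 - ‖g‖ ^ 2) / ‖1 - conj c * g‖ ^ 2))) :=
      hx1.mul (tendsto_const_nhds.div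
        (((tendsto_const_nhds.sub (hconj2.mul_const _)).norm).pow 2) hden2)
    rw [one_mul] at lim2
    exact le_of_tendsto_of_tendsto lim1 lim2 hineq
  refine ⟨fun z => cay c (φ z), ?_, ?_, ?_, ?_⟩
  · refine (cay_differentiableOn hcn).comp hφd ?_
    intro z hz
    rw [mem_ball_zero_iff]; exact hφn z hz
  · intro a ha b hb hab
    refine hφi ha hb (cay_injOn hcn ?_ ?_ hab)
    · rw [mem_ball_zero_iff]; exact hφn a ha
    · rw [mem_ball_zero_iff]; exact hφn b hb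
  · ext w
    constructor
    · rintro ⟨z, hz, rfl⟩
      exact cay_mem_HP hcn (hφn z hz)
    · intro hw
      obtain ⟨s, hs, rfl⟩ := cay_surj hcn hw
      rw [← hφ] at hs
      obtain ⟨z, hz, rfl⟩ := hs
      exact ⟨z, hz, rfl⟩
  · intro z hz e he
    show (cay c (φ z)).im ≤ (cay c (φ (z + e))).im
    rw [cay_im hcn, cay_im hcn]
    exact key z hz e he

end

end Pool.Agent.Lib.MP_354547_an
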