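import Mathlib
import Pool.Agent.Lib.MP_354547_an.ConeMap

set_option autoImplicit false

open Complex Metric Set Filter Topology ComplexConjugate

namespace Pool.Agent.Lib.MP_354547_an

section
variable {f : ℝ → ℝ} {L : ℝ}

lemma im_mul_nonneg_of_mono {w : ℂ → ℂ} {z e : ℂ} (hd : DifferentiableAt ℂ w z)
    (h : ∀ t : ℝ, 0 < t → (w z).im ≤ (w (z + t * e)).im) : 0 ≤ (deriv w z * e).im := by
  have h1 : HasDerivAt (fun t : ℝ => w (z + t * e)) (deriv w z * e) 0 := by
    have h2 : HasDerivAt (fun t : ℂ => z + t * e) e 0 := by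
      simpa using ((hasDerivAt_id (0 : ℂ)).mul_const e).const_add z
    have h3 : HasDerivAt w (deriv w z) (z + (0 : ℂ) * e) := by
      simpa using hd.hasDerivAt
    have h4 := h3.comp (0 : ℂ) h2
    exact h4.comp_ofReal
  have h5 : HasDerivAt (fun t : ℝ => (w (z + t * e)).im) (deriv w z * e).im 0 := by
    exact (Complex.imCLM.hasFDerivAt.comp_hasDerivAt (0 : ℝ) h1)
  have h6 := h5.tendsto_slope
  have h7 : Tendsto (slope (fun t : ℝ => (w (z + t * e)).im) 0) (𝓝[>] 0)
      (𝓝 (deriv w z * e).im) :=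
    h6.mono_left (nhdsWithin_mono _ fun x hx => (ne_of_gt hx))
  refine ge_of_tendsto h7 ?_
  filter_upwards [self_mem_nhdsWithin] with t ht
  rw [slope_def_field]
  have := h t ht
  simp only [ofReal_zero, zero_mul, add_zero, sub_zero]
  exact div_nonneg (by linarith) (le_of_lt ht)

lemma sector_of_cone {w : ℂ → ℂ} (hf : ∀ x y, |f x - f y| ≤ L * |x - y|)
    (hd : DifferentiableOn ℂ w (Epi f))
    (hcone : ∀ z ∈ Epi f, ∀ e : ℂ, L * |e.re| ≤ e.im → (w z).im ≤ (w (z + e)).im)
    {z : ℂ} (hz : z ∈ Epi f) : |(deriv w z).im| ≤ L * (deriv w z).re := by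
  have hda := hd.differentiableAt ((isOpen_Epi hf).mem_nhds hz)
  have h1 : 0 ≤ (deriv w z * (1 + L * I)).im := by
    refine im_mul_nonneg_of_mono hda fun t ht => hcone z hz _ ?_
    simp [abs_of_pos ht, mul_comm]
  have h2 : 0 ≤ (deriv w z * (-1 + L * I)).im := by
    refine im_mul_nonneg_of_mono hda fun t ht => hcone z hz _ ?_
    simp [abs_of_pos ht, mul_comm]
  simp at h1 h2
  rw [abs_le]
  constructor <;> nlinarith

/-- Schwarz-Pick for maps from the upper half plane to the right half plane. -/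
lemma norm_deriv_le_of_re_pos {q : ℂ → ℂ} (hq : DifferentiableOn ℂ q HP)
    (hpos : ∀ z ∈ HP, 0 < (q z).re) {z : ℂ} (hz : z ∈ HP) :
    ‖deriv q z‖ ≤ (q z).re / z.im := by
  have hzim : 0 < z.im := hz
  set u := q z with hu
  have hupos : 0 < u.re := hpos z hz
  -- the two Cayley maps
  set C₁ : ℂ → ℂ := fun s => (z - conj z * s) / (1 - s) with hC₁
  set C₂ : ℂ → ℂ := fun v => (v - u) / (v + conj u) with hC₂
  have h1s : ∀ s ∈ ball (0 : ℂ) 1, (1 : ℂ) - s ≠ 0 := by
    intro s hs h
    rw [mem_ball_zero_iff] at hs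
    rw [← sub_eq_zero.1 h] at hs
    simp at hs
  have hC₁im : ∀ s ∈ ball (0 : ℂ) 1, C₁ s ∈ HP := by
    intro s hs
    have h1 := h1s s hs
    rw [mem_ball_zero_iff] at hs
    have h2 : 0 < normSq (1 - s) := normSq_pos.2 h1
    have h3 : (C₁ s).im = z.im * (1 - ‖s‖ ^ 2) / normSq (1 - s) := by
      simp only [hC₁]
      rw [Complex.div_im, ← Complex.normSq_eq_norm_sq s]
      rw [← sub_div]
      congr 1
      simp [Complex.normSq_apply]
      ring
    show 0 < (C₁ s).im
    rw [h3]
    have : 0 < 1 - ‖s‖ ^ 2 := by nlinarith [norm_nonneg s]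
    positivity
  have hC₁d : DifferentiableOn ℂ C₁ (ball 0 1) := by
    intro s hs
    have := h1s s hs
    apply DifferentiableAt.differentiableWithinAt
    simp only [hC₁]
    fun_prop (disch := assumption)
  have hC₁' : HasDerivAt C₁ (z - conj z) 0 := by
    have h1 : HasDerivAt (fun s : ℂ => z - conj z * s) (-(conj z * 1)) 0 :=
      ((hasDerivAt_id (0 : ℂ)).const_mul (conj z)).const_sub z
    have h2 : HasDerivAt (fun s : ℂ => 1 - s) (-1) 0 := (hasDerivAt_id (0 : ℂ)).const_sub 1
    have h3 := h1.fun_div h2 (by simp)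
    refine h3.congr_deriv ?_
    simp
    ring
  have hden : ∀ v : ℂ, 0 < v.re → v + conj u ≠ 0 := by
    intro v hv h
    have := congrArg Complex.re h
    simp at this
    linarith
  have hC₂n : ∀ v : ℂ, 0 < v.re → ‖C₂ v‖ ≤ 1 := by
    intro v hv
    simp only [hC₂]
    rw [norm_div, div_le_one (norm_pos_iff.2 (hden v hv))]
    refine le_of_sq_le_sq ?_ (norm_nonneg _)
    simp only [← Complex.normSq_eq_norm_sq, Complex.normSq_apply]
    simp
    nlinarith
  have hC₂d : DifferentiableOn ℂ C₂ {v | 0 < v.re} := by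
    intro v hv
    have := hden v hv
    apply DifferentiableAt.differentiableWithinAt
    simp only [hC₂]
    fun_prop (disch := assumption)
  have hC₂' : HasDerivAt C₂ (1 / (u + conj u)) u := by
    have h1 : HasDerivAt (fun v : ℂ => v - u) 1 u := (hasDerivAt_id u).sub_const u
    have h2 : HasDerivAt (fun v : ℂ => v + conj u) 1 u := (hasDerivAt_id u).add_const _
    have h3 := h1.fun_div h2 (hden u hupos)
    refine h3.congr_deriv ?_
    have := hden u hupos
    field_simp
    ring
  set h : ℂ → ℂ := fun s => C₂ (q (C₁ s)) with hh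
  have hhd : DifferentiableOn ℂ h (ball 0 1) :=
    hC₂d.comp (hq.comp hC₁d hC₁im) fun s hs => hpos _ (hC₁im s hs)
  have hC₁0 : C₁ 0 = z := by simp [hC₁]
  have hC₂u : C₂ u = 0 := by simp [hC₂]
  have hh0 : h 0 = 0 := by simp only [hh]; rw [hC₁0, ← hu, hC₂u]
  have hhm : MapsTo h (ball 0 1) (closedBall (h 0) 1) := by
    intro s hs
    rw [hh0, mem_closedBall_zero_iff]
    exact hC₂n _ (hpos _ (hC₁im s hs))
  have hhle := Complex.norm_deriv_le_one_of_mapsTo_ball hhd hhm one_pos
  have hder : HasDerivAt h (1 / (u + conj u) * (deriv q z * (z - conj z))) 0 := by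
    have h1 : HasDerivAt q (deriv q z) (C₁ 0) := by
      rw [hC₁0]
      exact (hq.differentiableAt (isOpen_HP.mem_nhds hz)).hasDerivAt
    have h2 : HasDerivAt C₂ (1 / (u + conj u)) (q (C₁ 0)) := by
      rw [hC₁0]; exact hC₂'
    exact h2.comp (0 : ℂ) (h1.comp (0 : ℂ) hC₁')
  rw [hder.deriv] at hhle
  have e1 : u + conj u = ((2 * u.re : ℝ) : ℂ) := by rw [Complex.add_conj]
  have e2 : z - conj z = ((2 * z.im : ℝ) : ℂ) * I := by rw [Complex.sub_conj]
  rw [e1, e2] at hhle
  simp only [norm_mul, norm_div, Complex.norm_real, norm_one, Complex.norm_I, mul_one] at hhle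
  rw [Real.norm_of_nonneg (by positivity), Real.norm_of_nonneg (by positivity)] at hhle
  rw [le_div_iff₀ hzim]
  rw [div_mul_eq_mul_div, div_le_one (by positivity), one_mul, Real.norm_of_nonneg hzim.le] at hhle
  linarith

/-- Exponent `κ < 1` attached to the slope `L`. -/
lemma exists_kappa (L : ℝ) : ∃ κ : ℝ, 0 < κ ∧ κ < 1 ∧ Real.arctan L < κ * (Real.pi / 2) := by
  have h1 := Real.arctan_lt_pi_div_two L
  have hpi := Real.pi_pos
  obtain ⟨κ, hκ1, hκ2⟩ : ∃ κ : ℝ, max (Real.arctan L / (Real.pi / 2)) 0 < κ ∧ κ < 1 := by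
    apply exists_between
    rw [max_lt_iff]
    constructor
    · rw [div_lt_one (by positivity)]; exact h1
    · norm_num
  rw [max_lt_iff] at hκ1
  refine ⟨κ, hκ1.2, hκ2, ?_⟩
  rw [← div_lt_iff₀ (by positivity)]
  exact hκ1.1

lemma abs_arg_le {P : ℂ} (hre : 0 < P.re) (hs : |P.im| ≤ L * P.re) :
    |arg P| ≤ Real.arctan L := by
  have h1 : |arg P| < Real.pi / 2 := by
    rw [Complex.abs_arg_lt_pi_div_two_iff]
    exact Or.inl hre
  have h2 := abs_lt.1 h1
  have h3 : arg P = Real.arctan (P.im / P.re) := by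
    rw [← Complex.tan_arg, Real.arctan_tan h2.1 h2.2]
  have hs' := abs_le.1 hs
  rw [h3, abs_le]
  constructor
  · rw [← Real.arctan_neg]
    apply Real.arctan_strictMono.monotone
    rw [le_div_iff₀ hre]
    linarith [hs'.1]
  · apply Real.arctan_strictMono.monotone
    rw [div_le_iff₀ hre]
    exact hs'.2

/-- Gradient bound for the logarithm of a sector valued function. -/
lemma norm_logderiv_le {P : ℂ → ℂ} {κ : ℝ} (hκ0 : 0 < κ)
    (hκ : Real.arctan L < κ * (Real.pi / 2)) (hP : DifferentiableOn ℂ P HP)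
    (hre : ∀ z ∈ HP, 0 < (P z).re) (hs : ∀ z ∈ HP, |(P z).im| ≤ L * (P z).re)
    {z : ℂ} (hz : z ∈ HP) : ‖deriv P z / P z‖ ≤ κ / z.im := by
  have hzim : 0 < z.im := hz
  set q : ℂ → ℂ := fun z => Complex.exp (Complex.log (P z) / κ) with hq
  have hκne : (κ : ℂ) ≠ 0 := by exact_mod_cast hκ0.ne'
  have hder : ∀ z ∈ HP, HasDerivAt q (q z * (deriv P z / P z / κ)) z := by
    intro z hz
    have h1 : HasDerivAt P (deriv P z) z := (hP.differentiableAt (isOpen_HP.mem_nhds hz)).hasDerivAt
    have h2 := (h1.clog (Or.inl (hre z hz))).div_const (κ : ℂ)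
    exact h2.cexp
  have hqre : ∀ z ∈ HP, 0 < (q z).re := by
    intro z hz
    have e1 : Complex.log (P z) / κ =
        ((Real.log ‖P z‖ / κ : ℝ) : ℂ) + ((arg (P z) / κ : ℝ) : ℂ) * I := by
      apply Complex.ext
      · simp [Complex.log_re]
      · simp [Complex.log_im]
    have e2 : (q z).re = Real.exp (Real.log ‖P z‖ / κ) * Real.cos (arg (P z) / κ) := by
      simp only [hq]
      rw [e1, Complex.exp_re]
      simp
    rw [e2]
    refine mul_pos (Real.exp_pos _) (Real.cos_pos_of_mem_Ioo ?_)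
    have h3 := abs_arg_le (hre z hz) (hs z hz)
    have h4 : |arg (P z) / κ| < Real.pi / 2 := by
      rw [abs_div, abs_of_pos hκ0, div_lt_iff₀ hκ0, mul_comm]
      exact lt_of_le_of_lt h3 hκ
    exact ⟨by linarith [(abs_lt.1 h4).1], (abs_lt.1 h4).2⟩
  have hqd : DifferentiableOn ℂ q HP := fun z hz =>
    (hder z hz).differentiableAt.differentiableWithinAt
  have h5 := norm_deriv_le_of_re_pos hqd hqre hz
  rw [(hder z hz).deriv, norm_mul, norm_div, Complex.norm_real, Real.norm_of_nonneg hκ0.le] at h5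
  have hqpos : 0 < ‖q z‖ := by
    rw [norm_pos_iff]; exact Complex.exp_ne_zero _
  have h6 : (q z).re ≤ ‖q z‖ := Complex.re_le_norm _
  have h7 : ‖q z‖ * (‖deriv P z / P z‖ / κ) ≤ ‖q z‖ * (1 / z.im) := by
    refine h5.trans ?_
    rw [mul_one_div]
    gcongr
  have h8 := le_of_mul_le_mul_left h7 hqpos
  rw [div_le_div_iff₀ hκ0 hzim] at h8
  rw [le_div_iff₀ hzim]
  linarith

/-- Vertical Harnack bounds. -/
lemma harnack_vertical {P : ℂ → ℂ} {κ : ℝ} (hκ0 : 0 < κ)
    (hκ : Real.arctan L < κ * (Real.pi / 2)) (hP : DifferentiableOn ℂ P HP)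
    (hre : ∀ z ∈ HP, 0 < (P z).re) (hs : ∀ z ∈ HP, |(P z).im| ≤ L * (P z).re)
    (x : ℝ) {y : ℝ} (hy0 : 0 < y) (hy1 : y ≤ 1) :
    ‖P (x + y * I)‖ ≤ ‖P (x + I)‖ * y ^ (-κ) ∧ ‖P (x + I)‖ * y ^ κ ≤ ‖P (x + y * I)‖ := by
  have hmem : ∀ y : ℝ, 0 < y → (x + y * I : ℂ) ∈ HP := by
    intro y hy; simpa [HP] using hy
  have hder : ∀ y : ℝ, 0 < y → HasDerivAt (fun y : ℝ => (Complex.log (P (x + y * I))).re)
      ((deriv P (x + y * I) / P (x + y * I) * I).re) y := by
    intro y hy
    have h1 : HasDerivAt P (deriv P (x + y * I)) (x + y * I) :=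
      (hP.differentiableAt (isOpen_HP.mem_nhds (hmem y hy))).hasDerivAt
    have h2 : HasDerivAt (fun s : ℂ => (x : ℂ) + s * I) I (y : ℂ) := by
      simpa using ((hasDerivAt_id (y : ℂ)).mul_const I).const_add (x : ℂ)
    have h3 := ((h1.comp (y : ℂ) h2).clog (Or.inl (hre _ (hmem y hy)))).comp_ofReal
    have h4 := (Complex.reCLM.hasFDerivAt.comp_hasDerivAt y h3)
    have e1 : deriv P (x + y * I) / P (x + y * I) * I =
        deriv P (x + y * I) * I / P (x + y * I) := by ring
    rw [e1]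
    exact h4
  have hbd : ∀ y : ℝ, 0 < y → |(deriv P (x + y * I) / P (x + y * I) * I).re| ≤ κ / y := by
    intro y hy
    have h1 := norm_logderiv_le hκ0 hκ hP hre hs (hmem y hy)
    have h2 : ‖deriv P (x + y * I) / P (x + y * I) * I‖ ≤ κ / y := by
      rw [norm_mul, Complex.norm_I, mul_one]
      simpa using h1
    exact (Complex.abs_re_le_norm _).trans h2
  have hlogd : ∀ y : ℝ, 0 < y → HasDerivAt (fun y : ℝ => κ * Real.log y) (κ / y) y := by
    intro y hy
    have := (Real.hasDerivAt_log hy.ne').const_mul κ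
    simpa [div_eq_mul_inv] using this
  have hmono1 : MonotoneOn (fun y : ℝ => κ * Real.log y + (Complex.log (P (x + y * I))).re)
      (Ioi 0) := by
    refine monotoneOn_of_deriv_nonneg (convex_Ioi 0) ?_ ?_ ?_
    · intro y hy
      exact ((hlogd y hy).add (hder y hy)).continuousAt.continuousWithinAt
    · intro y hy
      rw [interior_Ioi] at hy
      exact ((hlogd y hy).add (hder y hy)).differentiableAt.differentiableWithinAt
    · intro y hy
      rw [interior_Ioi] at hy
      have := ((hlogd y hy).add (hder y hy)).deriv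
      have h2 := abs_le.1 (hbd y hy)
      calc 0 ≤ κ / y + (deriv P (x + y * I) / P (x + y * I) * I).re := by linarith [h2.1]
        _ = _ := this.symm
  have hmono2 : MonotoneOn (fun y : ℝ => κ * Real.log y - (Complex.log (P (x + y * I))).re)
      (Ioi 0) := by
    refine monotoneOn_of_deriv_nonneg (convex_Ioi 0) ?_ ?_ ?_
    · intro y hy
      exact ((hlogd y hy).sub (hder y hy)).continuousAt.continuousWithinAt
    · intro y hy
      rw [interior_Ioi] at hy
      exact ((hlogd y hy).sub (hder y hy)).differentiableAt.differentiableWithinAt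
    · intro y hy
      rw [interior_Ioi] at hy
      have := ((hlogd y hy).sub (hder y hy)).deriv
      have h2 := abs_le.1 (hbd y hy)
      calc 0 ≤ κ / y - (deriv P (x + y * I) / P (x + y * I) * I).re := by linarith [h2.2]
        _ = _ := this.symm
  have h1 := hmono1 (mem_Ioi.2 hy0) (mem_Ioi.2 one_pos) hy1
  have h2 := hmono2 (mem_Ioi.2 hy0) (mem_Ioi.2 one_pos) hy1
  simp only [Real.log_one, mul_zero, zero_add, zero_sub, ofReal_one, one_mul, Complex.log_re]
    at h1 h2
  have hp1 : 0 < ‖P (x + y * I)‖ := by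
    rw [norm_pos_iff]; intro h0
    have := hre _ (hmem y hy0)
    rw [h0] at this; simp at this
  have hp2 : 0 < ‖P (x + I)‖ := by
    rw [norm_pos_iff]; intro h0
    have := hre _ (hmem 1 one_pos)
    simp only [ofReal_one, one_mul] at this
    rw [h0] at this; simp at this
  constructor
  · rw [← Real.log_le_log_iff hp1 (by positivity), Real.log_mul hp2.ne' (by positivity),
      Real.log_rpow hy0]
    linarith
  · rw [← Real.log_le_log_iff (by positivity) hp1, Real.log_mul hp2.ne' (by positivity),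
      Real.log_rpow hy0]
    linarith

end

end Pool.Agent.Lib.MP_354547_an
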