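import Mathlib
import Pool.Agent.Lib.MP_354547_an.Sector

set_option autoImplicit false

open Complex Metric Set Filter Topology ComplexConjugate

namespace Pool.Agent.Lib.MP_354547_an

lemma rpow_add_le' {a b p : ℝ} (ha : 0 ≤ a) (hb : 0 ≤ b) (hp : 0 ≤ p) (hp1 : p ≤ 1) :
    (a + b) ^ p ≤ a ^ p + b ^ p := by
  have := NNReal.rpow_add_le_add_rpow ⟨a, ha⟩ ⟨b, hb⟩ hp hp1
  exact_mod_cast this

lemma vertical_est {ψ : ℂ → ℂ} {C κ : ℝ} (hκ0 : 0 < κ) (hκ1 : κ < 1) (hC : 0 ≤ C) {x y h : ℝ}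
    (hy : 0 < y) (hh : 0 ≤ h) (hyh : y + h ≤ 1) (hd : DifferentiableOn ℂ ψ HP)
    (hb : ∀ s : ℝ, 0 < s → s ≤ 1 → ‖deriv ψ (x + s * I)‖ ≤ C * s ^ (-κ)) :
    ‖ψ (x + ((y + h : ℝ) : ℂ) * I) - ψ (x + y * I)‖ ≤ C * h ^ (1 - κ) / (1 - κ) := by
  have hmem : ∀ s : ℝ, 0 < s → (x + s * I : ℂ) ∈ HP := by
    intro s hs; simpa [HP] using hs
  have hder : ∀ s : ℝ, 0 < y + s → HasDerivAt (fun s : ℝ => ψ (x + ((y + s : ℝ) : ℂ) * I) -
      ψ (x + y * I)) (deriv ψ (x + ((y + s : ℝ) : ℂ) * I) * I) s := by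
    intro s hs
    have h1 : HasDerivAt ψ (deriv ψ (x + ((y + s : ℝ) : ℂ) * I)) (x + ((y + s : ℝ) : ℂ) * I) :=
      (hd.differentiableAt (isOpen_HP.mem_nhds (hmem _ hs))).hasDerivAt
    have h2 : HasDerivAt (fun v : ℂ => (x : ℂ) + (y + v) * I) I (s : ℂ) := by
      simpa using (((hasDerivAt_id (s : ℂ)).const_add (y : ℂ)).mul_const I).const_add (x : ℂ)
    have h1' : HasDerivAt ψ (deriv ψ (x + ((y + s : ℝ) : ℂ) * I)) ((x : ℂ) + (y + s) * I) := by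
      have e : ((x : ℂ) + (y + s) * I) = (x + ((y + s : ℝ) : ℂ) * I) := by push_cast; ring
      rw [e]; exact h1
    have h3 := ((h1'.comp (s : ℂ) h2).comp_ofReal).sub_const (ψ (x + y * I))
    refine h3.congr_of_eventuallyEq (Eventually.of_forall fun v => ?_)
    simp
  have hpow : ∀ s : ℝ, 0 < y + s → HasDerivAt (fun s : ℝ => C / (1 - κ) *
      ((y + s) ^ (1 - κ) - y ^ (1 - κ))) (C * (y + s) ^ (-κ)) s := by
    intro s hs
    have h1 : HasDerivAt (fun s : ℝ => y + s) 1 s := (hasDerivAt_id s).const_add y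
    have h2 := ((h1.rpow_const (p := 1 - κ) (Or.inl hs.ne')).sub_const (y ^ (1 - κ))).const_mul
      (C / (1 - κ))
    refine h2.congr_deriv ?_
    have h3 : (1 : ℝ) - κ ≠ 0 := by linarith
    have h4 : 1 - κ - 1 = -κ := by ring
    rw [h4]
    field_simp
  have hmain := image_norm_le_of_norm_deriv_right_le_deriv_boundary' (a := 0) (b := h)
    (f := fun s : ℝ => ψ (x + ((y + s : ℝ) : ℂ) * I) - ψ (x + y * I))
    (f' := fun s : ℝ => deriv ψ (x + ((y + s : ℝ) : ℂ) * I) * I)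
    (B := fun s : ℝ => C / (1 - κ) * ((y + s) ^ (1 - κ) - y ^ (1 - κ)))
    (B' := fun s : ℝ => C * (y + s) ^ (-κ)) ?_ ?_ ?_ ?_ ?_ ?_ (right_mem_Icc.2 hh)
  · refine hmain.trans ?_
    have h5 := rpow_add_le' hy.le hh (by linarith : (0 : ℝ) ≤ 1 - κ) (by linarith)
    rw [mul_div_right_comm]
    have h6 : 0 ≤ C / (1 - κ) := div_nonneg hC (by linarith)
    exact mul_le_mul_of_nonneg_left (by linarith) h6
  · intro s hs
    exact (hder s (by linarith [hs.1])).continuousAt.continuousWithinAt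
  · intro s hs
    exact (hder s (by linarith [hs.1])).hasDerivWithinAt
  · simp
  · intro s hs
    exact (hpow s (by linarith [hs.1])).continuousAt.continuousWithinAt
  · intro s hs
    exact (hpow s (by linarith [hs.1])).hasDerivWithinAt
  · intro s hs
    rw [norm_mul, Complex.norm_I, mul_one]
    exact hb (y + s) (by linarith [hs.1]) (by linarith [hs.2])

lemma exists_limit {ψ : ℂ → ℂ} {C κ t : ℝ} (hκ0 : 0 < κ) (hκ1 : κ < 1) (hC : 0 ≤ C)
    (hd : DifferentiableOn ℂ ψ HP)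
    (hb : ∀ x : ℝ, |x - t| ≤ 1 → ∀ s : ℝ, 0 < s → s ≤ 1 →
      ‖deriv ψ (x + s * I)‖ ≤ C * s ^ (-κ)) :
    ∃ a : ℂ, Tendsto ψ (𝓝[HP] (t : ℂ)) (𝓝 a) := by
  have hcl : (t : ℂ) ∈ closure HP := by
    rw [mem_closure_iff_nhds_basis Metric.nhds_basis_ball]
    intro ε hε
    refine ⟨t + ((ε / 2 : ℝ) : ℂ) * I, ?_, ?_⟩
    · simp [HP, hε]
    · rw [mem_ball, dist_eq_norm, add_sub_cancel_left, norm_mul, Complex.norm_I, mul_one,
        Complex.norm_real, Real.norm_of_nonneg (by positivity)]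
      linarith
  haveI : (𝓝[HP] (t : ℂ)).NeBot := mem_closure_iff_nhdsWithin_neBot.1 hcl
  rw [← cauchy_map_iff_exists_tendsto, Metric.cauchy_iff]
  refine ⟨inferInstance, fun ε hε => ?_⟩
  set M : ℝ := 2 * C / (1 - κ) + 2 * C with hM
  have hest : ∀ δ : ℝ, 0 < δ → δ ≤ 1 / 4 → ∀ z₁ ∈ ball (t : ℂ) δ ∩ HP, ∀ z₂ ∈ ball (t : ℂ) δ ∩ HP,
      ‖ψ z₁ - ψ z₂‖ ≤ M * δ ^ (1 - κ) := by
    intro δ hδ hδ4 z₁ hz₁ z₂ hz₂
    have hprop : ∀ z ∈ ball (t : ℂ) δ ∩ HP, |z.re - t| < δ ∧ 0 < z.im ∧ z.im < δ := by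
      intro z hz
      have h1 := hz.1
      rw [mem_ball, dist_eq_norm] at h1
      have h2 := abs_re_le_norm (z - t)
      have h3 := abs_im_le_norm (z - t)
      simp only [sub_re, ofReal_re, sub_im, ofReal_im, sub_zero] at h2 h3
      refine ⟨by linarith, hz.2, ?_⟩
      have := (abs_le.1 h3).2
      linarith
    have hup : ∀ z ∈ ball (t : ℂ) δ ∩ HP, ‖ψ (z + δ * I) - ψ z‖ ≤ C * δ ^ (1 - κ) / (1 - κ) := by
      intro z hz
      obtain ⟨h1, h2, h3⟩ := hprop z hz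
      have h4 := vertical_est hκ0 hκ1 hC (x := z.re) (y := z.im) (h := δ) h2 hδ.le (by linarith) hd
        (hb z.re (by linarith))
      have e1 : ((z.re : ℂ) + ((z.im + δ : ℝ) : ℂ) * I) = z + δ * I := by
        conv_rhs => rw [← Complex.re_add_im z]
        push_cast; ring
      rw [e1, Complex.re_add_im] at h4
      exact h4
    -- the horizontal part
    set S : Set ℂ := {z | |z.re - t| ≤ 1 ∧ δ ≤ z.im ∧ z.im ≤ 1} with hS
    have hSconv : Convex ℝ S := by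
      have e : S = (Complex.reLm ⁻¹' (Icc (t - 1) (t + 1))) ∩ (Complex.imLm ⁻¹' (Icc δ 1)) := by
        ext z
        simp only [hS, mem_ofPred_eq, mem_inter_iff, mem_preimage, mem_Icc, Complex.reLm_coe,
          Complex.imLm_coe, abs_le]
        constructor
        · rintro ⟨⟨h1, h2⟩, h3⟩; exact ⟨⟨by linarith, by linarith⟩, h3⟩
        · rintro ⟨⟨h1, h2⟩, h3⟩; exact ⟨⟨by linarith, by linarith⟩, h3⟩
      rw [e]
      exact ((convex_Icc _ _).linear_preimage _).inter ((convex_Icc _ _).linear_preimage _)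
    have hSmem : ∀ z ∈ ball (t : ℂ) δ ∩ HP, z + δ * I ∈ S := by
      intro z hz
      obtain ⟨h1, h2, h3⟩ := hprop z hz
      simp only [hS, mem_ofPred_eq]
      simp
      refine ⟨by linarith, by linarith, by linarith⟩
    have hhor : ‖ψ (z₁ + δ * I) - ψ (z₂ + δ * I)‖ ≤ C * δ ^ (-κ) * ‖(z₁ + δ * I) - (z₂ + δ * I)‖ := by
      refine Convex.norm_image_sub_le_of_norm_deriv_le (𝕜 := ℂ) ?_ ?_ hSconv (hSmem z₂ hz₂)
        (hSmem z₁ hz₁)
      · intro z hz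
        exact hd.differentiableAt (isOpen_HP.mem_nhds (lt_of_lt_of_le hδ hz.2.1))
      · intro z hz
        have h1 := hb z.re hz.1 z.im (lt_of_lt_of_le hδ hz.2.1) hz.2.2
        rw [Complex.re_add_im] at h1
        refine h1.trans ?_
        gcongr ?_ * ?_
        exact Real.rpow_le_rpow_of_nonpos hδ hz.2.1 (by linarith)
    have hdist : ‖(z₁ + δ * I) - (z₂ + δ * I)‖ ≤ 2 * δ := by
      have h1 : (z₁ + δ * I) - (z₂ + δ * I) = (z₁ - t) - (z₂ - t) := by ring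
      rw [h1]
      have h2 := hz₁.1
      have h3 := hz₂.1
      rw [mem_ball, dist_eq_norm] at h2 h3
      calc ‖(z₁ - t) - (z₂ - t)‖ ≤ ‖z₁ - t‖ + ‖z₂ - t‖ := norm_sub_le _ _
        _ ≤ 2 * δ := by linarith
    have hpow : δ ^ (-κ) * δ = δ ^ (1 - κ) := by
      rw [← Real.rpow_add_one hδ.ne']; congr 1; ring
    have hCδ : 0 ≤ C * δ ^ (-κ) := mul_nonneg hC (Real.rpow_nonneg hδ.le _)
    calc ‖ψ z₁ - ψ z₂‖ = ‖(ψ (z₁ + δ * I) - ψ (z₂ + δ * I)) - (ψ (z₁ + δ * I) - ψ z₁) +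
          (ψ (z₂ + δ * I) - ψ z₂)‖ := by congr 1; ring
      _ ≤ ‖ψ (z₁ + δ * I) - ψ (z₂ + δ * I)‖ + ‖ψ (z₁ + δ * I) - ψ z₁‖ +
          ‖ψ (z₂ + δ * I) - ψ z₂‖ := by
        refine (norm_add_le _ _).trans ?_
        gcongr
        exact norm_sub_le _ _
      _ ≤ C * δ ^ (-κ) * (2 * δ) + C * δ ^ (1 - κ) / (1 - κ) + C * δ ^ (1 - κ) / (1 - κ) := by
        gcongr
        · exact hhor.trans (by gcongr)
        · exact hup z₁ hz₁
        · exact hup z₂ hz₂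
      _ = M * δ ^ (1 - κ) := by
        rw [hM, ← hpow]; ring
  -- choose δ
  have htend : Tendsto (fun δ : ℝ => M * δ ^ (1 - κ)) (𝓝[>] 0) (𝓝 0) := by
    have h1 : ContinuousAt (fun δ : ℝ => M * δ ^ (1 - κ)) 0 := by
      refine continuousAt_const.mul (Real.continuousAt_rpow_const _ _ (Or.inr (by linarith)))
    have h2 := h1.tendsto
    rw [Real.zero_rpow (by linarith), mul_zero] at h2
    exact h2.mono_left nhdsWithin_le_nhds
  have hev := (htend.eventually (gt_mem_nhds hε)).and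
    (Ioc_mem_nhdsGT (show (0 : ℝ) < 1 / 4 by norm_num))
  obtain ⟨δ, hδ1, hδ2⟩ := hev.exists
  refine ⟨ψ '' (ball (t : ℂ) δ ∩ HP), ?_, ?_⟩
  · refine image_mem_map ?_
    rw [inter_comm]
    exact inter_mem_nhdsWithin _ (ball_mem_nhds _ hδ2.1)
  · rintro _ ⟨z₁, hz₁, rfl⟩ _ ⟨z₂, hz₂, rfl⟩
    rw [dist_eq_norm]
    exact lt_of_le_of_lt (hest δ hδ2.1 hδ2.2 z₁ hz₁ z₂ hz₂) hδ1

end Pool.Agent.Lib.MP_354547_an
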