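import Mathlib
import Pool.Agent.Lib.MP_354547_an.Extension

set_option autoImplicit false

open Complex Metric Set Filter Topology ComplexConjugate

namespace Pool.Agent.Lib.MP_354547_an

/-- The closed upper half plane. -/
def CHP : Set ℂ := {z | 0 ≤ z.im}

lemma HP_subset_CHP : HP ⊆ CHP := by
  intro z hz
  have hz' : 0 < z.im := hz
  exact hz'.le

lemma ofReal_mem_closure_HP (t : ℝ) : (t : ℂ) ∈ closure HP := by
  rw [mem_closure_iff_nhds_basis Metric.nhds_basis_ball]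
  intro ε hε
  refine ⟨t + ((ε / 2 : ℝ) : ℂ) * I, ?_, ?_⟩
  · simp [HP, hε]
  · rw [mem_ball, dist_eq_norm, add_sub_cancel_left, norm_mul, Complex.norm_I, mul_one,
      Complex.norm_real, Real.norm_of_nonneg (by positivity)]
    linarith

lemma CHP_subset_closure_HP : CHP ⊆ closure HP := by
  intro z hz
  rcases (show (0 : ℝ) ≤ z.im from hz).lt_or_eq with h | h
  · exact subset_closure h
  · have : z = ((z.re : ℝ) : ℂ) := by
      apply Complex.ext <;> simp [← h]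
    rw [this]
    exact ofReal_mem_closure_HP _

theorem exists_param {f : ℝ → ℝ} {L : ℝ} (hf : ∀ x y, |f x - f y| ≤ L * |x - y|) (hL : 0 ≤ L)
    (hf0 : f 0 = 0) :
    ∃ (Ψ : ℂ → ℂ) (κ c : ℝ), 0 < κ ∧ κ < 1 ∧ 0 < c ∧ DifferentiableOn ℂ Ψ HP ∧
      ContinuousOn Ψ CHP ∧ MapsTo Ψ HP (Epi f) ∧ Ψ 0 = 0 ∧
      (∀ t : ℝ, (Ψ t).im = f (Ψ t).re) ∧
      (∀ z ∈ HP, 0 < (deriv Ψ z).re ∧ |(deriv Ψ z).im| ≤ L * (deriv Ψ z).re) ∧
      (∀ y : ℝ, 0 < y → y ≤ 1 → c * y ^ κ ≤ ‖deriv Ψ (y * I)‖) := by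
  classical
  obtain ⟨w, hwd, hwi, hw, hcone⟩ := exists_cone_map hf hL
  have hopen := isOpen_Epi hf
  have hfc := continuous_of_lip hf
  set ψ : ℂ → ℂ := Function.invFunOn w (Epi f) with hψdef
  have hψ : LeftInvOn ψ w (Epi f) := hwi.leftInvOn_invFunOn
  have hwm : MapsTo w (Epi f) HP := by
    intro z hz
    rw [← hw]
    exact mem_image_of_mem _ hz
  have hψm : MapsTo ψ HP (Epi f) := by
    intro s hs
    rw [← hw] at hs
    obtain ⟨z, hz, rfl⟩ := hs
    rw [hψ hz]; exact hz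
  have hwψ : ∀ s ∈ HP, w (ψ s) = s := by
    intro s hs
    rw [← hw] at hs
    obtain ⟨z, hz, rfl⟩ := hs
    rw [hψ hz]
  have hw'ne : ∀ z ∈ Epi f, deriv w z ≠ 0 := fun z hz =>
    (deriv_ne_and_hasDerivAt_leftInv hopen hwd hwi hψ hz).1
  have hψder : ∀ s ∈ HP, HasDerivAt ψ (deriv w (ψ s))⁻¹ s := by
    intro s hs
    have := (deriv_ne_and_hasDerivAt_leftInv hopen hwd hwi hψ (hψm hs)).2
    rwa [hwψ s hs] at this
  have hψd : DifferentiableOn ℂ ψ HP := fun s hs =>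
    (hψder s hs).differentiableAt.differentiableWithinAt
  have hwsec : ∀ z ∈ Epi f, |(deriv w z).im| ≤ L * (deriv w z).re := fun z hz =>
    sector_of_cone hf hwd hcone hz
  have hwre : ∀ z ∈ Epi f, 0 < (deriv w z).re := by
    intro z hz
    have h1 := hwsec z hz
    have h2 := hw'ne z hz
    by_contra h3
    push Not at h3
    have h4 : (deriv w z).im = 0 := by
      have : |(deriv w z).im| ≤ 0 := h1.trans (mul_nonpos_of_nonneg_of_nonpos hL h3)
      exact abs_nonpos_iff.1 this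
    -- use a strictly better cone
    have hre0 : (deriv w z).re ≠ 0 := by
      intro h5
      exact h2 (Complex.ext h5 h4)
    have h6 : 0 ≤ (deriv w z * I).im := by
      refine im_mul_nonneg_of_mono (hwd.differentiableAt (hopen.mem_nhds hz)) fun t ht =>
        hcone z hz _ ?_
      simp [ht.le]
    simp at h6
    exact hre0 (le_antisymm h3 h6)
  have hψsec : ∀ s ∈ HP, 0 < (deriv ψ s).re ∧ |(deriv ψ s).im| ≤ L * (deriv ψ s).re := by
    intro s hs
    rw [(hψder s hs).deriv]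
    have h1 := hwre _ (hψm hs)
    have h2 := hwsec _ (hψm hs)
    have h3 : 0 < normSq (deriv w (ψ s)) := normSq_pos.2 (hw'ne _ (hψm hs))
    rw [Complex.inv_re, Complex.inv_im]
    refine ⟨by positivity, ?_⟩
    rw [abs_div, abs_neg, abs_of_pos h3, mul_div_assoc']
    gcongr
  obtain ⟨κ, hκ0, hκ1, hκ⟩ := exists_kappa L
  have hPd : DifferentiableOn ℂ (deriv ψ) HP := hψd.deriv isOpen_HP
  have hharn : ∀ x y : ℝ, 0 < y → y ≤ 1 →
      ‖deriv ψ (x + y * I)‖ ≤ ‖deriv ψ (x + I)‖ * y ^ (-κ) ∧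
      ‖deriv ψ (x + I)‖ * y ^ κ ≤ ‖deriv ψ (x + y * I)‖ := fun x y hy0 hy1 =>
    harnack_vertical hκ0 hκ hPd (fun z hz => (hψsec z hz).1) (fun z hz => (hψsec z hz).2) x hy0 hy1
  -- limits at real points
  have hlim : ∀ t : ℝ, ∃ a : ℂ, Tendsto ψ (𝓝[HP] (t : ℂ)) (𝓝 a) := by
    intro t
    have hcont : ContinuousOn (fun x : ℝ => deriv ψ (x + I)) (Icc (t - 1) (t + 1)) := by
      refine hPd.continuousOn.comp (by fun_prop) ?_
      intro x hx
      simp [HP]
    obtain ⟨C, hC⟩ := isCompact_Icc.exists_bound_of_continuousOn hcont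
    have hC0 : 0 ≤ C := (norm_nonneg _).trans (hC t ⟨by linarith, by linarith⟩)
    refine exists_limit hκ0 hκ1 hC0 hψd ?_
    intro x hx s hs0 hs1
    have hx' := abs_le.1 hx
    refine (hharn x s hs0 hs1).1.trans ?_
    gcongr
    exact hC x ⟨by linarith, by linarith⟩
  set Ψ₀ : ℂ → ℂ := extendFrom HP ψ with hΨ₀
  have hΨeq : ∀ z ∈ HP, Ψ₀ z = ψ z := fun z hz => extendFrom_extends hψd.continuousOn z hz
  have hΨc : ContinuousOn Ψ₀ CHP := by
    refine continuousOn_extendFrom CHP_subset_closure_HP ?_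
    intro z hz
    rcases (show (0 : ℝ) ≤ z.im from hz).lt_or_eq with h | h
    · exact ⟨ψ z, hψd.continuousOn z h⟩
    · have : z = ((z.re : ℝ) : ℂ) := by
        apply Complex.ext <;> simp [← h]
      rw [this]
      exact hlim _
  have hΨlim : ∀ t : ℝ, Tendsto ψ (𝓝[HP] (t : ℂ)) (𝓝 (Ψ₀ t)) := by
    intro t
    obtain ⟨a, ha⟩ := hlim t
    have : Ψ₀ t = a := extendFrom_eq (ofReal_mem_closure_HP t) ha
    rwa [this]
  have hnb : ∀ t : ℝ, (𝓝[HP] (t : ℂ)).NeBot := fun t =>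
    mem_closure_iff_nhdsWithin_neBot.1 (ofReal_mem_closure_HP t)
  have hΨbd : ∀ t : ℝ, (Ψ₀ t).im = f (Ψ₀ t).re := by
    intro t
    have := hnb t
    refine le_antisymm ?_ ?_
    · by_contra hlt
      push Not at hlt
      have hmem : Ψ₀ t ∈ Epi f := hlt
      have h1 : ContinuousAt w (Ψ₀ t) :=
        (hwd.differentiableAt (hopen.mem_nhds hmem)).continuousAt
      have h2 : Tendsto (fun s => w (ψ s)) (𝓝[HP] (t : ℂ)) (𝓝 (w (Ψ₀ t))) :=
        h1.tendsto.comp (hΨlim t)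
      have h3 : Tendsto (fun s => w (ψ s)) (𝓝[HP] (t : ℂ)) (𝓝 (t : ℂ)) := by
        have h4 : Tendsto (fun s : ℂ => s) (𝓝[HP] (t : ℂ)) (𝓝 (t : ℂ)) :=
          tendsto_id.mono_left nhdsWithin_le_nhds
        refine h4.congr' ?_
        filter_upwards [self_mem_nhdsWithin] with s hs
        exact (hwψ s hs).symm
      have h5 := tendsto_nhds_unique h2 h3
      have h6 := hwm hmem
      rw [h5] at h6
      simp [HP] at h6
    · have h1 : Tendsto (fun s => f (ψ s).re) (𝓝[HP] (t : ℂ)) (𝓝 (f (Ψ₀ t).re)) :=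
        (hfc.tendsto _).comp ((Complex.continuous_re.tendsto _).comp (hΨlim t))
      have h2 : Tendsto (fun s => (ψ s).im) (𝓝[HP] (t : ℂ)) (𝓝 (Ψ₀ t).im) :=
        (Complex.continuous_im.tendsto _).comp (hΨlim t)
      refine le_of_tendsto_of_tendsto h1 h2 ?_
      filter_upwards [self_mem_nhdsWithin] with s hs
      exact le_of_lt (hψm hs)
  -- the point over the origin
  have hIs : ∀ s : ℝ, 0 < s → (s * I : ℂ) ∈ Epi f := by
    intro s hs
    simp [Epi, hf0, hs]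
  have hWder : ∀ s : ℝ, 0 < s → HasDerivAt (fun s : ℝ => w (s * I)) (deriv w (s * I) * I) s := by
    intro s hs
    have h1 : HasDerivAt w (deriv w (s * I)) (s * I) :=
      (hwd.differentiableAt (hopen.mem_nhds (hIs s hs))).hasDerivAt
    have h2 : HasDerivAt (fun v : ℂ => v * I) I (s : ℂ) := by
      simpa using (hasDerivAt_id (s : ℂ)).mul_const I
    exact (h1.comp (s : ℂ) h2).comp_ofReal
  have hImder : ∀ s : ℝ, 0 < s → HasDerivAt (fun s : ℝ => (w (s * I)).im)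
      (deriv w (s * I)).re s := by
    intro s hs
    have h1 : HasDerivAt (fun s : ℝ => (w (s * I)).im) (deriv w (s * I) * I).im s :=
      Complex.imCLM.hasFDerivAt.comp_hasDerivAt s (hWder s hs)
    simpa using h1
  have hReder : ∀ s : ℝ, 0 < s → HasDerivAt (fun s : ℝ => (w (s * I)).re)
      (-(deriv w (s * I)).im) s := by
    intro s hs
    have h1 : HasDerivAt (fun s : ℝ => (w (s * I)).re) (deriv w (s * I) * I).re s :=
      Complex.reCLM.hasFDerivAt.comp_hasDerivAt s (hWder s hs)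
    simpa using h1
  have hmono : ∀ (g g' : ℝ → ℝ), (∀ s : ℝ, 0 < s → HasDerivAt g (g' s) s) →
      (∀ s : ℝ, 0 < s → 0 ≤ g' s) → MonotoneOn g (Ioi 0) := by
    intro g g' h1 h2
    refine monotoneOn_of_deriv_nonneg (convex_Ioi 0) ?_ ?_ ?_
    · intro y hy; exact (h1 y hy).continuousAt.continuousWithinAt
    · intro y hy
      rw [interior_Ioi] at hy
      exact (h1 y hy).differentiableAt.differentiableWithinAt
    · intro y hy
      rw [interior_Ioi] at hy
      rw [(h1 y hy).deriv]; exact h2 y hy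
  have hm1 : MonotoneOn (fun s : ℝ => (w (s * I)).im) (Ioi 0) :=
    hmono _ _ hImder fun s hs => (hwre _ (hIs s hs)).le
  have hm2 : MonotoneOn (fun s : ℝ => L * (w (s * I)).im + (w (s * I)).re) (Ioi 0) := by
    refine hmono _ _ (fun s hs => ((hImder s hs).const_mul L).add (hReder s hs)) fun s hs => ?_
    have := (abs_le.1 (hwsec _ (hIs s hs))).2
    linarith
  have hm3 : MonotoneOn (fun s : ℝ => L * (w (s * I)).im - (w (s * I)).re) (Ioi 0) := by
    refine hmono _ _ (fun s hs => ((hImder s hs).const_mul L).sub (hReder s hs)) fun s hs => ?_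
    have := (abs_le.1 (hwsec _ (hIs s hs))).1
    linarith
  have hIoo : Ioo (0 : ℝ) 1 ⊆ Ioi 0 := fun x hx => hx.1
  have hne : (Ioo (0 : ℝ) 1).Nonempty := ⟨1 / 2, by norm_num⟩
  have hImpos : ∀ s : ℝ, 0 < s → 0 < (w (s * I)).im := fun s hs => hwm (hIs s hs)
  have hl1 := MonotoneOn.tendsto_nhdsWithin_Ioo_right hne (hm1.mono hIoo)
    ⟨0, by rintro _ ⟨s, hs, rfl⟩; exact (hImpos s hs.1).le⟩
  have hl2 := MonotoneOn.tendsto_nhdsWithin_Ioo_right hne (hm2.mono hIoo)
    ⟨-(L * (w ((1 : ℝ) * I)).im - (w ((1 : ℝ) * I)).re), by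
      rintro _ ⟨s, hs, rfl⟩
      have h1 := hm3 (mem_Ioi.2 hs.1) (mem_Ioi.2 one_pos) hs.2.le
      have h2 : 0 ≤ L * (w (s * I)).im := mul_nonneg hL (hImpos s hs.1).le
      simp only at h1 ⊢
      linarith⟩
  set a₁ := sInf ((fun s : ℝ => (w (s * I)).im) '' Ioo 0 1) with ha₁
  set a₂ := sInf ((fun s : ℝ => L * (w (s * I)).im + (w (s * I)).re) '' Ioo 0 1) with ha₂
  have hlre : Tendsto (fun s : ℝ => (w (s * I)).re) (𝓝[>] 0) (𝓝 (a₂ - L * a₁)) := by
    have h1 := hl2.sub (hl1.const_mul L)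
    refine h1.congr fun s => ?_
    ring
  set W₀ : ℂ := ⟨a₂ - L * a₁, a₁⟩ with hW₀
  have hlW : Tendsto (fun s : ℝ => w (s * I)) (𝓝[>] 0) (𝓝 W₀) := by
    have h1 : Tendsto (fun s : ℝ => (((w (s * I)).re : ℂ) + ((w (s * I)).im : ℂ) * I)) (𝓝[>] 0)
        (𝓝 (((a₂ - L * a₁ : ℝ) : ℂ) + (a₁ : ℂ) * I)) :=
      ((Complex.continuous_ofReal.tendsto _).comp hlre).add
        (((Complex.continuous_ofReal.tendsto _).comp hl1).mul_const I)
    have h2 : W₀ = ((a₂ - L * a₁ : ℝ) : ℂ) + (a₁ : ℂ) * I := by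
      apply Complex.ext <;> simp [hW₀]
    rw [h2]
    refine h1.congr fun s => ?_
    exact Complex.re_add_im _
  have hsI : Tendsto (fun s : ℝ => (s * I : ℂ)) (𝓝[>] 0) (𝓝 0) := by
    have : Continuous (fun s : ℝ => (s * I : ℂ)) := by fun_prop
    have h1 := this.tendsto 0
    simp only [ofReal_zero, zero_mul] at h1
    exact h1.mono_left nhdsWithin_le_nhds
  have ha₁0 : 0 ≤ a₁ := by
    refine ge_of_tendsto hl1 ?_
    filter_upwards [self_mem_nhdsWithin] with s hs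
    exact (hImpos s hs).le
  have ha₁' : a₁ = 0 := by
    rcases ha₁0.lt_or_eq with h | h
    · exfalso
      have hW₀m : W₀ ∈ HP := h
      have h1 : ContinuousAt ψ W₀ := (hψd.differentiableAt (isOpen_HP.mem_nhds hW₀m)).continuousAt
      have h2 : Tendsto (fun s : ℝ => ψ (w (s * I))) (𝓝[>] 0) (𝓝 (ψ W₀)) := h1.tendsto.comp hlW
      have h3 : Tendsto (fun s : ℝ => ψ (w (s * I))) (𝓝[>] 0) (𝓝 0) := by
        refine hsI.congr' ?_
        filter_upwards [self_mem_nhdsWithin] with s hs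
        exact (hψ (hIs s hs)).symm
      have h4 := tendsto_nhds_unique h2 h3
      have h5 := hψm hW₀m
      rw [h4] at h5
      simp [Epi, hf0] at h5
    · exact h.symm
  set t₀ : ℝ := a₂ - L * a₁ with ht₀
  have hW₀t : W₀ = (t₀ : ℂ) := by
    apply Complex.ext <;> simp [hW₀, ha₁']
  have hΨt₀ : Ψ₀ t₀ = 0 := by
    have h1 : Tendsto (fun s : ℝ => w (s * I)) (𝓝[>] 0) (𝓝[HP] (t₀ : ℂ)) := by
      refine tendsto_nhdsWithin_iff.2 ⟨by rw [← hW₀t]; exact hlW, ?_⟩
      filter_upwards [self_mem_nhdsWithin] with s hs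
      exact hwm (hIs s hs)
    have h2 : Tendsto (fun s : ℝ => ψ (w (s * I))) (𝓝[>] 0) (𝓝 (Ψ₀ t₀)) := (hΨlim t₀).comp h1
    have h3 : Tendsto (fun s : ℝ => ψ (w (s * I))) (𝓝[>] 0) (𝓝 0) := by
      refine hsI.congr' ?_
      filter_upwards [self_mem_nhdsWithin] with s hs
      exact (hψ (hIs s hs)).symm
    exact tendsto_nhds_unique h2 h3
  have hshift : ∀ z ∈ HP, z + t₀ ∈ HP := by
    intro z hz
    have hz' : 0 < z.im := hz
    simpa [HP] using hz'
  have hΨ₀d : ∀ z ∈ HP, HasDerivAt Ψ₀ (deriv ψ z) z := by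
    intro z hz
    refine ((hψd.differentiableAt (isOpen_HP.mem_nhds hz)).hasDerivAt).congr_of_eventuallyEq ?_
    filter_upwards [isOpen_HP.mem_nhds hz] with s hs
    exact hΨeq s hs
  have hΨder : ∀ z ∈ HP, HasDerivAt (fun z => Ψ₀ (z + t₀)) (deriv ψ (z + t₀)) z := by
    intro z hz
    exact (hΨ₀d (z + t₀) (hshift z hz)).comp_add_const z t₀
  refine ⟨fun z => Ψ₀ (z + t₀), κ, ‖deriv ψ (t₀ + I)‖, hκ0, hκ1, ?_, ?_, ?_, ?_, ?_, ?_, ?_, ?_⟩
  · rw [norm_pos_iff]
    intro h0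
    have := (hψsec (t₀ + I) (by simp [HP])).1
    rw [h0] at this
    simp at this
  · intro z hz
    exact (hΨder z hz).differentiableAt.differentiableWithinAt
  · refine hΨc.comp (by fun_prop) ?_
    intro z hz
    have hz' : 0 ≤ z.im := hz
    simpa [CHP] using hz'
  · intro z hz
    show Ψ₀ (z + t₀) ∈ Epi f
    rw [hΨeq _ (hshift z hz)]
    exact hψm (hshift z hz)
  · simp [hΨt₀]
  · intro t
    have := hΨbd (t + t₀)
    push_cast at this
    exact this
  · intro z hz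
    rw [(hΨder z hz).deriv]
    exact hψsec _ (hshift z hz)
  · intro y hy0 hy1
    have hyI : (y * I : ℂ) ∈ HP := by simpa [HP] using hy0
    rw [(hΨder _ hyI).deriv]
    have := (hharn t₀ y hy0 hy1).2
    rw [add_comm (y * I : ℂ) (t₀ : ℂ)]
    exact this

end Pool.Agent.Lib.MP_354547_an
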