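import Mathlib
import Pool.Agent.Lib.MP_354547_an.Param

set_option autoImplicit false

open Complex Metric Set Filter Topology ComplexConjugate MeasureTheory
open scoped Interval

namespace Pool.Agent.Lib.MP_354547_an

/-- A continuous function on a disc centred at `0` which is holomorphic off the real axis is
holomorphic. -/
lemma differentiableOn_of_off_real {F : ℂ → ℂ} {r : ℝ} (hc : ContinuousOn F (ball 0 r))
    (hd : ∀ z ∈ ball (0 : ℂ) r, z.im ≠ 0 → DifferentiableAt ℂ F z) :
    DifferentiableOn ℂ F (ball 0 r) := by
  refine (Complex.isConservativeOn_and_continuousOn_iff_isDifferentiableOn isOpen_ball).1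
    ⟨?_, hc⟩
  intro z w hzw
  rw [← add_eq_zero_iff_eq_neg, wedgeIntegral_add_wedgeIntegral_eq]
  have hcR : ContinuousOn F ([[z.re, w.re]] ×ℂ [[z.im, w.im]]) := hc.mono hzw
  by_cases h0 : (0 : ℝ) ∈ [[z.im, w.im]]
  · -- split along the real axis
    have hsub1 : [[z.im, (0 : ℝ)]] ⊆ [[z.im, w.im]] := uIcc_subset_uIcc left_mem_uIcc h0
    have hsub2 : [[(0 : ℝ), w.im]] ⊆ [[z.im, w.im]] := uIcc_subset_uIcc h0 right_mem_uIcc
    have hJ1 := Complex.integral_boundary_rect_eq_zero_of_continuousOn_of_differentiableOn F
      ⟨z.re, z.im⟩ ⟨w.re, 0⟩ (hcR.mono (reProdIm_subset_iff.2 (prod_mono (subset_refl _) hsub1))) ?_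
    · have hJ2 := Complex.integral_boundary_rect_eq_zero_of_continuousOn_of_differentiableOn F
        ⟨z.re, 0⟩ ⟨w.re, w.im⟩
        (hcR.mono (reProdIm_subset_iff.2 (prod_mono (subset_refl _) hsub2))) ?_
      · simp only at hJ1 hJ2
        have hint : ∀ a ∈ [[z.re, w.re]], ∀ b c : ℝ, [[b, c]] ⊆ [[z.im, w.im]] →
            IntervalIntegrable (fun y : ℝ => F (a + y * I)) volume b c := by
          intro a ha b c hbc
          refine ContinuousOn.intervalIntegrable ?_
          refine hcR.comp (by fun_prop) ?_
          intro y hy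
          simp only [mem_reProdIm]
          simp
          exact ⟨ha, hbc hy⟩
        have e1 := intervalIntegral.integral_add_adjacent_intervals
          (hint w.re right_mem_uIcc _ _ hsub1) (hint w.re right_mem_uIcc _ _ hsub2)
        have e2 := intervalIntegral.integral_add_adjacent_intervals
          (hint z.re left_mem_uIcc _ _ hsub1) (hint z.re left_mem_uIcc _ _ hsub2)
        rw [← e1, ← e2]
        simp only [smul_add]
        linear_combination hJ1 + hJ2
      · intro v hv
        refine (hd v ?_ ?_).differentiableWithinAt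
        · refine hzw ⟨?_, ?_⟩
          · exact Ioo_subset_Icc_self hv.1
          · exact hsub2 (Ioo_subset_Icc_self hv.2)
        · intro him
          have h1 := hv.2
          simp only [mem_preimage, him, mem_Ioo] at h1
          rcases le_total 0 w.im with h | h
          · rw [min_eq_left h] at h1; exact lt_irrefl _ h1.1
          · rw [max_eq_left h] at h1; exact lt_irrefl _ h1.2
    · intro v hv
      refine (hd v ?_ ?_).differentiableWithinAt
      · refine hzw ⟨?_, ?_⟩
        · exact Ioo_subset_Icc_self hv.1
        · exact hsub1 (Ioo_subset_Icc_self hv.2)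
      · intro him
        have h1 := hv.2
        simp only [mem_preimage, him, mem_Ioo] at h1
        rcases le_total z.im 0 with h | h
        · rw [max_eq_right h] at h1; exact lt_irrefl _ h1.2
        · rw [min_eq_right h] at h1; exact lt_irrefl _ h1.1
  · refine Complex.integral_boundary_rect_eq_zero_of_continuousOn_of_differentiableOn F z w hcR ?_
    intro v hv
    refine (hd v ?_ ?_).differentiableWithinAt
    · exact hzw ⟨Ioo_subset_Icc_self hv.1, Ioo_subset_Icc_self hv.2⟩
    · intro him
      apply h0
      rw [← him]
      exact Ioo_subset_Icc_self hv.2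

/-- **Schwarz reflection**. -/
lemma schwarz_reflection {E : ℂ → ℂ} {r : ℝ} (hc : ContinuousOn E (CHP ∩ ball 0 r))
    (hd : DifferentiableOn ℂ E (HP ∩ ball 0 r)) (hreal : ∀ t : ℝ, |t| < r → (E t).im = 0) :
    ∃ F : ℂ → ℂ, DifferentiableOn ℂ F (ball 0 r) ∧ EqOn F E (CHP ∩ ball 0 r) := by
  classical
  set F : ℂ → ℂ := fun z => if 0 ≤ z.im then E z else conj (E (conj z)) with hF
  have hconjball : ∀ z ∈ ball (0 : ℂ) r, conj z ∈ ball (0 : ℂ) r := by
    intro z hz
    rw [mem_ball_zero_iff] at hz ⊢
    rwa [Complex.norm_conj]
  refine ⟨F, ?_, ?_⟩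
  · refine differentiableOn_of_off_real ?_ ?_
    · -- continuity
      refine ContinuousOn.if ?_ ?_ ?_
      · rintro z ⟨hz, hzf⟩
        have hz0 : z.im = 0 := by
          have h1 : frontier {a : ℂ | 0 ≤ a.im} = {a : ℂ | a.im = 0} := by
            have := Complex.frontier_setOfPred_le_im 0
            simpa using this
          rw [h1] at hzf
          exact hzf
        have h2 : z = ((z.re : ℝ) : ℂ) := by
          apply Complex.ext <;> simp [hz0]
        have h3 : |z.re| < r := by
          rw [mem_ball_zero_iff] at hz
          exact lt_of_le_of_lt (abs_re_le_norm z) hz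
        have h4 := hreal z.re h3
        rw [h2, Complex.conj_ofReal]
        exact (Complex.conj_eq_iff_im.2 h4).symm
      · refine hc.mono ?_
        rintro z ⟨hz1, hz2⟩
        have h1 : closure {a : ℂ | 0 ≤ a.im} = {a : ℂ | 0 ≤ a.im} :=
          (isClosed_le continuous_const continuous_im).closure_eq
        rw [h1] at hz2
        exact ⟨hz2, hz1⟩
      · refine Complex.continuous_conj.comp_continuousOn ?_
        refine hc.comp Complex.continuous_conj.continuousOn ?_
        rintro z ⟨hz1, hz2⟩
        have h1 : closure {a : ℂ | ¬ (0 ≤ a.im)} ⊆ {a : ℂ | a.im ≤ 0} := by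
          refine closure_minimal ?_ (isClosed_le continuous_im continuous_const)
          intro a ha
          have ha' : ¬ (0 ≤ a.im) := ha
          exact (not_le.1 ha').le
        have h2 : z.im ≤ 0 := h1 hz2
        refine ⟨?_, hconjball z hz1⟩
        show 0 ≤ (conj z).im
        rw [Complex.conj_im]
        linarith
    · intro z hz him
      rcases lt_or_gt_of_ne him with h | h
      · have h1 : conj z ∈ HP ∩ ball 0 r := by
          refine ⟨?_, hconjball z hz⟩
          show 0 < (conj z).im
          rw [Complex.conj_im]
          linarith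
        have h2 : DifferentiableAt ℂ E (conj z) :=
          hd.differentiableAt ((isOpen_HP.inter isOpen_ball).mem_nhds h1)
        have h3 := h2.conj_conj
        rw [Complex.conj_conj] at h3
        refine h3.congr_of_eventuallyEq ?_
        filter_upwards [(isOpen_lt continuous_im continuous_const).mem_nhds h] with v hv
        have hv' : ¬ (0 ≤ v.im) := not_le.2 hv
        simp [hF, hv']
      · have h1 : z ∈ HP ∩ ball 0 r := ⟨h, hz⟩
        have h2 : DifferentiableAt ℂ E z :=
          hd.differentiableAt ((isOpen_HP.inter isOpen_ball).mem_nhds h1)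
        refine h2.congr_of_eventuallyEq ?_
        filter_upwards [isOpen_HP.mem_nhds h] with v hv
        have hv' : 0 ≤ v.im := le_of_lt (show 0 < v.im from hv)
        simp [hF, hv']
  · rintro z ⟨hz, -⟩
    have hz' : 0 ≤ z.im := hz
    simp [hF, hz']

end Pool.Agent.Lib.MP_354547_an
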