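import Mathlib
import Pool.Agent.Lib.MP_354547_an.Reflect

set_option autoImplicit false

open Complex Metric Set Filter Topology ComplexConjugate

namespace Pool.Agent.Lib.MP_354547_an

lemma tendsto_mul_clog_zero : Tendsto (fun z : ℂ => z * Complex.log z) (𝓝 0) (𝓝 0) := by
  rw [tendsto_zero_iff_norm_tendsto_zero]
  have h1 : Tendsto (fun z : ℂ => |‖z‖ * Real.log ‖z‖| + ‖z‖ * Real.pi) (𝓝 0) (𝓝 0) := by
    have hc : Continuous (fun z : ℂ => |‖z‖ * Real.log ‖z‖| + ‖z‖ * Real.pi) := by
      refine Continuous.add ?_ (continuous_norm.mul continuous_const)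
      exact (Real.continuous_mul_log.comp continuous_norm).abs
    have := hc.tendsto 0
    simpa using this
  refine squeeze_zero (fun z => norm_nonneg _) (fun z => ?_) h1
  rw [norm_mul, abs_mul, abs_norm, ← mul_add]
  gcongr
  have h2 := Complex.norm_le_abs_re_add_abs_im (Complex.log z)
  rw [Complex.log_re, Complex.log_im] at h2
  exact h2.trans (add_le_add_right (Complex.abs_arg_le_pi z) _)

/-- If `B` is holomorphic near `0` with `B 0 = 0`, then `B z * log z → 0`. -/
lemma tendsto_holo_mul_clog {B : ℂ → ℂ} (hB : DifferentiableAt ℂ B 0) (hB0 : B 0 = 0) :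
    Tendsto (fun z : ℂ => B z * Complex.log z) (𝓝 0) (𝓝 0) := by
  have h1 : B =O[𝓝 0] (fun z : ℂ => z) := by
    have := hB.hasDerivAt.hasFDerivAt.isBigO_sub
    simpa [hB0] using this
  have h2 : (fun z : ℂ => B z * Complex.log z) =O[𝓝 0] (fun z : ℂ => z * Complex.log z) :=
    h1.mul (Asymptotics.isBigO_refl _ _)
  exact h2.trans_tendsto tendsto_mul_clog_zero

lemma continuousOn_clog_CHP {z : ℂ} (hz : z ∈ CHP) (hz0 : z ≠ 0) :
    ContinuousWithinAt Complex.log CHP z := by
  have hzim : 0 ≤ z.im := hz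
  by_cases h : z ∈ slitPlane
  · exact (continuousAt_clog h).continuousWithinAt
  · rw [Complex.mem_slitPlane_iff] at h
    push Not at h
    obtain ⟨h1, h2⟩ := h
    refine Complex.continuousWithinAt_log_of_re_neg_of_im_zero (lt_of_le_of_ne h1 ?_) h2
    intro h3
    exact hz0 (Complex.ext h3 h2)

lemma continuousOn_holo_mul_clog {B : ℂ → ℂ} {r : ℝ}
    (hB : DifferentiableOn ℂ B (ball 0 r)) (hB0 : B 0 = 0) :
    ContinuousOn (fun z : ℂ => B z * Complex.log z) (CHP ∩ ball 0 r) := by
  rintro z ⟨hz1, hz2⟩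
  rcases eq_or_ne z 0 with rfl | hz0
  · have h1 : ContinuousAt (fun z : ℂ => B z * Complex.log z) 0 := by
      have := tendsto_holo_mul_clog (hB.differentiableAt (isOpen_ball.mem_nhds hz2)) hB0
      unfold ContinuousAt
      simpa [hB0] using this
    exact h1.continuousWithinAt
  · refine ContinuousWithinAt.mul ?_ ?_
    · exact (hB.differentiableAt (isOpen_ball.mem_nhds hz2)).continuousAt.continuousWithinAt
    · exact (continuousOn_clog_CHP hz1 hz0).mono inter_subset_left

lemma ofReal_mem_CHP (t : ℝ) : (t : ℂ) ∈ CHP := by simp [CHP]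

lemma HP_subset_slitPlane : HP ⊆ slitPlane := by
  intro z hz
  rw [Complex.mem_slitPlane_iff]
  right
  exact ne_of_gt (show 0 < z.im from hz)

/-- Final step: reflect after subtracting an explicit function. -/
lemma finish_structure {ψ : ℂ → ℂ} {α : ℂ} {c r : ℝ} (hr : 0 < r) (hα : α ≠ 0)
    (hψc : ContinuousOn ψ (CHP ∩ ball 0 r)) (hψd : DifferentiableOn ℂ ψ (HP ∩ ball 0 r))
    {A₀ B₀ : ℂ → ℂ} (hA₀ : DifferentiableOn ℂ A₀ (ball 0 r))
    (hB₀ : DifferentiableOn ℂ B₀ (ball 0 r)) (hB₀0 : B₀ 0 = 0)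
    (hre : ∀ t : ℝ, |t| < r → (α * ψ t).re + c = (A₀ t + B₀ t * Complex.log t).re) :
    ∃ A B : ℂ → ℂ, DifferentiableOn ℂ A (ball 0 r) ∧ DifferentiableOn ℂ B (ball 0 r) ∧
      B 0 = 0 ∧ ∀ z ∈ CHP ∩ ball (0 : ℂ) r, ψ z = A z + B z * Complex.log z := by
  set E : ℂ → ℂ := fun z => I * (α * ψ z + c - (A₀ z + B₀ z * Complex.log z)) with hE
  have hEc : ContinuousOn E (CHP ∩ ball 0 r) := by
    refine continuousOn_const.mul (ContinuousOn.sub ?_ ?_)
    · exact (continuousOn_const.mul hψc).add continuousOn_const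
    · exact (hA₀.continuousOn.mono inter_subset_right).add
        (continuousOn_holo_mul_clog hB₀ hB₀0)
  have hEd : DifferentiableOn ℂ E (HP ∩ ball 0 r) := by
    refine DifferentiableOn.const_mul ?_ _
    refine DifferentiableOn.sub ?_ ?_
    · exact (hψd.const_mul α).add_const _
    · refine (hA₀.mono inter_subset_right).add ((hB₀.mono inter_subset_right).mul ?_)
      intro z hz
      exact (Complex.differentiableAt_log (HP_subset_slitPlane hz.1)).differentiableWithinAt
  have hEr : ∀ t : ℝ, |t| < r → (E t).im = 0 := by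
    intro t ht
    have := hre t ht
    simp only [hE]
    rw [Complex.I_mul_im, Complex.sub_re, Complex.add_re (α * ψ t), Complex.ofReal_re]
    linarith
  obtain ⟨F, hFd, hFE⟩ := schwarz_reflection hEc hEd hEr
  refine ⟨fun z => (A₀ z - c - I * F z) / α, fun z => B₀ z / α, ?_, ?_, ?_, ?_⟩
  · exact ((hA₀.sub_const _).sub (hFd.const_mul I)).div_const α
  · exact hB₀.div_const α
  · simp [hB₀0]
  · intro z hz
    have h1 := hFE hz
    simp only [hE] at h1
    simp only [h1]
    field_simp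
    linear_combination (α * ψ z + c - (A₀ z + B₀ z * Complex.log z)) * Complex.I_sq

lemma log_ofReal_neg {t : ℝ} (ht : t < 0) :
    Complex.log (t : ℂ) = (Real.log |t| : ℂ) + Real.pi * I := by
  apply Complex.ext
  · simp [Complex.log_re]
  · simp [Complex.log_im, Complex.arg_ofReal_of_neg ht]

theorem local_structure {ψ G : ℂ → ℂ} {α : ℂ} {c ρ : ℝ} (hρ : 0 < ρ) (hα : α ≠ 0)
    (hψc : ContinuousOn ψ (CHP ∩ ball 0 ρ)) (hψd : DifferentiableOn ℂ ψ (HP ∩ ball 0 ρ))
    (hGc : ContinuousOn G (CHP ∩ ball 0 ρ)) (hGd : DifferentiableOn ℂ G (HP ∩ ball 0 ρ))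
    (hG : ∀ t : ℝ, |t| < ρ → G t = ((((α * ψ t).re + c) ^ 2 : ℝ) : ℂ)) :
    ∃ r : ℝ, 0 < r ∧ r ≤ ρ ∧ ∃ A B : ℂ → ℂ, DifferentiableOn ℂ A (ball 0 r) ∧
      DifferentiableOn ℂ B (ball 0 r) ∧ B 0 = 0 ∧
      ∀ z ∈ CHP ∩ ball (0 : ℂ) r, ψ z = A z + B z * Complex.log z := by
  classical
  have hmem : ∀ t : ℝ, |t| < ρ → (t : ℂ) ∈ CHP ∩ ball (0 : ℂ) ρ := by
    intro t ht
    refine ⟨ofReal_mem_CHP t, ?_⟩
    rw [mem_ball_zero_iff, Complex.norm_real]
    exact ht
  obtain ⟨F, hFd, hFG⟩ := schwarz_reflection hGc hGd (fun t ht => by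
    rw [hG t ht, Complex.ofReal_im])
  have hFt : ∀ t : ℝ, |t| < ρ → F t = ((((α * ψ t).re + c) ^ 2 : ℝ) : ℂ) := by
    intro t ht
    rw [hFG (hmem t ht), hG t ht]
  have h0ρ : (0 : ℂ) ∈ ball (0 : ℂ) ρ := mem_ball_self hρ
  have hFan : AnalyticAt ℂ F 0 := hFd.analyticAt (isOpen_ball.mem_nhds h0ρ)
  -- the real function X
  set X : ℝ → ℝ := fun t => (α * ψ t).re + c with hX
  have hXc : ContinuousOn X (Ioo (-ρ) ρ) := by
    refine ContinuousOn.add ?_ continuousOn_const
    refine Complex.continuous_re.comp_continuousOn (continuousOn_const.mul ?_)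
    refine hψc.comp (by fun_prop) ?_
    intro t ht
    exact hmem t (abs_lt.2 ht)
  by_cases hzero : ∀ᶠ z in 𝓝 (0 : ℂ), F z = 0
  · obtain ⟨r₁, hr₁, hball⟩ := Metric.eventually_nhds_iff_ball.1 hzero
    set r := min r₁ ρ with hr
    have hrpos : 0 < r := lt_min hr₁ hρ
    refine ⟨r, hrpos, min_le_right _ _, ?_⟩
    have hsub : ball (0 : ℂ) r ⊆ ball 0 ρ := ball_subset_ball (min_le_right _ _)
    refine finish_structure hrpos hα (hψc.mono (inter_subset_inter_right _ hsub))
      (hψd.mono (inter_subset_inter_right _ hsub)) (c := c) (A₀ := fun _ => 0) (B₀ := fun _ => 0)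
      (differentiableOn_const _) (differentiableOn_const _) rfl ?_
    intro t ht
    have h1 : |t| < ρ := lt_of_lt_of_le ht (min_le_right _ _)
    have h2 : F t = 0 := by
      apply hball
      rw [mem_ball_zero_iff, Complex.norm_real]
      exact lt_of_lt_of_le ht (min_le_left _ _)
    rw [hFt t h1] at h2
    have h3 : (X t) ^ 2 = 0 := by exact_mod_cast h2
    have h4 : X t = 0 := by simpa using h3
    simpa [hX] using h4
  · obtain ⟨n, g, hg, hg0, hFg⟩ := hFan.exists_eventuallyEq_pow_smul_nonzero_iff.2 hzero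
    simp only [sub_zero, smul_eq_mul] at hFg
    -- real points
    have hreal : ∀ᶠ t : ℝ in 𝓝 0, ((X t ^ 2 : ℝ) : ℂ) = (t : ℂ) ^ n * g t := by
      have h1 : Tendsto (fun t : ℝ => (t : ℂ)) (𝓝 0) (𝓝 0) := by
        have := Complex.continuous_ofReal.tendsto 0
        simpa using this
      have h2 := h1.eventually hFg
      have h3 : ∀ᶠ t : ℝ in 𝓝 0, |t| < ρ := by
        have := (continuous_abs.tendsto (0 : ℝ)).eventually (gt_mem_nhds (by simpa using hρ))
        simpa using this
      filter_upwards [h2, h3] with t ht1 ht2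
      rw [← ht1, hFt t ht2]
    have hgc : ContinuousAt (fun t : ℝ => g t) 0 := by
      have h1 : ContinuousAt g ((0 : ℝ) : ℂ) := by
        rw [Complex.ofReal_zero]; exact hg.continuousAt
      exact h1.comp Complex.continuous_ofReal.continuousAt
    have hgreal : ∀ᶠ t : ℝ in 𝓝[>] 0, (g t).im = 0 ∧ 0 ≤ (g t).re := by
      filter_upwards [hreal.filter_mono nhdsWithin_le_nhds, self_mem_nhdsWithin] with t ht htpos
      have htpos' : 0 < t := htpos
      have h1 : g t = ((X t ^ 2 / t ^ n : ℝ) : ℂ) := by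
        push_cast
        push_cast at ht
        rw [ht]
        have : (t : ℂ) ^ n ≠ 0 := pow_ne_zero _ (by exact_mod_cast htpos'.ne')
        field_simp
      rw [h1]
      refine ⟨Complex.ofReal_im _, ?_⟩
      rw [Complex.ofReal_re]
      positivity
    have hg0re : (g 0).im = 0 ∧ 0 ≤ (g 0).re := by
      have h1 : Tendsto (fun t : ℝ => g t) (𝓝[>] 0) (𝓝 (g 0)) := by
        have := hgc.tendsto
        rw [Complex.ofReal_zero] at this
        exact this.mono_left nhdsWithin_le_nhds
      constructor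
      · have h2 : Tendsto (fun t : ℝ => (g t).im) (𝓝[>] 0) (𝓝 (g 0).im) :=
          (Complex.continuous_im.tendsto _).comp h1
        have h3 : Tendsto (fun t : ℝ => (g t).im) (𝓝[>] 0) (𝓝 0) := by
          refine tendsto_const_nhds.congr' ?_
          filter_upwards [hgreal] with t ht
          exact ht.1.symm
        exact tendsto_nhds_unique h2 h3
      · have h2 : Tendsto (fun t : ℝ => (g t).re) (𝓝[>] 0) (𝓝 (g 0).re) :=
          (Complex.continuous_re.tendsto _).comp h1
        refine ge_of_tendsto h2 ?_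
        filter_upwards [hgreal] with t ht
        exact ht.2
    have hg0pos : 0 < (g 0).re := by
      refine lt_of_le_of_ne hg0re.2 fun h => hg0 ?_
      exact Complex.ext h.symm hg0re.1
    -- `Re g > 0` near `0`
    have hgpos : ∀ᶠ z in 𝓝 (0 : ℂ), 0 < (g z).re :=
      ((Complex.continuous_re.continuousAt.comp hg.continuousAt).tendsto).eventually
        (lt_mem_nhds hg0pos)
    have hgan : ∀ᶠ z in 𝓝 (0 : ℂ), AnalyticAt ℂ g z := hg.eventually_analyticAt
    obtain ⟨r₁, hr₁, hball₁⟩ := Metric.eventually_nhds_iff_ball.1 (hgpos.and hgan)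
    obtain ⟨r₂, hr₂, hball₂⟩ := Metric.eventually_nhds_iff_ball.1 hreal
    set r := min (min r₁ r₂) ρ with hr
    have hrpos : 0 < r := lt_min (lt_min hr₁ hr₂) hρ
    have hr1 : r ≤ r₁ := (min_le_left _ _).trans (min_le_left _ _)
    have hr2 : r ≤ r₂ := (min_le_left _ _).trans (min_le_right _ _)
    have hrρ : r ≤ ρ := min_le_right _ _
    have hball1 : ∀ z ∈ ball (0 : ℂ) r, 0 < (g z).re ∧ AnalyticAt ℂ g z := fun z hz =>
      hball₁ z (ball_subset_ball hr1 hz)
    have hball2 : ∀ t : ℝ, |t| < r → ((X t ^ 2 : ℝ) : ℂ) = (t : ℂ) ^ n * g t := by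
      intro t ht
      apply hball₂
      rw [mem_ball_zero_iff]
      exact lt_of_lt_of_le ht hr2
    have htball : ∀ t : ℝ, |t| < r → (t : ℂ) ∈ ball (0 : ℂ) r := by
      intro t ht
      rw [mem_ball_zero_iff, Complex.norm_real]; exact ht
    -- `g` is real on the real axis
    have hgim : ∀ t : ℝ, |t| < r → (g t).im = 0 := by
      intro t ht
      rcases eq_or_ne t 0 with rfl | ht0
      · simpa using hg0re.1
      · have h1 := hball2 t ht
        have h2 : g t = ((X t ^ 2 / t ^ n : ℝ) : ℂ) := by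
          push_cast
          push_cast at h1
          rw [h1]
          have : (t : ℂ) ^ n ≠ 0 := pow_ne_zero _ (by exact_mod_cast ht0)
          field_simp
        rw [h2, Complex.ofReal_im]
    have hgre : ∀ t : ℝ, |t| < r → g t = ((g t).re : ℂ) := by
      intro t ht
      apply Complex.ext
      · simp
      · simp [hgim t ht]
    have hXg : ∀ t : ℝ, |t| < r → X t ^ 2 = t ^ n * (g t).re := by
      intro t ht
      have h1 := hball2 t ht
      rw [hgre t ht] at h1
      exact_mod_cast h1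
    -- `n` is even
    have hneven : Even n := by
      by_contra hodd
      rw [Nat.not_even_iff_odd] at hodd
      have ht : |(-(r / 2))| < r := by
        rw [abs_neg, abs_of_pos (by positivity)]; linarith
      have h1 := hXg _ ht
      have h2 : (-(r / 2)) ^ n < 0 := hodd.pow_neg (by linarith)
      have h3 : 0 < (g ((-(r / 2) : ℝ) : ℂ)).re := (hball1 _ (htball _ ht)).1
      nlinarith [sq_nonneg (X (-(r / 2)))]
    obtain ⟨m, hm⟩ := hneven
    -- square root
    set s : ℂ → ℂ := fun z => Complex.exp (Complex.log (g z) / 2) with hs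
    have hsd : DifferentiableOn ℂ s (ball 0 r) := by
      intro z hz
      obtain ⟨h1, h2⟩ := hball1 z hz
      have h3 : g z ∈ slitPlane := Or.inl h1
      apply DifferentiableAt.differentiableWithinAt
      exact ((h2.differentiableAt.clog h3).div_const 2).cexp
    have hssq : ∀ z ∈ ball (0 : ℂ) r, s z ^ 2 = g z := by
      intro z hz
      obtain ⟨h1, -⟩ := hball1 z hz
      have h3 : g z ≠ 0 := by
        intro h; rw [h] at h1; simp at h1
      simp only [hs]
      rw [← Complex.exp_nat_mul]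
      push_cast
      rw [mul_div_cancel₀ _ (two_ne_zero), Complex.exp_log h3]
    have hsreal : ∀ t : ℝ, |t| < r → s t = ((Real.exp (Real.log (g t).re / 2) : ℝ) : ℂ) := by
      intro t ht
      have h1 := (hball1 _ (htball t ht)).1
      simp only [hs]
      rw [hgre t ht, ← Complex.ofReal_log (by simpa using h1.le)]
      push_cast
      simp
    set Γ : ℂ → ℂ := fun z => z ^ m * s z with hΓ
    set γ : ℝ → ℝ := fun t => t ^ m * Real.exp (Real.log (g t).re / 2) with hγ
    have hΓd : DifferentiableOn ℂ Γ (ball 0 r) := (differentiableOn_pow m).mul hsd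
    have hΓγ : ∀ t : ℝ, |t| < r → Γ t = (γ t : ℂ) := by
      intro t ht
      simp only [hΓ, hγ]
      rw [hsreal t ht]
      push_cast
      ring
    have hXγ : ∀ t : ℝ, |t| < r → X t ^ 2 = γ t ^ 2 := by
      intro t ht
      have h1 := (hball1 _ (htball t ht)).1
      rw [hXg t ht]
      simp only [hγ]
      rw [mul_pow, ← Real.exp_nat_mul]
      push_cast
      rw [mul_div_cancel₀ _ (two_ne_zero), Real.exp_log h1, ← pow_mul, hm, mul_two]
    have hγc : ContinuousOn γ (Ioo (-r) r) := by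
      have h1 : ContinuousOn (fun t : ℝ => (Γ t).re) (Ioo (-r) r) := by
        refine Complex.continuous_re.comp_continuousOn ?_
        refine hΓd.continuousOn.comp (by fun_prop) ?_
        intro t ht
        exact htball t (abs_lt.2 ht)
      refine h1.congr ?_
      intro t ht
      simp only
      rw [hΓγ t (abs_lt.2 ht), Complex.ofReal_re]
    have hγ0 : ∀ t : ℝ, t ≠ 0 ∨ m = 0 → γ t ≠ 0 := by
      intro t ht
      simp only [hγ]
      refine mul_ne_zero ?_ (Real.exp_pos _).ne'
      rcases ht with h | h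
      · exact pow_ne_zero _ h
      · rw [h]; simp
    have hXcr : ContinuousOn X (Ioo (-r) r) :=
      hXc.mono (Ioo_subset_Ioo (by linarith) hrρ)
    have hsign : ∀ S : Set ℝ, IsPreconnected S → S ⊆ Ioo (-r) r → (∀ t ∈ S, γ t ≠ 0) →
        ∃ ε : ℝ, (∀ t ∈ S, X t = ε * γ t) := by
      intro S hS hSsub hSne
      rcases hS.eq_or_eq_neg_of_sq_eq (hXcr.mono hSsub) (hγc.mono hSsub)
        (fun t ht => hXγ t (abs_lt.2 (hSsub ht))) (fun {t} ht => hSne t ht) with h | h
      · exact ⟨1, fun t ht => by rw [one_mul]; exact h ht⟩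
      · exact ⟨-1, fun t ht => by have := h ht; simpa using this⟩
    -- the signs on the two sides
    obtain ⟨εp, εm, hεp, hεm, hε0, hεeq⟩ : ∃ εp εm : ℝ, (∀ t ∈ Ioo 0 r, X t = εp * γ t) ∧
        (∀ t ∈ Ioo (-r) 0, X t = εm * γ t) ∧ X 0 = εp * γ 0 ∧ (m = 0 → εp = εm) := by
      by_cases hm0 : m = 0
      · obtain ⟨ε, hε⟩ := hsign (Ioo (-r) r) isPreconnected_Ioo (subset_refl _)
          (fun t _ => hγ0 t (Or.inr hm0))
        refine ⟨ε, ε, fun t ht => hε t ⟨by linarith [ht.1], ht.2⟩,
          fun t ht => hε t ⟨ht.1, by linarith [ht.2]⟩, hε 0 ⟨by linarith, hrpos⟩, fun _ => rfl⟩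
      · obtain ⟨εp, hεp⟩ := hsign (Ioo 0 r) isPreconnected_Ioo
          (Ioo_subset_Ioo (by linarith) le_rfl) (fun t ht => hγ0 t (Or.inl ht.1.ne'))
        obtain ⟨εm, hεm⟩ := hsign (Ioo (-r) 0) isPreconnected_Ioo
          (Ioo_subset_Ioo le_rfl (by linarith)) (fun t ht => hγ0 t (Or.inl ht.2.ne))
        refine ⟨εp, εm, hεp, hεm, ?_, fun h => absurd h hm0⟩
        have h1 : γ 0 = 0 := by simp [hγ, hm0]
        have h2 := hXγ 0 (by simpa using hrpos)
        rw [h1] at h2 ⊢
        simpa using h2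
    set k : ℂ := -(((εm - εp) / Real.pi : ℝ) : ℂ) * I with hk
    have hkΓ0 : k * Γ 0 = 0 := by
      by_cases hm0 : m = 0
      · have : k = 0 := by
          rw [hk, hεeq hm0]; simp
        rw [this, zero_mul]
      · simp [hΓ, hm0]
    have hsub : ball (0 : ℂ) r ⊆ ball 0 ρ := ball_subset_ball hrρ
    refine ⟨r, hrpos, hrρ, ?_⟩
    refine finish_structure hrpos hα (hψc.mono (inter_subset_inter_right _ hsub))
      (hψd.mono (inter_subset_inter_right _ hsub)) (c := c) (A₀ := fun z => εp * Γ z)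
      (B₀ := fun z => k * Γ z) (hΓd.const_mul _) (hΓd.const_mul _) hkΓ0 ?_
    intro t ht
    have hXt : X t = (α * ψ t).re + c := rfl
    rw [← hXt, hΓγ t ht]
    rcases lt_trichotomy t 0 with h | h | h
    · rw [hεm t ⟨(abs_lt.1 ht).1, h⟩, log_ofReal_neg h, hk]
      have hpi : (Real.pi : ℝ) ≠ 0 := Real.pi_ne_zero
      simp
      field_simp
      ring
    · subst h
      rw [hε0]
      simp
    · rw [hεp t ⟨h, (abs_lt.1 ht).2⟩, ← Complex.ofReal_log h.le, hk]
      simp

end Pool.Agent.Lib.MP_354547_an
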