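import Mathlib
import Pool.Agent.Lib.MP_354547_an.LocalStructure

set_option autoImplicit false

open Complex Metric Set Filter Topology ComplexConjugate

namespace Pool.Agent.Lib.MP_354547_an

/-- Strict differentiability of a real function, in explicit form. -/
def StrD (f : ℝ → ℝ) (x₀ β : ℝ) : Prop :=
  ∀ ε > 0, ∃ δ > 0, ∀ x y : ℝ, |x - x₀| < δ → |y - x₀| < δ →
    |f x - f y - β * (x - y)| ≤ ε * |x - y|

/-- Monotonicity with one exceptional point `0`. -/
lemma monotoneOn_of_deriv_off_zero {g g' : ℝ → ℝ} {η : ℝ} (hη : 0 < η)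
    (hc : ContinuousOn g (Icc (-η) η))
    (hd : ∀ t ∈ Icc (-η) η, t ≠ 0 → HasDerivAt g (g' t) t)
    (hg : ∀ t ∈ Icc (-η) η, t ≠ 0 → 0 ≤ g' t) : MonotoneOn g (Icc (-η) η) := by
  have h1 : MonotoneOn g (Icc (-η) 0) := by
    refine monotoneOn_of_deriv_nonneg (convex_Icc _ _)
      (hc.mono (Icc_subset_Icc le_rfl hη.le)) ?_ ?_
    · intro t ht
      rw [interior_Icc] at ht
      exact (hd t ⟨ht.1.le, by linarith [ht.2]⟩ ht.2.ne).differentiableAt.differentiableWithinAt
    · intro t ht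
      rw [interior_Icc] at ht
      rw [(hd t ⟨ht.1.le, by linarith [ht.2]⟩ ht.2.ne).deriv]
      exact hg t ⟨ht.1.le, by linarith [ht.2]⟩ ht.2.ne
  have h2 : MonotoneOn g (Icc 0 η) := by
    refine monotoneOn_of_deriv_nonneg (convex_Icc _ _)
      (hc.mono (Icc_subset_Icc (by linarith) le_rfl)) ?_ ?_
    · intro t ht
      rw [interior_Icc] at ht
      exact (hd t ⟨by linarith [ht.1], ht.2.le⟩ ht.1.ne').differentiableAt.differentiableWithinAt
    · intro t ht
      rw [interior_Icc] at ht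
      rw [(hd t ⟨by linarith [ht.1], ht.2.le⟩ ht.1.ne').deriv]
      exact hg t ⟨by linarith [ht.1], ht.2.le⟩ ht.1.ne'
  have h3 := h1.union_right h2 (isGreatest_Icc (by linarith)) (isLeast_Icc hη.le)
  rwa [Icc_union_Icc_eq_Icc (by linarith) hη.le] at h3

lemma strictMonoOn_of_deriv_off_zero {g g' : ℝ → ℝ} {η : ℝ} (hη : 0 < η)
    (hc : ContinuousOn g (Icc (-η) η))
    (hd : ∀ t ∈ Icc (-η) η, t ≠ 0 → HasDerivAt g (g' t) t)
    (hg : ∀ t ∈ Icc (-η) η, t ≠ 0 → 0 < g' t) : StrictMonoOn g (Icc (-η) η) := by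
  have h1 : StrictMonoOn g (Icc (-η) 0) := by
    refine strictMonoOn_of_deriv_pos (convex_Icc _ _)
      (hc.mono (Icc_subset_Icc le_rfl hη.le)) ?_
    intro t ht
    rw [interior_Icc] at ht
    rw [(hd t ⟨ht.1.le, by linarith [ht.2]⟩ ht.2.ne).deriv]
    exact hg t ⟨ht.1.le, by linarith [ht.2]⟩ ht.2.ne
  have h2 : StrictMonoOn g (Icc 0 η) := by
    refine strictMonoOn_of_deriv_pos (convex_Icc _ _)
      (hc.mono (Icc_subset_Icc (by linarith) le_rfl)) ?_
    intro t ht
    rw [interior_Icc] at ht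
    rw [(hd t ⟨by linarith [ht.1], ht.2.le⟩ ht.1.ne').deriv]
    exact hg t ⟨by linarith [ht.1], ht.2.le⟩ ht.1.ne'
  have h3 := h1.union h2 (isGreatest_Icc (by linarith)) (isLeast_Icc hη.le)
  rwa [Icc_union_Icc_eq_Icc (by linarith) hη.le] at h3

/-- From a parametrised curve `(a, b)` whose slope `b'/a'` tends to `β` at `0`. -/
lemma strD_of_param {f a b a' b' : ℝ → ℝ} {β r : ℝ} (hr : 0 < r)
    (ha : ContinuousOn a (Ioo (-r) r)) (hb : ContinuousOn b (Ioo (-r) r))
    (ha0 : a 0 = 0) (hfab : ∀ t, |t| < r → b t = f (a t))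
    (hda : ∀ t, |t| < r → t ≠ 0 → HasDerivAt a (a' t) t)
    (hdb : ∀ t, |t| < r → t ≠ 0 → HasDerivAt b (b' t) t)
    (hpos : ∀ᶠ t in 𝓝[≠] (0 : ℝ), 0 < a' t)
    (hslope : ∀ ε > 0, ∀ᶠ t in 𝓝[≠] (0 : ℝ), |b' t - β * a' t| ≤ ε * a' t) :
    StrD f 0 β := by
  intro ε hε
  have hev := hpos.and (hslope ε hε)
  rw [eventually_nhdsWithin_iff] at hev
  obtain ⟨η₁, hη₁, hball⟩ := Metric.eventually_nhds_iff_ball.1 hev
  set η := min (η₁ / 2) (r / 2) with hηdef
  have hη : 0 < η := lt_min (by positivity) (by positivity)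
  have hηr : η < r := lt_of_le_of_lt (min_le_right _ _) (by linarith)
  have hηη₁ : η < η₁ := lt_of_le_of_lt (min_le_left _ _) (by linarith)
  have hIcc : Icc (-η) η ⊆ Ioo (-r) r := fun t ht => ⟨by linarith [ht.1], by linarith [ht.2]⟩
  have habs : ∀ t ∈ Icc (-η) η, |t| < r := fun t ht => abs_lt.2 (hIcc ht)
  have hprop : ∀ t ∈ Icc (-η) η, t ≠ 0 → 0 < a' t ∧ |b' t - β * a' t| ≤ ε * a' t := by
    intro t ht ht0
    refine hball t ?_ ht0
    rw [mem_ball_zero_iff, Real.norm_eq_abs]
    exact lt_of_le_of_lt (abs_le.2 ht) hηη₁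
  have hac := ha.mono hIcc
  have hbc := hb.mono hIcc
  have hasm : StrictMonoOn a (Icc (-η) η) :=
    strictMonoOn_of_deriv_off_zero hη hac (fun t ht ht0 => hda t (habs t ht) ht0)
      (fun t ht ht0 => (hprop t ht ht0).1)
  have hm1 : MonotoneOn (fun t => ε * a t + (b t - β * a t)) (Icc (-η) η) := by
    refine monotoneOn_of_deriv_off_zero hη
      ((continuousOn_const.mul hac).add (hbc.sub (continuousOn_const.mul hac)))
      (fun t ht ht0 => ((hda t (habs t ht) ht0).const_mul ε).add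
        ((hdb t (habs t ht) ht0).sub ((hda t (habs t ht) ht0).const_mul β))) ?_
    intro t ht ht0
    have := (abs_le.1 (hprop t ht ht0).2).1
    linarith
  have hm2 : MonotoneOn (fun t => ε * a t - (b t - β * a t)) (Icc (-η) η) := by
    refine monotoneOn_of_deriv_off_zero hη
      ((continuousOn_const.mul hac).sub (hbc.sub (continuousOn_const.mul hac)))
      (fun t ht ht0 => ((hda t (habs t ht) ht0).const_mul ε).sub
        ((hdb t (habs t ht) ht0).sub ((hda t (habs t ht) ht0).const_mul β))) ?_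
    intro t ht ht0
    have := (abs_le.1 (hprop t ht ht0).2).2
    linarith
  have h0mem : (0 : ℝ) ∈ Icc (-η) η := ⟨by linarith, hη.le⟩
  have hapos : 0 < a η := by
    rw [← ha0]; exact hasm h0mem ⟨by linarith, le_rfl⟩ hη
  have haneg : a (-η) < 0 := by
    rw [← ha0]; exact hasm ⟨le_rfl, by linarith⟩ h0mem (by linarith)
  refine ⟨min (a η) (-a (-η)), lt_min hapos (by linarith), ?_⟩
  have hpre : ∀ x : ℝ, |x - 0| < min (a η) (-a (-η)) → ∃ t ∈ Icc (-η) η, a t = x := by
    intro x hx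
    rw [sub_zero] at hx
    have h1 := abs_lt.1 hx
    have h2 : x ∈ Icc (a (-η)) (a η) := by
      constructor
      · have := min_le_right (a η) (-a (-η))
        linarith [h1.1]
      · have := min_le_left (a η) (-a (-η))
        linarith [h1.2]
    exact intermediate_value_Icc (by linarith) hac h2
  have hmain : ∀ s ∈ Icc (-η) η, ∀ t ∈ Icc (-η) η, s ≤ t →
      |f (a t) - f (a s) - β * (a t - a s)| ≤ ε * |a t - a s| := by
    intro s hs t ht hst
    have h1 := hm1 hs ht hst
    have h2 := hm2 hs ht hst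
    have h3 := hasm.monotoneOn hs ht hst
    simp only at h1 h2
    rw [← hfab t (habs t ht), ← hfab s (habs s hs), abs_of_nonneg (by linarith : 0 ≤ a t - a s),
      abs_le]
    constructor <;> nlinarith
  intro x y hx hy
  obtain ⟨s, hs, rfl⟩ := hpre x hx
  obtain ⟨t, ht, rfl⟩ := hpre y hy
  rcases le_total s t with h | h
  · have := hmain s hs t ht h
    rw [abs_sub_comm (a s) (a t)]
    have e : f (a s) - f (a t) - β * (a s - a t) = -(f (a t) - f (a s) - β * (a t - a s)) := by
      ring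
    rw [e, abs_neg]
    exact this
  · exact hmain t ht s hs h

lemma hasDerivAt_clog_ofReal {t : ℝ} (ht : t ≠ 0) :
    HasDerivAt (fun t : ℝ => Complex.log (t : ℂ)) ((t : ℂ)⁻¹) t := by
  rcases lt_or_gt_of_ne ht with h | h
  · have h1 : HasDerivAt (fun t : ℝ => ((Real.log t : ℝ) : ℂ) + Real.pi * I) ((t⁻¹ : ℝ) : ℂ) t :=
      ((Real.hasDerivAt_log ht).ofReal_comp).add_const _
    rw [Complex.ofReal_inv] at h1
    refine h1.congr_of_eventuallyEq ?_
    filter_upwards [gt_mem_nhds h] with s hs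
    rw [log_ofReal_neg hs, Real.log_abs]
  · have h1 : HasDerivAt Complex.log ((t : ℂ)⁻¹) (t : ℂ) :=
      Complex.hasDerivAt_log (Or.inl (by simpa using h))
    exact h1.comp_ofReal

theorem strD_of_structure {f : ℝ → ℝ} {L κ c r : ℝ} {Ψ A B : ℂ → ℂ}
    (hκ1 : κ < 1) (hc : 0 < c) (hr : 0 < r)
    (hΨc : ContinuousOn Ψ CHP) (hΨ0 : Ψ 0 = 0) (hΨb : ∀ t : ℝ, (Ψ t).im = f (Ψ t).re)
    (hsec : ∀ z ∈ HP, 0 < (deriv Ψ z).re ∧ |(deriv Ψ z).im| ≤ L * (deriv Ψ z).re)
    (hlow : ∀ y : ℝ, 0 < y → y ≤ 1 → c * y ^ κ ≤ ‖deriv Ψ (y * I)‖)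
    (hA : DifferentiableOn ℂ A (ball 0 r)) (hB : DifferentiableOn ℂ B (ball 0 r))
    (hB0 : B 0 = 0) (hstr : ∀ z ∈ CHP ∩ ball (0 : ℂ) r, Ψ z = A z + B z * Complex.log z) :
    ∃ β : ℝ, StrD f 0 β := by
  have h0b : (0 : ℂ) ∈ ball (0 : ℂ) r := mem_ball_self hr
  have hnb : ∀ z ∈ ball (0 : ℂ) r, ball (0 : ℂ) r ∈ 𝓝 z := fun z hz => isOpen_ball.mem_nhds hz
  -- the derivative as `P = Q + D log`
  set D : ℂ → ℂ := deriv B with hD
  set Q : ℂ → ℂ := fun z => deriv A z + dslope B 0 z with hQ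
  set P : ℂ → ℂ := fun z => Q z + D z * Complex.log z with hP
  have hDd : DifferentiableOn ℂ D (ball 0 r) := hB.deriv isOpen_ball
  have hQd : DifferentiableOn ℂ Q (ball 0 r) :=
    (hA.deriv isOpen_ball).add ((Complex.differentiableOn_dslope (hnb 0 h0b)).2 hB)
  have hds : ∀ z : ℂ, z ≠ 0 → dslope B 0 z = B z * z⁻¹ := by
    intro z hz
    rw [dslope_of_ne _ hz, slope_def_field, hB0, sub_zero, sub_zero, div_eq_mul_inv]
  have hderivHP : ∀ z ∈ HP ∩ ball (0 : ℂ) r, deriv Ψ z = P z := by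
    rintro z ⟨hz1, hz2⟩
    have hz0 : z ≠ 0 := by
      rintro rfl
      have h : (0 : ℝ) < (0 : ℂ).im := hz1
      simp at h
    have h1 : HasDerivAt A (deriv A z) z := (hA.differentiableAt (hnb z hz2)).hasDerivAt
    have h2 : HasDerivAt B (deriv B z) z := (hB.differentiableAt (hnb z hz2)).hasDerivAt
    have h3 : HasDerivAt Complex.log z⁻¹ z := Complex.hasDerivAt_log (HP_subset_slitPlane hz1)
    have h4 := h1.add (h2.mul h3)
    have h5 : HasDerivAt Ψ (deriv A z + (deriv B z * Complex.log z + B z * z⁻¹)) z := by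
      refine h4.congr_of_eventuallyEq ?_
      filter_upwards [isOpen_HP.mem_nhds hz1, hnb z hz2] with v hv1 hv2
      exact hstr v ⟨HP_subset_CHP hv1, hv2⟩
    rw [h5.deriv]
    simp only [hP, hQ, hD]
    rw [hds z hz0]
    ring
  have htball : ∀ t : ℝ, |t| < r → (t : ℂ) ∈ ball (0 : ℂ) r := by
    intro t ht
    rw [mem_ball_zero_iff, Complex.norm_real]; exact ht
  -- derivative along the real axis
  have hderivR : ∀ t : ℝ, |t| < r → t ≠ 0 → HasDerivAt (fun t : ℝ => Ψ t) (P t) t := by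
    intro t ht ht0
    have htC : (t : ℂ) ≠ 0 := by exact_mod_cast ht0
    have hz2 := htball t ht
    have h1 : HasDerivAt (fun t : ℝ => A t) (deriv A t) t :=
      ((hA.differentiableAt (hnb _ hz2)).hasDerivAt).comp_ofReal
    have h2 : HasDerivAt (fun t : ℝ => B t) (deriv B t) t :=
      ((hB.differentiableAt (hnb _ hz2)).hasDerivAt).comp_ofReal
    have h4 := h1.add (h2.mul (hasDerivAt_clog_ofReal ht0))
    have h5 : HasDerivAt (fun t : ℝ => Ψ t)
        (deriv A t + (deriv B t * Complex.log t + B t * (t : ℂ)⁻¹)) t := by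
      refine h4.congr_of_eventuallyEq ?_
      have h6 : ∀ᶠ s : ℝ in 𝓝 t, |s| < r := (continuous_abs.tendsto t).eventually (gt_mem_nhds ht)
      filter_upwards [h6] with s hs
      exact hstr s ⟨ofReal_mem_CHP s, htball s hs⟩
    refine h5.congr_deriv ?_
    simp only [hP, hQ, hD]
    rw [hds _ htC]
    ring
  have hDc : ContinuousAt D 0 := (hDd.differentiableAt (hnb 0 h0b)).continuousAt
  have hQc : ContinuousAt Q 0 := (hQd.differentiableAt (hnb 0 h0b)).continuousAt
  -- the limit of `P / Λ`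
  obtain ⟨Λ, v, hΛpos, hv0, hlim⟩ : ∃ (Λ : ℂ → ℝ) (v : ℂ), (∀ᶠ z in 𝓝[≠] (0 : ℂ), 0 < Λ z) ∧
      v ≠ 0 ∧ Tendsto (fun z => P z / (Λ z : ℂ)) (𝓝[≠] (0 : ℂ)) (𝓝 v) := by
    by_cases hD0 : D 0 = 0
    · refine ⟨fun _ => 1, Q 0, Eventually.of_forall fun _ => one_pos, ?_, ?_⟩
      · -- `Q 0 ≠ 0` from the lower bound
        intro hQ0
        have hQO : Q =O[𝓝 0] (fun z : ℂ => z) := by
          have := (hQd.differentiableAt (hnb 0 h0b)).hasDerivAt.hasFDerivAt.isBigO_sub
          simpa [hQ0] using this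
        have hDO : D =O[𝓝 0] (fun z : ℂ => z) := by
          have := (hDd.differentiableAt (hnb 0 h0b)).hasDerivAt.hasFDerivAt.isBigO_sub
          simpa [hD0] using this
        obtain ⟨C₁, hC₁⟩ := hQO.bound
        obtain ⟨C₂, hC₂⟩ := hDO.bound
        -- restrict to the imaginary axis
        have hy : Tendsto (fun y : ℝ => (y * I : ℂ)) (𝓝[>] 0) (𝓝 0) := by
          have : Continuous (fun y : ℝ => (y * I : ℂ)) := by fun_prop
          have h1 := this.tendsto 0
          simp only [ofReal_zero, zero_mul] at h1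
          exact h1.mono_left nhdsWithin_le_nhds
        have hbd : ∀ᶠ y : ℝ in 𝓝[>] 0, c * y ^ κ ≤
            y * (|C₁| + |C₂| * (|Real.log y| + Real.pi)) := by
          filter_upwards [hy.eventually hC₁, hy.eventually hC₂, self_mem_nhdsWithin,
            Ioo_mem_nhdsGT (show (0 : ℝ) < min 1 r by positivity)] with y h1 h2 hy0 hy1
          have hy0' : 0 < y := hy0
          have hyI : ‖(y * I : ℂ)‖ = y := by
            rw [norm_mul, Complex.norm_I, mul_one, Complex.norm_real, Real.norm_of_nonneg hy0'.le]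
          rw [hyI] at h1 h2
          have h3 := hlow y hy0' (hy1.2.le.trans (min_le_left _ _))
          rw [hderivHP (y * I) ⟨by simpa [HP] using hy0', by
            rw [mem_ball_zero_iff, hyI]; exact lt_of_lt_of_le hy1.2 (min_le_right _ _)⟩] at h3
          refine h3.trans ?_
          have h4 : ‖Complex.log (y * I)‖ ≤ |Real.log y| + Real.pi := by
            have h5 := Complex.norm_le_abs_re_add_abs_im (Complex.log (y * I))
            rw [Complex.log_re, Complex.log_im, hyI] at h5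
            exact h5.trans (add_le_add_right (Complex.abs_arg_le_pi _) _)
          calc ‖P (y * I)‖ ≤ ‖Q (y * I)‖ + ‖D (y * I)‖ * ‖Complex.log (y * I)‖ := by
                simp only [hP]
                refine (norm_add_le _ _).trans ?_
                rw [norm_mul]
            _ ≤ C₁ * y + C₂ * y * (|Real.log y| + Real.pi) :=
                add_le_add h1 (mul_le_mul h2 h4 (norm_nonneg _) ((norm_nonneg _).trans h2))
            _ ≤ |C₁| * y + |C₂| * y * (|Real.log y| + Real.pi) := by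
                gcongr <;> exact le_abs_self _
            _ = _ := by ring
        have hbd2 : ∀ᶠ y : ℝ in 𝓝[>] 0, c ≤
            y ^ (1 - κ) * (|C₁| + |C₂| * Real.pi) + |C₂| * |Real.log y * y ^ (1 - κ)| := by
          filter_upwards [hbd, self_mem_nhdsWithin] with y h1 hy0
          have hy0' : 0 < y := hy0
          have h2 : 0 < y ^ κ := Real.rpow_pos_of_pos hy0' _
          have h3 : y = y ^ κ * y ^ (1 - κ) := by
            rw [← Real.rpow_add hy0']; simp
          have h4 : 0 ≤ y ^ (1 - κ) := Real.rpow_nonneg hy0'.le _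
          rw [abs_mul, abs_of_nonneg h4]
          refine le_of_mul_le_mul_left ?_ h2
          calc y ^ κ * c = c * y ^ κ := mul_comm _ _
            _ ≤ y * (|C₁| + |C₂| * (|Real.log y| + Real.pi)) := h1
            _ = (y ^ κ * y ^ (1 - κ)) * (|C₁| + |C₂| * (|Real.log y| + Real.pi)) := by rw [← h3]
            _ = _ := by ring
        have hl1 : Tendsto (fun y : ℝ => y ^ (1 - κ)) (𝓝[>] 0) (𝓝 0) := by
          have h1 : ContinuousAt (fun y : ℝ => y ^ (1 - κ)) 0 :=
            Real.continuousAt_rpow_const _ _ (Or.inr (by linarith))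
          have h2 := h1.tendsto
          rw [Real.zero_rpow (by linarith)] at h2
          exact h2.mono_left nhdsWithin_le_nhds
        have hl2 : Tendsto (fun y : ℝ => y ^ (1 - κ) * (|C₁| + |C₂| * Real.pi) +
            |C₂| * |Real.log y * y ^ (1 - κ)|) (𝓝[>] 0)
            (𝓝 (0 * (|C₁| + |C₂| * Real.pi) + |C₂| * |(0 : ℝ)|)) :=
          (hl1.mul_const _).add
            ((tendsto_log_mul_rpow_nhdsGT_zero (by linarith : 0 < 1 - κ)).abs.const_mul _)
        have := le_of_tendsto_of_tendsto tendsto_const_nhds hl2 hbd2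
        simp at this
        linarith
      · have h1 : Tendsto Q (𝓝[≠] (0 : ℂ)) (𝓝 (Q 0)) := hQc.tendsto.mono_left nhdsWithin_le_nhds
        have h2 : Tendsto (fun z => D z * Complex.log z) (𝓝[≠] (0 : ℂ)) (𝓝 0) :=
          (tendsto_holo_mul_clog (hDd.differentiableAt (hnb 0 h0b)) hD0).mono_left
            nhdsWithin_le_nhds
        have h3 := h1.add h2
        simpa [hP] using h3
    · refine ⟨fun z => -Real.log ‖z‖, -D 0, ?_, neg_ne_zero.2 hD0, ?_⟩
      · have h1 : Tendsto (fun z : ℂ => Real.log ‖z‖) (𝓝[≠] 0) atBot :=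
          Real.tendsto_log_nhdsGT_zero.comp tendsto_norm_nhdsNE_zero
        filter_upwards [h1.eventually_lt_atBot 0] with z hz
        linarith
      · have hlog : Tendsto (fun z : ℂ => Real.log ‖z‖) (𝓝[≠] 0) atBot :=
          Real.tendsto_log_nhdsGT_zero.comp tendsto_norm_nhdsNE_zero
        have hinv : Tendsto (fun z : ℂ => ((-Real.log ‖z‖)⁻¹ : ℝ)) (𝓝[≠] 0) (𝓝 0) :=
          (tendsto_neg_atBot_atTop.comp hlog).inv_tendsto_atTop
        -- bounded part times a null sequence
        have hbdd : (fun z : ℂ => Q z + D z * (arg z * I)) =O[𝓝[≠] 0] (fun _ => (1 : ℝ)) := by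
          have h1 : Q =O[𝓝[≠] 0] (fun _ => (1 : ℝ)) :=
            (hQc.tendsto.mono_left nhdsWithin_le_nhds).isBigO_one ℝ
          have h2 : D =O[𝓝[≠] 0] (fun _ => (1 : ℝ)) :=
            (hDc.tendsto.mono_left nhdsWithin_le_nhds).isBigO_one ℝ
          have h3 : (fun z : ℂ => (arg z * I : ℂ)) =O[𝓝[≠] 0] (fun _ => (1 : ℝ)) := by
            refine Asymptotics.IsBigO.of_bound Real.pi (Eventually.of_forall fun z => ?_)
            rw [norm_mul, Complex.norm_I, mul_one, Complex.norm_real, norm_one, mul_one]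
            exact Complex.abs_arg_le_pi z
          have h4 := h2.mul h3
          simp only [mul_one] at h4
          exact h1.add h4
        have h1 : Tendsto (fun z : ℂ => (Q z + D z * (arg z * I)) *
            (((-Real.log ‖z‖)⁻¹ : ℝ) : ℂ)) (𝓝[≠] 0) (𝓝 0) := by
          have h2 : (fun z : ℂ => (((-Real.log ‖z‖)⁻¹ : ℝ) : ℂ)) =o[𝓝[≠] 0]
              (fun _ => (1 : ℝ)) := by
            rw [Asymptotics.isLittleO_one_iff]
            have h := (Complex.continuous_ofReal.tendsto 0).comp hinv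
            rw [Complex.ofReal_zero] at h
            exact h
          have h3 := hbdd.mul_isLittleO h2
          simp only [mul_one] at h3
          rwa [Asymptotics.isLittleO_one_iff] at h3
        have h4 : Tendsto (fun z : ℂ => (Q z + D z * (arg z * I)) *
            (((-Real.log ‖z‖)⁻¹ : ℝ) : ℂ) - D z) (𝓝[≠] 0) (𝓝 (0 - D 0)) :=
          h1.sub (hDc.tendsto.mono_left nhdsWithin_le_nhds)
        rw [zero_sub] at h4
        refine h4.congr' ?_
        filter_upwards [hlog.eventually_lt_atBot 0] with z hz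
        have h5 : (Real.log ‖z‖ : ℂ) ≠ 0 := by exact_mod_cast hz.ne
        have h6 : Complex.log z = (Real.log ‖z‖ : ℂ) + arg z * I := by
          apply Complex.ext
          · simp [Complex.log_re]
          · simp [Complex.log_im]
        simp only [hP]
        rw [h6]
        push_cast
        field_simp
        ring
  -- sector for `v`
  have hvsec : 0 ≤ v.re ∧ |v.im| ≤ L * v.re := by
    have hy : Tendsto (fun y : ℝ => (y * I : ℂ)) (𝓝[>] 0) (𝓝[≠] 0) := by
      have : Continuous (fun y : ℝ => (y * I : ℂ)) := by fun_prop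
      have h1 := this.tendsto 0
      simp only [ofReal_zero, zero_mul] at h1
      refine tendsto_nhdsWithin_iff.2 ⟨h1.mono_left nhdsWithin_le_nhds, ?_⟩
      filter_upwards [self_mem_nhdsWithin] with y hy0
      have hy0' : (0 : ℝ) < y := hy0
      simp [hy0'.ne']
    have hl := hlim.comp hy
    have hlre : Tendsto (fun y : ℝ => (P (y * I) / (Λ (y * I) : ℂ)).re) (𝓝[>] 0) (𝓝 v.re) :=
      (Complex.continuous_re.tendsto _).comp hl
    have hlim' : Tendsto (fun y : ℝ => (P (y * I) / (Λ (y * I) : ℂ)).im) (𝓝[>] 0) (𝓝 v.im) :=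
      (Complex.continuous_im.tendsto _).comp hl
    have hprop : ∀ᶠ y : ℝ in 𝓝[>] 0, 0 ≤ (P (y * I) / (Λ (y * I) : ℂ)).re ∧
        |(P (y * I) / (Λ (y * I) : ℂ)).im| ≤ L * (P (y * I) / (Λ (y * I) : ℂ)).re := by
      filter_upwards [hy.eventually hΛpos, self_mem_nhdsWithin,
        Ioo_mem_nhdsGT hr] with y h1 hy0 hy1
      have hy0' : 0 < y := hy0
      have hyI : ‖(y * I : ℂ)‖ = y := by
        rw [norm_mul, Complex.norm_I, mul_one, Complex.norm_real, Real.norm_of_nonneg hy0'.le]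
      have hmem : (y * I : ℂ) ∈ HP ∩ ball (0 : ℂ) r :=
        ⟨by simpa [HP] using hy0', by rw [mem_ball_zero_iff, hyI]; exact hy1.2⟩
      have h2 := hsec (y * I) hmem.1
      rw [hderivHP _ hmem] at h2
      rw [Complex.div_ofReal_re, Complex.div_ofReal_im, abs_div, abs_of_pos h1]
      refine ⟨div_nonneg h2.1.le h1.le, ?_⟩
      rw [mul_div_assoc']
      gcongr
      exact h2.2
    constructor
    · exact ge_of_tendsto hlre (hprop.mono fun y hy => hy.1)
    · exact le_of_tendsto_of_tendsto hlim'.abs (hlre.const_mul L) (hprop.mono fun y hy => hy.2)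
  have hvre : 0 < v.re := by
    refine lt_of_le_of_ne hvsec.1 fun h => hv0 ?_
    have h1 := hvsec.2
    rw [← h, mul_zero] at h1
    exact Complex.ext h.symm (abs_nonpos_iff.1 h1)
  -- limits along the real axis
  have hreal : Tendsto (fun t : ℝ => (t : ℂ)) (𝓝[≠] 0) (𝓝[≠] 0) := by
    have h1 := Complex.continuous_ofReal.tendsto 0
    simp only [ofReal_zero] at h1
    refine tendsto_nhdsWithin_iff.2 ⟨h1.mono_left nhdsWithin_le_nhds, ?_⟩
    filter_upwards [self_mem_nhdsWithin] with t ht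
    have : t ≠ 0 := ht
    simpa using this
  have hlR := hlim.comp hreal
  have hlRre : Tendsto (fun t : ℝ => (P t / (Λ t : ℂ)).re) (𝓝[≠] 0) (𝓝 v.re) :=
    (Complex.continuous_re.tendsto _).comp hlR
  have hlRim : Tendsto (fun t : ℝ => (P t / (Λ t : ℂ)).im) (𝓝[≠] 0) (𝓝 v.im) :=
    (Complex.continuous_im.tendsto _).comp hlR
  have hΛR := hreal.eventually hΛpos
  refine ⟨v.im / v.re, strD_of_param (a := fun t => (Ψ t).re) (b := fun t => (Ψ t).im)
    (a' := fun t => (P t).re) (b' := fun t => (P t).im) hr ?_ ?_ ?_ ?_ ?_ ?_ ?_ ?_⟩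
  · refine Complex.continuous_re.comp_continuousOn (hΨc.comp (by fun_prop) ?_)
    intro t _
    exact ofReal_mem_CHP t
  · refine Complex.continuous_im.comp_continuousOn (hΨc.comp (by fun_prop) ?_)
    intro t _
    exact ofReal_mem_CHP t
  · simp [hΨ0]
  · intro t _
    exact hΨb t
  · intro t ht ht0
    exact Complex.reCLM.hasFDerivAt.comp_hasDerivAt t (hderivR t ht ht0)
  · intro t ht ht0
    exact Complex.imCLM.hasFDerivAt.comp_hasDerivAt t (hderivR t ht ht0)
  · filter_upwards [hlRre.eventually (lt_mem_nhds hvre), hΛR] with t h1 h2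
    rw [Complex.div_ofReal_re] at h1
    exact (div_pos_iff_of_pos_right h2).1 h1
  · intro ε hε
    have h1 : Tendsto (fun t : ℝ => |(P t / (Λ t : ℂ)).im - v.im / v.re * (P t / (Λ t : ℂ)).re|)
        (𝓝[≠] 0) (𝓝 |v.im - v.im / v.re * v.re|) :=
      (hlRim.sub (hlRre.const_mul _)).abs
    have h2 : |v.im - v.im / v.re * v.re| = 0 := by
      rw [div_mul_cancel₀ _ hvre.ne', sub_self, abs_zero]
    rw [h2] at h1
    have h3 : Tendsto (fun t : ℝ => ε * (P t / (Λ t : ℂ)).re) (𝓝[≠] 0) (𝓝 (ε * v.re)) :=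
      hlRre.const_mul ε
    have h4 : 0 < ε * v.re := by positivity
    filter_upwards [h1.eventually_lt h3 h4, hΛR] with t ht1 ht2
    rw [Complex.div_ofReal_re, Complex.div_ofReal_im, mul_div_assoc', mul_div_assoc', ← sub_div,
      abs_div, abs_of_pos ht2, div_lt_div_iff_of_pos_right ht2] at ht1
    exact ht1.le

end Pool.Agent.Lib.MP_354547_an
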