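import Mathlib
import Pool.Agent.Lib.MP_354547_an.StrictDeriv

set_option autoImplicit false

open Complex Metric Set Filter Topology ComplexConjugate

namespace Pool.Agent.Lib.MP_354547_an

/-- The closed epigraph. -/
def CEpi (f : ℝ → ℝ) : Set ℂ := {z | f z.re ≤ z.im}

lemma Epi_subset_CEpi (f : ℝ → ℝ) : Epi f ⊆ CEpi f := by
  intro z hz
  have hz' : f z.re < z.im := hz
  exact hz'.le

theorem core_zero {f : ℝ → ℝ} {L r c : ℝ} {α : ℂ} {H : ℂ → ℂ}
    (hf : ∀ x y, |f x - f y| ≤ L * |x - y|) (hL : 0 ≤ L) (hf0 : f 0 = 0) (hr : 0 < r)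
    (hα : α ≠ 0) (hHc : ContinuousOn H (CEpi f ∩ ball 0 r))
    (hHd : DifferentiableOn ℂ H (Epi f ∩ ball 0 r))
    (hH : ∀ z ∈ ball (0 : ℂ) r, z.im = f z.re → H z = ((((α * z).re + c) ^ 2 : ℝ) : ℂ)) :
    ∃ β : ℝ, StrD f 0 β := by
  obtain ⟨Ψ, κ, c', hκ0, hκ1, hc', hΨd, hΨc, hΨm, hΨ0, hΨb, hΨs, hΨl⟩ := exists_param hf hL hf0
  -- choose the radius
  have h0 : (0 : ℂ) ∈ CHP := by simp [CHP]
  have hcont : Tendsto Ψ (𝓝[CHP] 0) (𝓝 0) := by
    have := hΨc 0 h0
    unfold ContinuousWithinAt at this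
    rwa [hΨ0] at this
  have hev : ∀ᶠ z in 𝓝[CHP] (0 : ℂ), Ψ z ∈ ball (0 : ℂ) r := hcont.eventually (ball_mem_nhds 0 hr)
  rw [eventually_nhdsWithin_iff] at hev
  obtain ⟨ρ, hρ, hball⟩ := Metric.eventually_nhds_iff_ball.1 hev
  have hmem1 : MapsTo Ψ (HP ∩ ball 0 ρ) (Epi f ∩ ball 0 r) := by
    rintro z ⟨hz1, hz2⟩
    exact ⟨hΨm hz1, hball z hz2 (HP_subset_CHP hz1)⟩
  have hmem2 : MapsTo Ψ (CHP ∩ ball 0 ρ) (CEpi f ∩ ball 0 r) := by
    rintro z ⟨hz1, hz2⟩
    refine ⟨?_, hball z hz2 hz1⟩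
    rcases (show (0 : ℝ) ≤ z.im from hz1).lt_or_eq with h | h
    · exact Epi_subset_CEpi f (hΨm h)
    · have h1 : z = ((z.re : ℝ) : ℂ) := by
        apply Complex.ext <;> simp [← h]
      rw [h1]
      exact (hΨb z.re).ge
  obtain ⟨r₁, hr₁, -, A, B, hA, hB, hB0, hstr⟩ := local_structure (ψ := Ψ) (G := fun z => H (Ψ z))
    (α := α) (c := c) hρ hα
    (hΨc.mono inter_subset_left) (hΨd.mono inter_subset_left)
    (hHc.comp (hΨc.mono inter_subset_left) hmem2)
    (hHd.comp (hΨd.mono inter_subset_left) hmem1)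
    (by
      intro t ht
      refine hH _ ?_ (hΨb t)
      refine (hmem2 ⟨ofReal_mem_CHP t, ?_⟩).2
      rw [mem_ball_zero_iff, Complex.norm_real]
      exact ht)
  exact strD_of_structure hκ1 hc' hr₁ hΨc hΨ0 hΨb hΨs hΨl hA hB hB0 hstr

theorem core_point {f : ℝ → ℝ} {L r c : ℝ} {α : ℂ} {H : ℂ → ℂ} {x₀ : ℝ}
    (hf : ∀ x y, |f x - f y| ≤ L * |x - y|) (hL : 0 ≤ L)
    (hα : α ≠ 0) (hHc : ContinuousOn H (CEpi f ∩ ball 0 r))
    (hHd : DifferentiableOn ℂ H (Epi f ∩ ball 0 r))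
    (hH : ∀ z ∈ ball (0 : ℂ) r, z.im = f z.re → H z = ((((α * z).re + c) ^ 2 : ℝ) : ℂ))
    (hx₀ : ‖(x₀ + f x₀ * I : ℂ)‖ < r) :
    ∃ β : ℝ, StrD f x₀ β := by
  set p : ℂ := x₀ + f x₀ * I with hp
  set f₁ : ℝ → ℝ := fun x => f (x + x₀) - f x₀ with hf₁
  set r₁ : ℝ := r - ‖p‖ with hr₁
  have hr₁pos : 0 < r₁ := by rw [hr₁]; linarith
  have hpre : p.re = x₀ := by simp [hp]
  have hpim : p.im = f x₀ := by simp [hp]
  have hsubball : ∀ z ∈ ball (0 : ℂ) r₁, z + p ∈ ball (0 : ℂ) r := by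
    intro z hz
    rw [mem_ball_zero_iff] at hz ⊢
    calc ‖z + p‖ ≤ ‖z‖ + ‖p‖ := norm_add_le _ _
      _ < r := by rw [hr₁] at hz; linarith
  obtain ⟨β, hβ⟩ := core_zero (f := f₁) (L := L) (r := r₁) (c := c + (α * p).re) (α := α)
    (H := fun z => H (z + p)) (by
      intro x y
      have := hf (x + x₀) (y + x₀)
      simp only [hf₁]
      have e1 : f (x + x₀) - f x₀ - (f (y + x₀) - f x₀) = f (x + x₀) - f (y + x₀) := by ring
      have e2 : x + x₀ - (y + x₀) = x - y := by ring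
      rw [e1]
      rwa [e2] at this) hL (by simp [hf₁]) hr₁pos hα
    (by
      refine hHc.comp (by fun_prop) ?_
      rintro z ⟨hz1, hz2⟩
      refine ⟨?_, hsubball z hz2⟩
      have h1 : f (z.re + x₀) - f x₀ ≤ z.im := hz1
      show f (z + p).re ≤ (z + p).im
      rw [Complex.add_re, Complex.add_im, hpre, hpim]
      linarith)
    (by
      refine hHd.comp (by fun_prop) ?_
      rintro z ⟨hz1, hz2⟩
      refine ⟨?_, hsubball z hz2⟩
      have h1 : f (z.re + x₀) - f x₀ < z.im := hz1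
      show f (z + p).re < (z + p).im
      rw [Complex.add_re, Complex.add_im, hpre, hpim]
      linarith)
    (by
      intro z hz hzf
      have h1 : (z + p).im = f (z + p).re := by
        rw [Complex.add_re, Complex.add_im, hpre, hpim, hzf]
        simp only [hf₁]
        ring
      rw [hH _ (hsubball z hz) h1]
      congr 2
      rw [mul_add, Complex.add_re]
      ring)
  refine ⟨β, fun ε hε => ?_⟩
  obtain ⟨δ, hδ, hδ'⟩ := hβ ε hε
  refine ⟨δ, hδ, fun x y hx hy => ?_⟩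
  have h1 := hδ' (x - x₀) (y - x₀) (by simpa using hx) (by simpa using hy)
  simp only [hf₁, sub_add_cancel] at h1
  have e1 : f x - f x₀ - (f y - f x₀) - β * (x - x₀ - (y - x₀)) = f x - f y - β * (x - y) := by
    ring
  have e2 : x - x₀ - (y - x₀) = x - y := by ring
  rw [e1, e2] at h1
  exact h1

lemma StrD.hasDerivAt {f : ℝ → ℝ} {x₀ β : ℝ} (h : StrD f x₀ β) : HasDerivAt f β x₀ := by
  rw [hasDerivAt_iff_isLittleO, Asymptotics.isLittleO_iff]
  intro ε hε
  obtain ⟨δ, hδ, hδ'⟩ := h ε hε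
  filter_upwards [ball_mem_nhds x₀ hδ] with x hx
  rw [mem_ball, Real.dist_eq] at hx
  have := hδ' x x₀ hx (by simpa using hδ)
  rw [Real.norm_eq_abs, Real.norm_eq_abs, smul_eq_mul, mul_comm (x - x₀) β]
  exact this

/-- Pointwise strict differentiability near `0` gives a `C¹` function agreeing with `f`. -/
theorem exists_contDiff_of_strD {f : ℝ → ℝ} {s : ℝ} (hs : 0 < s)
    (h : ∀ x₀ : ℝ, |x₀| < s → ∃ β : ℝ, StrD f x₀ β) :
    ∃ g : ℝ → ℝ, ContDiff ℝ 1 g ∧ ∀ x : ℝ, |x| ≤ s / 2 → g x = f x := by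
  choose! β hβ using h
  have hβc : ContinuousOn β (Icc (-(s / 2)) (s / 2)) := by
    intro x₀ hx₀
    have hx₀' : |x₀| < s := lt_of_le_of_lt (abs_le.2 hx₀) (by linarith)
    apply ContinuousAt.continuousWithinAt
    rw [Metric.continuousAt_iff]
    intro ε hε
    obtain ⟨δ, hδ, hδ'⟩ := hβ x₀ hx₀' (ε / 2) (by positivity)
    refine ⟨min δ (s - |x₀|), lt_min hδ (by linarith), fun {x} hx => ?_⟩
    rw [Real.dist_eq] at hx ⊢
    have hx1 : |x - x₀| < δ := lt_of_lt_of_le hx (min_le_left _ _)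
    have hx2 : |x| < s := by
      have h1 := lt_of_lt_of_le hx (min_le_right _ _)
      have h2 : |x| ≤ |x - x₀| + |x₀| := by
        have := abs_add_le (x - x₀) x₀
        simpa using this
      linarith
    have hd := (hβ x hx2).hasDerivAt
    rw [hasDerivAt_iff_tendsto_slope] at hd
    have h3 : ∀ᶠ y in 𝓝[≠] x, |slope f x y - β x₀| ≤ ε / 2 := by
      have h4 : ∀ᶠ y in 𝓝 x, |y - x₀| < δ := by
        have : Continuous (fun y : ℝ => |y - x₀|) := by fun_prop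
        exact this.continuousAt.eventually (gt_mem_nhds hx1)
      filter_upwards [h4.filter_mono nhdsWithin_le_nhds, self_mem_nhdsWithin] with y hy hyx
      have hyx' : y - x ≠ 0 := sub_ne_zero.2 hyx
      have h5 := hδ' y x hy hx1
      rw [slope_def_field]
      have e : (f y - f x) / (y - x) - β x₀ = (f y - f x - β x₀ * (y - x)) / (y - x) := by
        field_simp
      rw [e, abs_div, div_le_iff₀ (abs_pos.2 hyx')]
      exact h5
    have h6 : Tendsto (fun y => |slope f x y - β x₀|) (𝓝[≠] x) (𝓝 |β x - β x₀|) :=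
      (hd.sub_const _).abs
    exact lt_of_le_of_lt (le_of_tendsto h6 h3) (by linarith)
  have hle : -(s / 2) ≤ s / 2 := by linarith
  set b : ℝ → ℝ := IccExtend hle ((Icc (-(s / 2)) (s / 2)).domRestrict β) with hb
  have hbc : Continuous b := by
    refine Continuous.Icc_extend' ?_
    exact continuousOn_iff_continuous_domRestrict.1 hβc
  have hbeq : ∀ x ∈ Icc (-(s / 2)) (s / 2), b x = β x := by
    intro x hx
    rw [hb, IccExtend_of_mem _ _ hx]
    rfl
  refine ⟨fun x => f 0 + ∫ t in (0 : ℝ)..x, b t, ?_, ?_⟩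
  · have hder : ∀ x, HasDerivAt (fun x => f 0 + ∫ t in (0 : ℝ)..x, b t) (b x) x := by
      intro x
      exact (intervalIntegral.integral_hasDerivAt_right (hbc.intervalIntegrable _ _)
        (hbc.stronglyMeasurableAtFilter _ _) hbc.continuousAt).const_add _
    rw [contDiff_one_iff_deriv]
    refine ⟨fun x => (hder x).differentiableAt, ?_⟩
    have : deriv (fun x => f 0 + ∫ t in (0 : ℝ)..x, b t) = b := by
      ext x; exact (hder x).deriv
    rw [this]
    exact hbc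
  · intro x hx
    have hsub : ∀ t ∈ uIcc 0 x, t ∈ Icc (-(s / 2)) (s / 2) := by
      intro t ht
      have h1 : uIcc 0 x ⊆ Icc (-(s / 2)) (s / 2) := by
        apply uIcc_subset_Icc
        · exact ⟨by linarith, by linarith⟩
        · exact abs_le.1 hx
      exact h1 ht
    have h2 : ∫ t in (0 : ℝ)..x, b t = f x - f 0 := by
      refine intervalIntegral.integral_eq_sub_of_hasDerivAt ?_ (hbc.intervalIntegrable _ _)
      intro t ht
      have ht' := hsub t ht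
      rw [hbeq t ht']
      exact (hβ t (lt_of_le_of_lt (abs_le.2 ht') (by linarith))).hasDerivAt
    simp only [h2]
    ring

/-- **Core theorem**. -/
theorem core {f : ℝ → ℝ} {L r c : ℝ} {α : ℂ} {H : ℂ → ℂ}
    (hf : ∀ x y, |f x - f y| ≤ L * |x - y|) (hL : 0 ≤ L) (hf0 : f 0 = 0) (hr : 0 < r)
    (hα : α ≠ 0) (hHc : ContinuousOn H (CEpi f ∩ ball 0 r))
    (hHd : DifferentiableOn ℂ H (Epi f ∩ ball 0 r))
    (hH : ∀ z ∈ ball (0 : ℂ) r, z.im = f z.re → H z = ((((α * z).re + c) ^ 2 : ℝ) : ℂ)) :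
    ∃ s > 0, ∃ g : ℝ → ℝ, ContDiff ℝ 1 g ∧ ∀ x : ℝ, |x| ≤ s → g x = f x := by
  set s : ℝ := r / (1 + L) with hs
  have hspos : 0 < s := by positivity
  obtain ⟨g, hg, hgf⟩ := exists_contDiff_of_strD (f := f) hspos (by
    intro x₀ hx₀
    refine core_point hf hL hα hHc hHd hH ?_
    have h1 : |f x₀| ≤ L * |x₀| := by
      have := hf x₀ 0
      simpa [hf0] using this
    calc ‖(x₀ + f x₀ * I : ℂ)‖ ≤ ‖(x₀ : ℂ)‖ + ‖(f x₀ * I : ℂ)‖ := norm_add_le _ _
      _ = |x₀| + |f x₀| := by simp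
      _ ≤ (1 + L) * |x₀| := by linarith
      _ < (1 + L) * s := by gcongr
      _ = r := by rw [hs]; field_simp)
  exact ⟨s / 2, by positivity, g, hg, hgf⟩

end Pool.Agent.Lib.MP_354547_an
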