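import Mathlib

set_option autoImplicit false

open Metric Set Filter Topology MeasureTheory ContinuousLinearMap
open scoped Convolution

namespace Pool.Agent.Lib.MP_354547_an

/-- The Euclidean plane. -/
abbrev E2 := EuclideanSpace ℝ (Fin 2)

/-- Standard basis vectors. -/
noncomputable abbrev ee (i : Fin 2) : E2 := EuclideanSpace.single i (1 : ℝ)

/-- The standard isometry from the complex plane. -/
noncomputable abbrev T₀ : ℂ ≃ₗᵢ[ℝ] E2 := Complex.orthonormalBasisOneI.repr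

lemma T₀_zero (z : ℂ) : T₀ z 0 = z.re := by simp

lemma T₀_one (z : ℂ) : T₀ z 1 = z.im := by simp

lemma T₀_apply_one : T₀ 1 = ee 0 := by
  ext i
  fin_cases i <;> simp

lemma T₀_apply_I : T₀ Complex.I = ee 1 := by
  ext i
  fin_cases i <;> simp

lemma fderiv_conv_right {w η : E2 → ℝ} (hw : LocallyIntegrable w) (hη : ContDiff ℝ 1 η)
    (hηc : HasCompactSupport η) (x e : E2) :
    fderiv ℝ (w ⋆[lsmul ℝ ℝ, volume] η) x e =
      (w ⋆[lsmul ℝ ℝ, volume] (fun y => fderiv ℝ η y e)) x := by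
  rw [(hηc.hasFDerivAt_convolution_right (lsmul ℝ ℝ) hw hη x).fderiv,
    convolution_precompR_apply (lsmul ℝ ℝ) hw (hηc.fderiv ℝ)
      (hη.continuous_fderiv one_ne_zero)]

lemma conv_comm (w η : E2 → ℝ) :
    (w ⋆[lsmul ℝ ℝ, volume] η) = (η ⋆[lsmul ℝ ℝ, volume] w) := by
  ext x
  rw [convolution_eq_swap, convolution_def]
  refine integral_congr_ae (Eventually.of_forall fun t => ?_)
  simp [mul_comm]

/-- Second derivatives of the mollification. -/
lemma fderiv_fderiv_conv {w η : E2 → ℝ} (hw : LocallyIntegrable w) (hη : ContDiff ℝ 2 η)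
    (hηc : HasCompactSupport η) (x e : E2) :
    fderiv ℝ (fun y => fderiv ℝ (w ⋆[lsmul ℝ ℝ, volume] η) y e) x e =
      (w ⋆[lsmul ℝ ℝ, volume] (fun y => fderiv ℝ (fun y => fderiv ℝ η y e) y e)) x := by
  have h1 : ContDiff ℝ 1 η := hη.of_le (by norm_num)
  have h2 : (fun y => fderiv ℝ (w ⋆[lsmul ℝ ℝ, volume] η) y e) =
      (w ⋆[lsmul ℝ ℝ, volume] (fun y => fderiv ℝ η y e)) := by
    ext y
    exact fderiv_conv_right hw h1 hηc y e
  rw [h2]
  have h3 : ContDiff ℝ 1 (fun y => fderiv ℝ η y e) :=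
    (hη.fderiv_right (m := 1) (by norm_num)).clm_apply contDiff_const
  have h4 : HasCompactSupport (fun y => fderiv ℝ η y e) := hηc.fderiv_apply ℝ e
  exact fderiv_conv_right hw h3 h4 x e

/-- Second derivatives of the reflected translate. -/
lemma fderiv_fderiv_sub {η : E2 → ℝ} (hη : ContDiff ℝ 2 η) (x t e : E2) :
    fderiv ℝ (fun s => fderiv ℝ (fun t => η (x - t)) s e) t e =
      fderiv ℝ (fun y => fderiv ℝ η y e) (x - t) e := by
  have h1 : (fun s => fderiv ℝ (fun t => η (x - t)) s e) = fun s => -(fderiv ℝ η (x - s) e) := by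
    ext s
    have h2 : HasFDerivAt (fun t : E2 => x - t) (-(ContinuousLinearMap.id ℝ E2)) s :=
      (hasFDerivAt_id s).const_sub x
    have h3 : HasFDerivAt η (fderiv ℝ η (x - s)) (x - s) :=
      (hη.differentiable (by norm_num)).differentiableAt.hasFDerivAt
    have h4 := h3.comp s h2
    have h5 : fderiv ℝ (fun t => η (x - t)) s = (fderiv ℝ η (x - s)).comp
        (-(ContinuousLinearMap.id ℝ E2)) := h4.fderiv
    rw [h5]
    simp
  rw [h1]
  have h3 : ContDiff ℝ 1 (fun y => fderiv ℝ η y e) :=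
    (hη.fderiv_right (m := 1) (by norm_num)).clm_apply contDiff_const
  have h2 : HasFDerivAt (fun t : E2 => x - t) (-(ContinuousLinearMap.id ℝ E2)) t :=
    (hasFDerivAt_id t).const_sub x
  have h4 : HasFDerivAt (fun y => fderiv ℝ η y e) (fderiv ℝ (fun y => fderiv ℝ η y e) (x - t))
      (x - t) :=
    (h3.differentiable (by norm_num)).differentiableAt.hasFDerivAt
  have h5 := (h4.comp t h2).neg
  have h6 : fderiv ℝ (fun s => -(fderiv ℝ η (x - s) e)) t =
      -((fderiv ℝ (fun y => fderiv ℝ η y e) (x - t)).comp (-(ContinuousLinearMap.id ℝ E2))) :=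
    h5.fderiv
  rw [h6]
  simp

/-- The complex function attached to the gradient of `v`. -/
noncomputable def hfun (v : E2 → ℝ) (ζ : ℂ) : ℂ :=
  ((ζ.re ^ 2 : ℝ) : ℂ) - 2 * ((fderiv ℝ v (T₀ ζ) (ee 0) : ℂ) -
    Complex.I * (fderiv ℝ v (T₀ ζ) (ee 1) : ℂ))

/-- Cauchy-Riemann for a smooth solution of `Δ v = x₁`. -/
lemma differentiableAt_hfun {v : E2 → ℝ} (hv : ContDiff ℝ 2 v) {ζ : ℂ}
    (hlap : ∑ i : Fin 2, fderiv ℝ (fun y => fderiv ℝ v y (ee i)) (T₀ ζ) (ee i) = (T₀ ζ) 0) :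
    DifferentiableAt ℂ (hfun v) ζ := by
  have hg : ∀ i : Fin 2, ContDiff ℝ 1 (fun y => fderiv ℝ v y (ee i)) := fun i =>
    (hv.fderiv_right (m := 1) (by norm_num)).clm_apply contDiff_const
  have hgd : ∀ i : Fin 2, HasFDerivAt (fun y => fderiv ℝ v y (ee i))
      (fderiv ℝ (fun y => fderiv ℝ v y (ee i)) (T₀ ζ)) (T₀ ζ) := fun i =>
    ((hg i).differentiable (by norm_num)).differentiableAt.hasFDerivAt
  have hT : HasFDerivAt (fun z : ℂ => T₀ z) (T₀.toContinuousLinearEquiv : ℂ →L[ℝ] E2) ζ :=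
    T₀.toContinuousLinearEquiv.hasFDerivAt
  have hgT : ∀ i : Fin 2, HasFDerivAt (fun z : ℂ => fderiv ℝ v (T₀ z) (ee i))
      ((fderiv ℝ (fun y => fderiv ℝ v y (ee i)) (T₀ ζ)).comp
        (T₀.toContinuousLinearEquiv : ℂ →L[ℝ] E2)) ζ := fun i => (hgd i).comp ζ hT
  have hgC : ∀ i : Fin 2, HasFDerivAt (fun z : ℂ => (fderiv ℝ v (T₀ z) (ee i) : ℂ))
      (Complex.ofRealCLM.comp ((fderiv ℝ (fun y => fderiv ℝ v y (ee i)) (T₀ ζ)).comp
        (T₀.toContinuousLinearEquiv : ℂ →L[ℝ] E2))) ζ := fun i =>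
    Complex.ofRealCLM.hasFDerivAt.comp ζ (hgT i)
  have hre : HasFDerivAt (fun z : ℂ => ((z.re ^ 2 : ℝ) : ℂ))
      (Complex.ofRealCLM.comp ((2 * ζ.re) • Complex.reCLM)) ζ := by
    have h1 : HasFDerivAt (fun z : ℂ => z.re ^ 2) ((2 * ζ.re) • Complex.reCLM) ζ := by
      have h2 : HasFDerivAt (fun z : ℂ => z.re) Complex.reCLM ζ := Complex.reCLM.hasFDerivAt
      have h3 := h2.pow 2
      simpa using h3
    exact Complex.ofRealCLM.hasFDerivAt.comp ζ h1
  have htot := hre.sub (((hgC 0).sub ((hgC 1).const_mul Complex.I)).const_mul 2)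
  have htot' : HasFDerivAt (hfun v) _ ζ := htot
  rw [differentiableAt_complex_iff_differentiableAt_real]
  refine ⟨htot'.differentiableAt, ?_⟩
  rw [htot'.fderiv]
  -- symmetry of the second derivative
  have hsymm : fderiv ℝ (fun y => fderiv ℝ v y (ee 0)) (T₀ ζ) (ee 1) =
      fderiv ℝ (fun y => fderiv ℝ v y (ee 1)) (T₀ ζ) (ee 0) := by
    have h1 : ∀ e : E2, fderiv ℝ (fun y => fderiv ℝ v y e) (T₀ ζ) =
        (fderiv ℝ (fderiv ℝ v) (T₀ ζ)).flip e := by
      intro e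
      have h2 : HasFDerivAt (fderiv ℝ v) (fderiv ℝ (fderiv ℝ v) (T₀ ζ)) (T₀ ζ) :=
        (((hv.fderiv_right (m := 1) (by norm_num)).differentiable
          (by norm_num)).differentiableAt).hasFDerivAt
      have h3 := h2.clm_apply (hasFDerivAt_const e (T₀ ζ))
      rw [h3.fderiv]
      ext y
      simp
    rw [h1, h1]
    have h4 : IsSymmSndFDerivAt ℝ v (T₀ ζ) :=
      hv.contDiffAt.isSymmSndFDerivAt (by simp)
    simpa using h4 (ee 1) (ee 0)
  rw [Fin.sum_univ_two, T₀_zero] at hlap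
  have e1 : (T₀.toContinuousLinearEquiv : ℂ →L[ℝ] E2) 1 = ee 0 := T₀_apply_one
  have e2 : (T₀.toContinuousLinearEquiv : ℂ →L[ℝ] E2) Complex.I = ee 1 := T₀_apply_I
  simp only [sub_apply, comp_apply, smul_apply, e1, e2]
  set a := fderiv ℝ (fun y => fderiv ℝ v y (ee 0)) (T₀ ζ) (ee 0) with ha
  set b := fderiv ℝ (fun y => fderiv ℝ v y (ee 0)) (T₀ ζ) (ee 1) with hb
  set c := fderiv ℝ (fun y => fderiv ℝ v y (ee 1)) (T₀ ζ) (ee 0) with hc
  set d := fderiv ℝ (fun y => fderiv ℝ v y (ee 1)) (T₀ ζ) (ee 1) with hd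
  have h5 : (a : ℂ) + d = ζ.re := by exact_mod_cast hlap
  have h6 : (b : ℂ) = c := by exact_mod_cast hsymm
  simp
  linear_combination (2 * Complex.I) * h5 - 2 * h6 - 2 * c * Complex.I_sq

end Pool.Agent.Lib.MP_354547_an
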