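import Mathlib
import Pool.Agent.Lib.MP_354547_an.PDE1

set_option autoImplicit false

open Metric Set Filter Topology MeasureTheory ContinuousLinearMap
open scoped Convolution

namespace Pool.Agent.Lib.MP_354547_an

/-- The weak equation `Δ u = x₁ 1_D` in the ball of radius two. -/
def WeakEq (D : Set E2) (u : E2 → ℝ) : Prop :=
  ∀ φ : E2 → ℝ, ContDiff ℝ 2 φ → HasCompactSupport φ → tsupport φ ⊆ ball (0 : E2) 2 →
    ∫ x, u x * (∑ i : Fin 2,
        fderiv ℝ (fun y => fderiv ℝ φ y (EuclideanSpace.single i (1 : ℝ))) x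
          (EuclideanSpace.single i (1 : ℝ)))
      = ∫ x, x 0 * D.indicator (fun _ => (1 : ℝ)) x * φ x

lemma dd_eq_zero {η : E2 → ℝ} {y e : E2} (hy : y ∉ tsupport η) :
    fderiv ℝ (fun y => fderiv ℝ η y e) y e = 0 := by
  have h1 : η =ᶠ[𝓝 y] 0 := notMem_tsupport_iff_eventuallyEq.1 hy
  have h2 : (fun y => fderiv ℝ η y e) =ᶠ[𝓝 y] fun _ => (0 : ℝ) := by
    filter_upwards [h1.fderiv (𝕜 := ℝ)] with z hz
    rw [hz]
    have : fderiv ℝ (0 : E2 → ℝ) z = 0 := by
      have := fderiv_const (𝕜 := ℝ) (E := E2) (F := ℝ) (0 : ℝ)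
      exact congrFun this z
    rw [this]; rfl
  rw [h2.fderiv_eq]
  simp

/-- Laplacian of the mollification. -/
lemma laplacian_mollify {D : Set E2} {u w : E2 → ℝ} (hweak : WeakEq D u)
    (φ : ContDiffBump (0 : E2)) {x : E2} (hw : Continuous w)
    (hwc : HasCompactSupport w)
    (hD : closedBall x φ.rOut ⊆ D) (hB : closedBall x φ.rOut ⊆ ball (0 : E2) 2)
    (hwu : ∀ t ∈ closedBall x φ.rOut, w t = u t) :
    ∑ i : Fin 2, fderiv ℝ (fun y => fderiv ℝ (w ⋆[lsmul ℝ ℝ, volume] φ.normed volume) y (ee i)) x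
      (ee i) = x 0 := by
  set η : E2 → ℝ := φ.normed volume with hη
  have hηs : ContDiff ℝ 2 η := φ.contDiff_normed (n := 2)
  have hηc : HasCompactSupport η := φ.hasCompactSupport_normed
  have hηt : tsupport η = closedBall (0 : E2) φ.rOut := φ.tsupport_normed_eq
  have hwl : LocallyIntegrable w volume := hw.locallyIntegrable
  have h1 : ∀ i : Fin 2, fderiv ℝ (fun y => fderiv ℝ (w ⋆[lsmul ℝ ℝ, volume] η) y (ee i)) x (ee i)
      = ∫ t, w t * fderiv ℝ (fun y => fderiv ℝ η y (ee i)) (x - t) (ee i) := by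
    intro i
    rw [fderiv_fderiv_conv hwl hηs hηc, convolution_def]
    simp
  simp only [h1]
  have hcont : ∀ i : Fin 2, Continuous (fun t => fderiv ℝ (fun y => fderiv ℝ η y (ee i)) (x - t)
      (ee i)) := by
    intro i
    have h3 : ContDiff ℝ 1 (fun y => fderiv ℝ η y (ee i)) :=
      (hηs.fderiv_right (m := 1) (by norm_num)).clm_apply contDiff_const
    have h4 : Continuous (fun y => fderiv ℝ (fun y => fderiv ℝ η y (ee i)) y (ee i)) :=
      (h3.continuous_fderiv one_ne_zero).clm_apply continuous_const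
    exact h4.comp (continuous_const.sub continuous_id)
  have hint : ∀ i : Fin 2, Integrable
      (fun t => w t * fderiv ℝ (fun y => fderiv ℝ η y (ee i)) (x - t) (ee i)) := fun i =>
    (hw.mul (hcont i)).integrable_of_hasCompactSupport hwc.mul_right
  rw [← integral_finsetSum _ (fun i _ => hint i)]
  -- the test function
  set ψ : E2 → ℝ := fun t => η (x - t) with hψ
  have hψs : ContDiff ℝ 2 ψ := hηs.comp (contDiff_const.sub contDiff_id)
  have hψz : ∀ t, t ∉ closedBall x φ.rOut → ψ t = 0 := by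
    intro t ht
    have : x - t ∉ tsupport η := by
      rw [hηt, mem_closedBall_zero_iff, ← dist_eq_norm, dist_comm]
      exact ht
    exact (image_eq_zero_of_notMem_tsupport (f := η) this)
  have hψc : HasCompactSupport ψ := HasCompactSupport.intro (isCompact_closedBall x φ.rOut) hψz
  have hψt : tsupport ψ ⊆ closedBall x φ.rOut := by
    refine closure_minimal ?_ isClosed_closedBall
    intro t ht
    by_contra hcon
    exact ht (hψz t hcon)
  have h2 := hweak ψ hψs hψc (hψt.trans hB)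
  have h3 : ∫ t, ∑ i : Fin 2, w t * fderiv ℝ (fun y => fderiv ℝ η y (ee i)) (x - t) (ee i) =
      ∫ t, u t * (∑ i : Fin 2,
        fderiv ℝ (fun y => fderiv ℝ ψ y (EuclideanSpace.single i (1 : ℝ))) t
          (EuclideanSpace.single i (1 : ℝ))) := by
    refine integral_congr_ae (Eventually.of_forall fun t => ?_)
    simp only
    rw [← Finset.mul_sum]
    have h4 : ∀ i : Fin 2, fderiv ℝ (fun y => fderiv ℝ ψ y (EuclideanSpace.single i (1 : ℝ))) t
          (EuclideanSpace.single i (1 : ℝ)) =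
        fderiv ℝ (fun y => fderiv ℝ η y (ee i)) (x - t) (ee i) := fun i =>
      fderiv_fderiv_sub hηs x t (ee i)
    simp only [h4]
    by_cases ht : t ∈ closedBall x φ.rOut
    · rw [hwu t ht]
    · have h5 : x - t ∉ tsupport η := by
        rw [hηt, mem_closedBall_zero_iff, ← dist_eq_norm, dist_comm]
        exact ht
      simp only [dd_eq_zero h5, Finset.sum_const_zero, mul_zero]
  rw [h3, h2]
  have h6 : ∫ t, t 0 * D.indicator (fun _ => (1 : ℝ)) t * ψ t =
      ∫ t, (x 0 - (x - t) 0) * η (x - t) := by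
    refine integral_congr_ae (Eventually.of_forall fun t => ?_)
    simp only
    by_cases ht : t ∈ closedBall x φ.rOut
    · rw [indicator_of_mem (hD ht)]
      simp [hψ]
    · rw [hψz t ht]
      have : η (x - t) = 0 := hψz t ht
      rw [this]; simp
  rw [h6, integral_sub_left_eq_self (fun s : E2 => (x 0 - s 0) * η s) volume x]
  have hc0 : Continuous (fun s : E2 => s 0) := by fun_prop
  have h7 : Integrable (fun s : E2 => s 0 * η s) :=
    (hc0.mul hηs.continuous).integrable_of_hasCompactSupport hηc.mul_left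
  have h8 : Integrable (fun s : E2 => x 0 * η s) :=
    (continuous_const.mul hηs.continuous).integrable_of_hasCompactSupport hηc.mul_left
  have h9 : ∫ s : E2, s 0 * η s = 0 := by
    have h10 := integral_neg_eq_self (fun s : E2 => s 0 * η s) volume
    have h11 : ∀ s : E2, (-s) 0 * η (-s) = -(s 0 * η s) := by
      intro s
      have : η (-s) = η s := φ.normed_neg s
      rw [this]
      simp
    simp only [h11] at h10
    rw [integral_neg] at h10
    linarith
  have h12 : ∀ s : E2, (x 0 - s 0) * η s = x 0 * η s - s 0 * η s := fun s => by ring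
  simp only [h12]
  rw [integral_sub h8 h7, h9, integral_const_mul, sub_zero]
  have h13 : ∫ s, η s = 1 := φ.integral_normed
  rw [h13, mul_one]

lemma differentiableAt_hfun_of_weak {D : Set E2} {u : E2 → ℝ} (hweak : WeakEq D u)
    (hu : ContDiffOn ℝ 1 u (ball 0 2)) {ζ₀ : ℂ} {δ : ℝ} (hδ : 0 < δ)
    (hD : closedBall (T₀ ζ₀) (3 * δ) ⊆ D) (hB : closedBall (T₀ ζ₀) (3 * δ) ⊆ ball (0 : E2) 2) :
    DifferentiableAt ℂ (hfun u) ζ₀ := by
  set x₀ := T₀ ζ₀ with hx₀
  -- cutoff
  set χ : ContDiffBump x₀ := ⟨2 * δ, 3 * δ, by positivity, by linarith⟩ with hχ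
  set w : E2 → ℝ := fun x => χ x * u x with hw
  have hw1 : ContDiff ℝ 1 w := by
    rw [contDiff_iff_contDiffAt]
    intro x
    by_cases hx : x ∈ ball (0 : E2) 2
    · exact χ.contDiffAt.mul (hu.contDiffAt (isOpen_ball.mem_nhds hx))
    · have hx' : x ∉ tsupport χ := by
        rw [χ.tsupport_eq]
        intro h
        exact hx (hB h)
      have h1 : w =ᶠ[𝓝 x] fun _ => (0 : ℝ) := by
        filter_upwards [notMem_tsupport_iff_eventuallyEq.1 hx'] with y hy
        simp only [hw]
        rw [hy]; simp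
      exact contDiffAt_const.congr_of_eventuallyEq h1
  have hwc : HasCompactSupport w := χ.hasCompactSupport.mul_right
  have hwu : ∀ t ∈ closedBall x₀ (2 * δ), w t = u t := by
    intro t ht
    simp only [hw]
    rw [χ.one_of_mem_closedBall ht, one_mul]
  have hwf : ∀ t ∈ ball x₀ (2 * δ), fderiv ℝ w t = fderiv ℝ u t := by
    intro t ht
    apply Filter.EventuallyEq.fderiv_eq
    filter_upwards [isOpen_ball.mem_nhds ht] with s hs
    exact hwu s (ball_subset_closedBall hs)
  -- mollifiers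
  set φ : ℕ → ContDiffBump (0 : E2) := fun n =>
    ⟨δ / (2 * (n + 1)), δ / (n + 1), by positivity, by
      apply div_lt_div_of_pos_left hδ (by positivity)
      have : (0 : ℝ) < (n : ℝ) + 1 := by positivity
      linarith⟩ with hφ
  have hrOut : ∀ n, (φ n).rOut = δ / (n + 1) := fun n => rfl
  have hrOutle : ∀ n, (φ n).rOut ≤ δ := by
    intro n
    rw [hrOut, div_le_iff₀ (by positivity)]
    have : (0 : ℝ) ≤ (n : ℝ) := by positivity
    nlinarith
  have hrOut0 : Tendsto (fun n => (φ n).rOut) atTop (𝓝 0) := by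
    simp only [hrOut]
    have := (tendsto_one_div_add_atTop_nhds_zero_nat (𝕜 := ℝ)).const_mul δ
    rw [mul_zero] at this
    refine this.congr fun n => ?_
    ring
  set v : ℕ → E2 → ℝ := fun n => (w ⋆[lsmul ℝ ℝ, volume] (φ n).normed volume) with hv
  have hvs : ∀ n, ContDiff ℝ 2 (v n) := by
    intro n
    exact (φ n).hasCompactSupport_normed.contDiff_convolution_right (lsmul ℝ ℝ) (n := 2)
      hw1.continuous.locallyIntegrable (φ n).contDiff_normed
  have hball : ∀ ζ ∈ ball ζ₀ δ, T₀ ζ ∈ ball x₀ δ := by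
    intro ζ hζ
    rw [mem_ball] at hζ ⊢
    rw [hx₀, T₀.dist_map]
    exact hζ
  have hlap : ∀ n, ∀ ζ ∈ ball ζ₀ δ, DifferentiableAt ℂ (hfun (v n)) ζ := by
    intro n ζ hζ
    have h1 := hball ζ hζ
    have hsub : closedBall (T₀ ζ) (φ n).rOut ⊆ closedBall x₀ (2 * δ) := by
      intro t ht
      rw [mem_closedBall] at ht ⊢
      rw [mem_ball] at h1
      calc dist t x₀ ≤ dist t (T₀ ζ) + dist (T₀ ζ) x₀ := dist_triangle _ _ _
        _ ≤ 2 * δ := by linarith [hrOutle n]
    have hsub3 : closedBall x₀ (2 * δ) ⊆ closedBall x₀ (3 * δ) :=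
      closedBall_subset_closedBall (by linarith)
    refine differentiableAt_hfun (hvs n) ?_
    exact laplacian_mollify hweak (φ n) hw1.continuous hwc ((hsub.trans hsub3).trans hD)
      ((hsub.trans hsub3).trans hB) (fun t ht => hwu t (hsub ht))
  -- convergence of the gradients
  have hgrad : ∀ e : E2, ∀ ε > 0, ∀ᶠ n in atTop, ∀ x : E2,
      |fderiv ℝ (v n) x e - fderiv ℝ w x e| ≤ ε := by
    intro e ε hε
    have hgc : Continuous (fun y => fderiv ℝ w y e) :=
      (hw1.continuous_fderiv one_ne_zero).clm_apply continuous_const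
    have hgs : HasCompactSupport (fun y => fderiv ℝ w y e) := hwc.fderiv_apply ℝ e
    have huc : UniformContinuous (fun y => fderiv ℝ w y e) :=
      hgs.uniformContinuous_of_continuous hgc
    obtain ⟨δ', hδ', hδ''⟩ := Metric.uniformContinuous_iff.1 huc ε hε
    filter_upwards [hrOut0.eventually (gt_mem_nhds hδ')] with n hn x
    have h1 : fderiv ℝ (v n) x e =
        ((φ n).normed volume ⋆[lsmul ℝ ℝ, volume] (fun y => fderiv ℝ w y e)) x := by
      simp only [hv]
      rw [conv_comm]
      exact fderiv_conv_right (φ n).continuous_normed.locallyIntegrable hw1 hwc x e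
    rw [h1]
    have h2 := (φ n).dist_normed_convolution_le (μ := volume) (x₀ := x) (ε := ε)
      (g := fun y => fderiv ℝ w y e) hgc.aestronglyMeasurable (by
        intro y hy
        rw [mem_ball] at hy
        exact (hδ'' (lt_trans hy hn)).le)
    rw [Real.dist_eq] at h2
    exact h2
  have hunif : TendstoUniformlyOn (fun n => hfun (v n)) (hfun w) atTop (ball ζ₀ δ) := by
    rw [Metric.tendstoUniformlyOn_iff]
    intro ε hε
    filter_upwards [hgrad (ee 0) (ε / 8) (by positivity), hgrad (ee 1) (ε / 8) (by positivity)]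
      with n h0 h1 ζ hζ
    have h0' := h0 (T₀ ζ)
    have h1' := h1 (T₀ ζ)
    rw [dist_eq_norm]
    have e1 : hfun w ζ - hfun (v n) ζ =
        2 * (((fderiv ℝ (v n) (T₀ ζ) (ee 0) - fderiv ℝ w (T₀ ζ) (ee 0) : ℝ) : ℂ) -
          Complex.I * ((fderiv ℝ (v n) (T₀ ζ) (ee 1) - fderiv ℝ w (T₀ ζ) (ee 1) : ℝ) : ℂ)) := by
      simp only [hfun]
      push_cast
      ring
    rw [e1, norm_mul]
    have h2 : ‖((fderiv ℝ (v n) (T₀ ζ) (ee 0) - fderiv ℝ w (T₀ ζ) (ee 0) : ℝ) : ℂ) -
          Complex.I * ((fderiv ℝ (v n) (T₀ ζ) (ee 1) - fderiv ℝ w (T₀ ζ) (ee 1) : ℝ) : ℂ)‖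
        ≤ ε / 8 + ε / 8 := by
      refine (norm_sub_le _ _).trans ?_
      rw [norm_mul, Complex.norm_I, one_mul, Complex.norm_real, Complex.norm_real]
      exact add_le_add h0' h1'
    have h3 : ‖(2 : ℂ)‖ = 2 := by simp
    rw [h3]
    linarith
  have hdiff : DifferentiableOn ℂ (hfun w) (ball ζ₀ δ) :=
    hunif.tendstoLocallyUniformlyOn.differentiableOn
      (Eventually.of_forall fun n ζ hζ => (hlap n ζ hζ).differentiableWithinAt) isOpen_ball
  have h1 : DifferentiableAt ℂ (hfun w) ζ₀ :=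
    hdiff.differentiableAt (isOpen_ball.mem_nhds (mem_ball_self hδ))
  refine h1.congr_of_eventuallyEq ?_
  filter_upwards [isOpen_ball.mem_nhds (mem_ball_self hδ : ζ₀ ∈ ball ζ₀ δ)] with ζ hζ
  have h2 : T₀ ζ ∈ ball x₀ (2 * δ) := ball_subset_ball (by linarith) (hball ζ hζ)
  simp only [hfun]
  rw [hwf _ h2]

end Pool.Agent.Lib.MP_354547_an
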