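import Mathlib
import Pool.Agent.Lib.MP_354547_an.Core
import Pool.Agent.Lib.MP_354547_an.PDE2

set_option autoImplicit false

open Metric Set Filter Topology MeasureTheory ComplexConjugate

namespace Pool.Agent.Lib.MP_354547_an

lemma continuousOn_fderiv_of_lip {u : E2 → ℝ}
    (hlip : ∀ s : ℝ, s < 2 → ∃ C : NNReal,
      LipschitzOnWith C (fderiv ℝ u) (closedBall (0 : E2) s)) :
    ContinuousOn (fderiv ℝ u) (ball (0 : E2) 2) := by
  intro x hx
  rw [mem_ball_zero_iff] at hx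
  obtain ⟨C, hC⟩ := hlip ((‖x‖ + 2) / 2) (by linarith)
  have hnb : closedBall (0 : E2) ((‖x‖ + 2) / 2) ∈ 𝓝 x := by
    refine mem_of_superset (isOpen_ball.mem_nhds (?_ : x ∈ ball (0 : E2) ((‖x‖ + 2) / 2)))
      ball_subset_closedBall
    rw [mem_ball_zero_iff]
    linarith
  exact (hC.continuousOn.continuousAt hnb).continuousWithinAt

lemma contDiffOn_of_lip {u : E2 → ℝ} (hd : DifferentiableOn ℝ u (ball (0 : E2) 2))
    (hlip : ∀ s : ℝ, s < 2 → ∃ C : NNReal,
      LipschitzOnWith C (fderiv ℝ u) (closedBall (0 : E2) s)) :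
    ContDiffOn ℝ 1 u (ball (0 : E2) 2) := by
  have h1 : (1 : WithTop ℕ∞) = 0 + 1 := by norm_num
  rw [h1, contDiffOn_succ_iff_fderiv_of_isOpen isOpen_ball]
  refine ⟨hd, by simp, ?_⟩
  rw [contDiffOn_zero]
  exact continuousOn_fderiv_of_lip hlip

lemma continuousAt_hfun {u : E2 → ℝ} (hc : ContinuousOn (fderiv ℝ u) (ball (0 : E2) 2)) {ζ : ℂ}
    (hζ : ‖ζ‖ < 2) : ContinuousAt (hfun u) ζ := by
  have hmem : T₀ ζ ∈ ball (0 : E2) 2 := by
    rw [mem_ball_zero_iff, T₀.norm_map]; exact hζ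
  have h1 : ContinuousAt (fderiv ℝ u) (T₀ ζ) := hc.continuousAt (isOpen_ball.mem_nhds hmem)
  have h2 : ContinuousAt (fun ζ : ℂ => fderiv ℝ u (T₀ ζ)) ζ :=
    h1.comp T₀.continuous.continuousAt
  have h3 : ∀ i : Fin 2, ContinuousAt (fun ζ : ℂ => ((fderiv ℝ u (T₀ ζ) (ee i) : ℝ) : ℂ)) ζ := by
    intro i
    have h4 : ContinuousAt (fun ζ : ℂ => fderiv ℝ u (T₀ ζ) (ee i)) ζ :=
      h2.clm_apply continuousAt_const
    exact Complex.continuous_ofReal.continuousAt.comp h4
  unfold hfun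
  refine ContinuousAt.sub ?_ (continuousAt_const.mul ((h3 0).sub (continuousAt_const.mul (h3 1))))
  have : Continuous (fun ζ : ℂ => ((ζ.re ^ 2 : ℝ) : ℂ)) := by fun_prop
  exact this.continuousAt

theorem main_thm (D : Set E2) (u : E2 → ℝ) (hDo : IsOpen D) (h0 : (0 : E2) ∈ frontier D)
    (hgr : ∃ r : ℝ, 0 < r ∧ ∃ R : E2 ≃ₗᵢ[ℝ] E2, ∃ f : ℝ → ℝ, ∃ L : NNReal, LipschitzWith L f ∧
        ∀ x ∈ ball (0 : E2) r, (x ∈ D ↔ f ((R x) 0) < (R x) 1))
    (hud : DifferentiableOn ℝ u (ball (0 : E2) 2))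
    (hulip : ∀ s : ℝ, s < 2 → ∃ C : NNReal,
      LipschitzOnWith C (fderiv ℝ u) (closedBall (0 : E2) s))
    (hweak : WeakEq D u)
    (hu0 : ∀ x ∈ ball (0 : E2) 2, x ∉ closure D → u x = 0) :
    ∃ ρ : ℝ, 0 < ρ ∧ ∃ R : E2 ≃ₗᵢ[ℝ] E2, ∃ g : ℝ → ℝ, ContDiff ℝ 1 g ∧
        ∀ x ∈ ball (0 : E2) ρ, (x ∈ D ↔ g ((R x) 0) < (R x) 1) := by
  obtain ⟨r, hr, R, f, L, hfL, hDf⟩ := hgr
  have hf : ∀ x y, |f x - f y| ≤ (L : ℝ) * |x - y| := by
    intro x y
    have := hfL.dist_le_mul x y
    rwa [Real.dist_eq, Real.dist_eq] at this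
  have hL : (0 : ℝ) ≤ L := L.2
  have hfc := continuous_of_lip hf
  have hcR0 : Continuous (fun x : E2 => (R x) 0) := by fun_prop
  have hcR1 : Continuous (fun x : E2 => (R x) 1) := by fun_prop
  have h0D : (0 : E2) ∉ D := by
    rw [hDo.frontier_eq] at h0
    exact h0.2
  have h0cl : (0 : E2) ∈ closure D := frontier_subset_closure h0
  have hf0 : f 0 = 0 := by
    refine le_antisymm ?_ ?_
    · by_contra hlt
      push Not at hlt
      have hopen : IsOpen {x : E2 | (R x) 1 < f ((R x) 0)} :=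
        isOpen_lt hcR1 (hfc.comp hcR0)
      have hmem : (0 : E2) ∈ {x : E2 | (R x) 1 < f ((R x) 0)} ∩ ball 0 r := by
        refine ⟨?_, mem_ball_self hr⟩
        simpa using hlt
      obtain ⟨x, ⟨hx1, hx2⟩, hx3⟩ := mem_closure_iff.1 h0cl _ (hopen.inter isOpen_ball) hmem
      have h1 := (hDf x hx2).1 hx3
      have h2 : (R x) 1 < f ((R x) 0) := hx1
      linarith
    · have h1 : ¬ (f ((R 0) 0) < (R 0) 1) := fun h => h0D ((hDf 0 (mem_ball_self hr)).2 h)
      simpa using h1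
  -- the isometry of the complex plane
  set A : ℂ ≃ₗᵢ[ℝ] ℂ := T₀.trans (R.symm.trans T₀.symm) with hA
  have hTA : ∀ z : ℂ, T₀ (A z) = R.symm (T₀ z) := by
    intro z
    show T₀ (T₀.symm (R.symm (T₀ z))) = R.symm (T₀ z)
    exact T₀.apply_symm_apply _
  have hRTA : ∀ z : ℂ, R (T₀ (A z)) = T₀ z := by
    intro z
    rw [hTA]; simp
  set r₀ : ℝ := min r 1 with hr₀
  have hr₀pos : 0 < r₀ := lt_min hr one_pos
  have hballr : ∀ z ∈ ball (0 : ℂ) r₀, T₀ (A z) ∈ ball (0 : E2) r := by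
    intro z hz
    rw [mem_ball_zero_iff] at hz ⊢
    rw [T₀.norm_map, A.norm_map]
    exact lt_of_lt_of_le hz (min_le_left _ _)
  have hball2 : ∀ z ∈ ball (0 : ℂ) r₀, T₀ (A z) ∈ ball (0 : E2) 2 := by
    intro z hz
    rw [mem_ball_zero_iff] at hz ⊢
    rw [T₀.norm_map, A.norm_map]
    have := lt_of_lt_of_le hz (min_le_right _ _)
    linarith
  have hDz : ∀ z ∈ ball (0 : ℂ) r₀, (T₀ (A z) ∈ D ↔ f z.re < z.im) := by
    intro z hz
    rw [hDf _ (hballr z hz), hRTA]
    simp
  have hfdc := continuousOn_fderiv_of_lip hulip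
  have huC := contDiffOn_of_lip hud hulip
  -- differentiability of `hfun u`
  have hdiff : ∀ z ∈ Epi f ∩ ball (0 : ℂ) r₀, DifferentiableAt ℂ (hfun u) (A z) := by
    rintro z ⟨hz1, hz2⟩
    have hmem : T₀ (A z) ∈ D ∩ ball (0 : E2) 2 := ⟨(hDz z hz2).2 hz1, hball2 z hz2⟩
    obtain ⟨δ, hδ, hδ'⟩ := Metric.isOpen_iff.1 (hDo.inter isOpen_ball) _ hmem
    have hsub : closedBall (T₀ (A z)) (3 * (δ / 4)) ⊆ ball (T₀ (A z)) δ :=
      closedBall_subset_ball (by linarith)
    exact differentiableAt_hfun_of_weak hweak huC (by positivity : 0 < δ / 4)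
      (fun x hx => (hδ' (hsub hx)).1) (fun x hx => (hδ' (hsub hx)).2)
  -- continuity
  have hcontA : ∀ z ∈ ball (0 : ℂ) r₀, ContinuousAt (hfun u) (A z) := by
    intro z hz
    refine continuousAt_hfun hfdc ?_
    have := hball2 z hz
    rw [mem_ball_zero_iff, T₀.norm_map] at this
    exact this
  -- the gradient vanishes on the graph
  have hgrad : ∀ z ∈ ball (0 : ℂ) r₀, z.im = f z.re → fderiv ℝ u (T₀ (A z)) = 0 := by
    intro z hz hzf
    -- exterior points
    have hext : ∀ v ∈ ball (0 : ℂ) r₀, v.im < f v.re → fderiv ℝ u (T₀ (A v)) = 0 := by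
      intro v hv hvf
      set V : Set E2 := {x : E2 | (R x) 1 < f ((R x) 0)} ∩ ball 0 r with hV
      have hVo : IsOpen V := (isOpen_lt hcR1 (hfc.comp hcR0)).inter isOpen_ball
      have hvV : T₀ (A v) ∈ V := by
        refine ⟨?_, hballr v hv⟩
        show (R (T₀ (A v))) 1 < f ((R (T₀ (A v))) 0)
        rw [hRTA]
        simpa using hvf
      have hVD : ∀ x ∈ V, x ∉ closure D := by
        intro x hx hxcl
        obtain ⟨y, ⟨hy1, hy2⟩, hy3⟩ := mem_closure_iff.1 hxcl V hVo hx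
        have h1 := (hDf y hy2).1 hy3
        have h2 : (R y) 1 < f ((R y) 0) := hy1
        linarith
      have h1 : u =ᶠ[𝓝 (T₀ (A v))] fun _ => (0 : ℝ) := by
        filter_upwards [hVo.mem_nhds hvV, isOpen_ball.mem_nhds (hball2 v hv)] with x hx hx2
        exact hu0 x hx2 (hVD x hx)
      rw [h1.fderiv_eq]
      simp
    -- limit from below
    have hlim : Tendsto (fun t : ℝ => z - (t : ℂ) * Complex.I) (𝓝[>] 0) (𝓝 z) := by
      have : Continuous (fun t : ℝ => z - (t : ℂ) * Complex.I) := by fun_prop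
      have h1 := this.tendsto 0
      simp only [Complex.ofReal_zero, zero_mul, sub_zero] at h1
      exact h1.mono_left nhdsWithin_le_nhds
    have hcz : ContinuousAt (fun z : ℂ => fderiv ℝ u (T₀ (A z))) z := by
      have h1 : ContinuousAt (fderiv ℝ u) (T₀ (A z)) :=
        hfdc.continuousAt (isOpen_ball.mem_nhds (hball2 z hz))
      have h2 : ContinuousAt (fun z : ℂ => T₀ (A z)) z :=
        (T₀.continuous.comp A.continuous).continuousAt
      exact ContinuousAt.comp (f := fun z : ℂ => T₀ (A z)) (g := fderiv ℝ u) h1 h2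
    have h2 : Tendsto (fun t : ℝ => fderiv ℝ u (T₀ (A (z - (t : ℂ) * Complex.I)))) (𝓝[>] 0)
        (𝓝 (fderiv ℝ u (T₀ (A z)))) := hcz.tendsto.comp hlim
    have h3 : Tendsto (fun t : ℝ => fderiv ℝ u (T₀ (A (z - (t : ℂ) * Complex.I)))) (𝓝[>] 0)
        (𝓝 0) := by
      refine tendsto_const_nhds.congr' ?_
      filter_upwards [hlim.eventually (isOpen_ball.mem_nhds hz), self_mem_nhdsWithin] with t ht ht0
      have ht0' : (0 : ℝ) < t := ht0
      refine (hext _ ht ?_).symm
      simp [hzf, ht0']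
    exact tendsto_nhds_unique h2 h3
  have hval : ∀ z ∈ ball (0 : ℂ) r₀, z.im = f z.re → hfun u (A z) = (((A z).re ^ 2 : ℝ) : ℂ) := by
    intro z hz hzf
    simp only [hfun]
    rw [hgrad z hz hzf]
    simp
  -- conclude through the core theorem
  obtain ⟨s, hs, g, hg, hgf⟩ : ∃ s > 0, ∃ g : ℝ → ℝ, ContDiff ℝ 1 g ∧
      ∀ x : ℝ, |x| ≤ s → g x = f x := by
    obtain ⟨a, ha⟩ := linear_isometry_complex A
    rcases ha with ha | ha
    · have hAz : ∀ z, A z = (a : ℂ) * z := by
        intro z; rw [ha]; exact rotation_apply a z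
      refine core (H := fun z => hfun u (A z)) (c := 0) (α := (a : ℂ)) hf hL hf0 hr₀pos
        (Circle.coe_ne_zero a) ?_ ?_ ?_
      · rintro z ⟨-, hz⟩
        exact ((hcontA z hz).comp A.continuous.continuousAt).continuousWithinAt
      · intro z hz
        have h1 := hdiff z hz
        have h2 : DifferentiableAt ℂ (fun z : ℂ => A z) z := by
          have : (fun z : ℂ => A z) = fun z : ℂ => (a : ℂ) * z := by ext z; exact hAz z
          rw [this]
          fun_prop
        exact (h1.comp z h2).differentiableWithinAt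
      · intro z hz hzf
        rw [hval z hz hzf, hAz z, add_zero]
    · have hAz : ∀ z, A z = (a : ℂ) * conj z := by
        intro z; rw [ha]
        simp [rotation_apply]
      refine core (H := fun z => conj (hfun u (A z))) (c := 0) (α := conj (a : ℂ)) hf hL hf0 hr₀pos
        ?_ ?_ ?_ ?_
      · rw [Ne, map_eq_zero]
        exact Circle.coe_ne_zero a
      · rintro z ⟨-, hz⟩
        refine ContinuousAt.continuousWithinAt ?_
        exact Complex.continuous_conj.continuousAt.comp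
          ((hcontA z hz).comp A.continuous.continuousAt)
      · intro z hz
        have h1 := hdiff z hz
        rw [hAz z] at h1
        have h2 : DifferentiableAt ℂ (fun v : ℂ => (a : ℂ) * v) (conj z) := by fun_prop
        have h3 : DifferentiableAt ℂ (fun v : ℂ => hfun u ((a : ℂ) * v)) (conj z) :=
          h1.comp (conj z) h2
        have h4 := h3.conj_conj
        rw [Complex.conj_conj] at h4
        refine DifferentiableAt.differentiableWithinAt (h4.congr_of_eventuallyEq ?_)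
        refine Eventually.of_forall fun v => ?_
        simp [hAz v]
      · intro z hz hzf
        rw [hval z hz hzf, Complex.conj_ofReal, hAz z, add_zero]
        have : ((a : ℂ) * conj z).re = (conj (a : ℂ) * z).re := by
          simp
        rw [this]
  refine ⟨min r s, lt_min hr hs, R, g, hg, ?_⟩
  intro x hx
  rw [mem_ball_zero_iff] at hx
  have h1 : x ∈ ball (0 : E2) r := by
    rw [mem_ball_zero_iff]; exact lt_of_lt_of_le hx (min_le_left _ _)
  have h2 : |(R x) 0| ≤ s := by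
    have h3 : |(R x) 0| ≤ ‖R x‖ := by
      have := PiLp.norm_apply_le (R x) 0
      simpa using this
    rw [R.norm_map] at h3
    exact h3.trans (hx.le.trans (min_le_right _ _))
  rw [hDf x h1, hgf _ h2]

end Pool.Agent.Lib.MP_354547_an
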