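import Mathlib

set_option autoImplicit false

/-!
Definitions for the own statement of MP_354547_an: Lipschitz domains, functions of class
`C^{1,1}_loc`, the equation `Δ u = x₁ χ_D` (almost everywhere or in the sense of distributions)
and free boundaries of class `C¹`.
-/

open Metric MeasureTheory
open scoped ContDiff

namespace Pool.Agent.Lib.MP_354547_an.Own

/-- The Euclidean plane; `x 0` and `x 1` are the two coordinates (called `x₁`, `x₂` in the text). -/
abbrev Plane : Type := EuclideanSpace ℝ (Fin 2)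

/-- Near the point `p` the set `D` is a Lipschitz domain: in a ball around `p`, and in the
coordinates given by some linear isometry `R` of the plane, `D` is the region above the graph of
a Lipschitz function. -/
def LipschitzNear (D : Set Plane) (p : Plane) : Prop :=
  ∃ r : ℝ, 0 < r ∧ ∃ R : Plane ≃ₗᵢ[ℝ] Plane, ∃ f : ℝ → ℝ, (∃ L : NNReal, LipschitzWith L f) ∧
    ∀ x ∈ ball p r, (x ∈ D ↔ f ((R x) 0) < (R x) 1)

/-- `u` is of class `C^{1,1}_loc` in the open set `B`: it is differentiable in `B` and its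
derivative is locally Lipschitz in `B`. -/
def IsC11 (B : Set Plane) (u : Plane → ℝ) : Prop :=
  DifferentiableOn ℝ u B ∧ LocallyLipschitzOn B (fderiv ℝ u)

/-- The Laplacian of `u` at `x`, the sum of the second derivatives in the two coordinate directions. -/
noncomputable def laplacian (u : Plane → ℝ) (x : Plane) : ℝ :=
  ∑ i : Fin 2, fderiv ℝ (fun y => fderiv ℝ u y (EuclideanSpace.single i (1 : ℝ))) x
    (EuclideanSpace.single i (1 : ℝ))

/-- The right-hand side `x₁ χ_D`. -/
noncomputable def source (D : Set Plane) : Plane → ℝ := D.indicator (fun x => x 0)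

/-- `Δ u = x₁ χ_D` almost everywhere in `B`. -/
def SolvesAE (D B : Set Plane) (u : Plane → ℝ) : Prop :=
  ∀ᵐ x ∂(volume : Measure Plane), x ∈ B → laplacian u x = source D x

/-- `Δ u = x₁ χ_D` in `B` in the sense of distributions. -/
def SolvesWeakly (D B : Set Plane) (u : Plane → ℝ) : Prop :=
  ∀ φ : Plane → ℝ, ContDiff ℝ ∞ φ → HasCompactSupport φ → tsupport φ ⊆ B →
    ∫ x, u x * laplacian φ x = ∫ x, source D x * φ x

/-- In the coordinates `y₁ = c x₁ + s x₂`, `y₂ = - s x₁ + c x₂` with `c ^ 2 + s ^ 2 = 1` (a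
rotation), and in a ball around `p`, the boundary of `D` is the graph `y₂ = g (y₁)` of a `C¹`
function `g` and `D` is the region above this graph. -/
def BoundaryC1Near (D : Set Plane) (p : Plane) : Prop :=
  ∃ r : ℝ, 0 < r ∧ ∃ c s : ℝ, c ^ 2 + s ^ 2 = 1 ∧ ∃ g : ℝ → ℝ, ContDiff ℝ 1 g ∧
    (∀ x ∈ ball p r, (x ∈ frontier D ↔ - s * x 0 + c * x 1 = g (c * x 0 + s * x 1))) ∧
    ∀ x ∈ ball p r, (x ∈ D ↔ g (c * x 0 + s * x 1) < - s * x 0 + c * x 1)

end Pool.Agent.Lib.MP_354547_an.Own
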