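import Mathlib
import Pool.Agent.Lib.MP_354547_an.Main
import Pool.Agent.Lib.MP_354547_an.OwnDefs

set_option autoImplicit false

/-!
Proof of the own statement of MP_354547_an from `main_thm`.
-/

open Metric MeasureTheory Set Filter Topology
open scoped ContDiff NNReal

namespace Pool.Agent.Lib.MP_354547_an.Own

noncomputable abbrev e (i : Fin 2) : Plane := EuclideanSpace.single i (1 : ℝ)

/-- locally Lipschitz derivative gives Lipschitz on closed balls -/
lemma c11_closedBall {u : Plane → ℝ} (hu : IsC11 (ball 0 2) u) {s : ℝ} (hs : s < 2) :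
    ∃ C : ℝ≥0, LipschitzOnWith C (fderiv ℝ u) (closedBall (0 : Plane) s) :=
  (hu.2.mono (closedBall_subset_ball hs)).exists_lipschitzOnWith_of_compact
    (isCompact_closedBall _ _)

/-- The data on a ball: global Lipschitz extensions of `u` and its coordinate derivatives. -/
lemma exists_ext {u : Plane → ℝ} (hu : IsC11 (ball 0 2) u) {s : ℝ} (hs : s < 2) :
    ∃ (U : Plane → ℝ) (F : Fin 2 → Plane → ℝ) (C : ℝ≥0), LipschitzWith C U ∧
      (∀ i, LipschitzWith C (F i)) ∧ (∀ x ∈ closedBall (0 : Plane) s, U x = u x) ∧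
      ∀ i, ∀ x ∈ closedBall (0 : Plane) s, F i x = fderiv ℝ u x (e i) := by
  obtain ⟨C, hC⟩ := c11_closedBall hu hs
  have hpart : ∀ i, LipschitzOnWith C (fun x => fderiv ℝ u x (e i)) (closedBall (0 : Plane) s) := by
    intro i
    refine LipschitzOnWith.of_dist_le_mul fun x hx y hy => ?_
    have h1 := hC.dist_le_mul x hx y hy
    rw [dist_eq_norm] at h1
    rw [dist_eq_norm]
    have h2 : fderiv ℝ u x (e i) - fderiv ℝ u y (e i) = (fderiv ℝ u x - fderiv ℝ u y) (e i) := by
      simp
    rw [h2]
    refine ((fderiv ℝ u x - fderiv ℝ u y).le_opNorm (e i)).trans ?_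
    have h3 : ‖(e i : Plane)‖ = 1 := by simp
    rw [h3, mul_one]
    exact h1
  have hcont : ContinuousOn (fderiv ℝ u) (closedBall (0 : Plane) s) := hC.continuousOn
  obtain ⟨M, hM⟩ := (isCompact_closedBall (0 : Plane) s).exists_bound_of_continuousOn hcont
  have hdiff : ∀ x ∈ closedBall (0 : Plane) s, DifferentiableAt ℝ u x := fun x hx =>
    (hu.1 x (closedBall_subset_ball hs hx)).differentiableAt
      (isOpen_ball.mem_nhds (closedBall_subset_ball hs hx))
  have hulip : LipschitzOnWith (Real.toNNReal M) u (closedBall (0 : Plane) s) := by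
    refine (convex_closedBall (0 : Plane) s).lipschitzOnWith_of_nnnorm_fderiv_le hdiff
      fun x hx => ?_
    rw [← NNReal.coe_le_coe]
    refine (hM x hx).trans ?_
    exact Real.le_coe_toNNReal M
  obtain ⟨U, hU, hUe⟩ := hulip.extend_real
  choose F hF hFe using fun i => (hpart i).extend_real
  refine ⟨U, F, max (Real.toNNReal M) C, hU.weaken (le_max_left _ _),
    fun i => (hF i).weaken (le_max_right _ _), fun x hx => (hUe hx).symm, fun i x hx => ?_⟩
  exact (hFe i hx).symm

end Pool.Agent.Lib.MP_354547_an.Own
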