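import Mathlib
import Pool.Agent.Lib.MP_354547_an.OwnMain

set_option autoImplicit false

/-!
The equation almost everywhere and the weak equation for functions of class `C^{1,1}`.
-/

open Metric MeasureTheory Set Filter Topology
open scoped ContDiff NNReal

namespace Pool.Agent.Lib.MP_354547_an.Own

lemma lap_eq_zero {φ : Plane → ℝ} {x : Plane} (hx : x ∉ tsupport φ) : laplacian φ x = 0 := by
  unfold laplacian
  exact Finset.sum_eq_zero fun i _ => dd_eq_zero hx

lemma lineDeriv_neg' (f : Plane → ℝ) (x v : Plane) (hf : DifferentiableAt ℝ f x) :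
    lineDeriv ℝ f x (-v) = - fderiv ℝ f x v := by
  rw [hf.lineDeriv_eq_fderiv]; simp

/-- The key integration by parts. -/
lemma key {u : Plane → ℝ} (hu : IsC11 (ball 0 2) u) {s : ℝ} (hs : s < 2) :
    ∃ G : Plane → ℝ, LocallyIntegrable G volume ∧
      (∀ᵐ x ∂(volume : Measure Plane), x ∈ ball (0 : Plane) s → laplacian u x = G x) ∧
      ∀ φ : Plane → ℝ, ContDiff ℝ 2 φ → HasCompactSupport φ → tsupport φ ⊆ ball 0 s →
        ∫ x, u x * laplacian φ x = ∫ x, G x * φ x := by
  obtain ⟨U, F, C, hU, hF, hUe, hFe⟩ := exists_ext hu hs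
  refine ⟨fun x => ∑ i : Fin 2, lineDeriv ℝ (F i) x (e i), ?_, ?_, ?_⟩
  · exact locallyIntegrable_finsetSum _ fun i _ => (hF i).locallyIntegrable_lineDeriv (e i)
  · have h1 : ∀ᵐ x ∂(volume : Measure Plane), ∀ i : Fin 2, DifferentiableAt ℝ (F i) x :=
      ae_all_iff.2 fun i => (hF i).ae_differentiableAt
    filter_upwards [h1] with x hx hxs
    unfold laplacian
    refine Finset.sum_congr rfl fun i _ => ?_
    have h2 : (fun y => fderiv ℝ u y (EuclideanSpace.single i (1 : ℝ))) =ᶠ[𝓝 x] F i := by
      filter_upwards [isOpen_ball.mem_nhds hxs] with y hy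
      exact (hFe i y (ball_subset_closedBall hy)).symm
    rw [h2.fderiv_eq, (hx i).lineDeriv_eq_fderiv]
  · intro φ hφ hφc hφs
    -- the coordinate derivatives of the test function
    set ψ : Fin 2 → Plane → ℝ := fun i y => fderiv ℝ φ y (e i) with hψ
    have hψ1 : ∀ i, ContDiff ℝ 1 (ψ i) := fun i =>
      (hφ.fderiv_right (m := 1) (by norm_num)).clm_apply contDiff_const
    have hψc : ∀ i, HasCompactSupport (ψ i) := fun i => by
      have h1 : HasCompactSupport (fderiv ℝ φ) := hφc.fderiv (𝕜 := ℝ)
      exact h1.comp_left (g := fun L : Plane →L[ℝ] ℝ => L (e i)) (by simp)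
    have hψz : ∀ i, ∀ x, x ∉ tsupport φ → ψ i x = 0 := by
      intro i x hx
      have h1 : x ∉ tsupport (fderiv ℝ φ) := fun h => hx (tsupport_fderiv_subset ℝ h)
      show fderiv ℝ φ x (e i) = 0
      rw [image_eq_zero_of_notMem_tsupport h1]
      rfl
    have hψL : ∀ i, ∃ K : ℝ≥0, LipschitzWith K (ψ i) := fun i =>
      (hψ1 i).lipschitzWith_of_hasCompactSupport (hψc i) one_ne_zero
    have hφ1 : ContDiff ℝ 1 φ := hφ.of_le (by norm_num)
    have hφL : ∃ K : ℝ≥0, LipschitzWith K φ :=
      hφ1.lipschitzWith_of_hasCompactSupport hφc one_ne_zero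
    obtain ⟨K, hK⟩ := hφL
    have hψd : ∀ i, Differentiable ℝ (ψ i) := fun i => (hψ1 i).differentiable one_ne_zero
    have hφd : Differentiable ℝ φ := hφ1.differentiable one_ne_zero
    -- first integration by parts
    have e1 : ∀ i, ∫ x, U x * fderiv ℝ (ψ i) x (e i) = - ∫ x, F i x * ψ i x := by
      intro i
      obtain ⟨K', hK'⟩ := hψL i
      have h1 := hU.integral_lineDeriv_mul_eq (μ := (volume : Measure Plane)) hK' (hψc i) (e i)
      have h2 : ∀ x, lineDeriv ℝ (ψ i) x (-(e i)) * U x = - (U x * fderiv ℝ (ψ i) x (e i)) := by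
        intro x
        rw [lineDeriv_neg' _ _ _ (hψd i x)]; ring
      have h3 : ∀ x, lineDeriv ℝ U x (e i) * ψ i x = F i x * ψ i x := by
        intro x
        by_cases hx : x ∈ tsupport φ
        · have hxs := hφs hx
          have h4 : U =ᶠ[𝓝 x] u := by
            filter_upwards [isOpen_ball.mem_nhds hxs] with y hy
            exact hUe y (ball_subset_closedBall hy)
          have h5 : x ∈ ball (0 : Plane) 2 := ball_subset_ball hs.le hxs
          have h6 : DifferentiableAt ℝ u x := (hu.1 x h5).differentiableAt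
            (isOpen_ball.mem_nhds h5)
          rw [h4.lineDeriv_eq, h6.lineDeriv_eq_fderiv, hFe i x (ball_subset_closedBall hxs)]
        · rw [hψz i x hx]; simp
      simp only [h2, h3] at h1
      rw [integral_neg] at h1
      linarith
    -- second integration by parts
    have e2 : ∀ i, ∫ x, lineDeriv ℝ (F i) x (e i) * φ x = - ∫ x, F i x * ψ i x := by
      intro i
      have h1 := (hF i).integral_lineDeriv_mul_eq (μ := (volume : Measure Plane)) hK hφc (e i)
      have h2 : ∀ x, lineDeriv ℝ φ x (-(e i)) * F i x = - (F i x * ψ i x) := by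
        intro x
        rw [lineDeriv_neg' _ _ _ (hφd x)]
        show - (fderiv ℝ φ x (e i)) * F i x = - (F i x * fderiv ℝ φ x (e i))
        ring
      simp only [h2] at h1
      rw [integral_neg] at h1
      exact h1
    have e3 : ∀ x, u x * laplacian φ x = ∑ i : Fin 2, U x * fderiv ℝ (ψ i) x (e i) := by
      intro x
      by_cases hx : x ∈ tsupport φ
      · rw [← hUe x (ball_subset_closedBall (hφs hx))]
        unfold laplacian
        rw [Finset.mul_sum]
      · rw [lap_eq_zero hx, mul_zero, ← Finset.mul_sum]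
        have : ∑ i : Fin 2, fderiv ℝ (ψ i) x (e i) = laplacian φ x := rfl
        rw [this, lap_eq_zero hx, mul_zero]
    simp only [e3]
    rw [integral_finsetSum]
    · simp only [e1, ← e2]
      rw [← integral_finsetSum]
      · refine integral_congr_ae (Eventually.of_forall fun x => ?_)
        simp only [Finset.sum_mul]
      · intro i _
        have := ((hF i).locallyIntegrable_lineDeriv (μ := (volume : Measure Plane))
          (e i)).integrable_smul_right_of_hasCompactSupport hφd.continuous hφc
        simpa only [smul_eq_mul] using this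
    · intro i _
      have h1 : Continuous (fun x => fderiv ℝ (ψ i) x (e i)) :=
        ((hψ1 i).continuous_fderiv one_ne_zero).clm_apply continuous_const
      refine (hU.continuous.mul h1).integrable_of_hasCompactSupport ?_
      have h2 : HasCompactSupport (fun x => fderiv ℝ (ψ i) x (e i)) := by
        have h3 : HasCompactSupport (fderiv ℝ (ψ i)) := (hψc i).fderiv (𝕜 := ℝ)
        exact h3.comp_left (g := fun L : Plane →L[ℝ] ℝ => L (e i)) (by simp)
      exact h2.mul_left

lemma source_locInt {D : Set Plane} (hD : IsOpen D) :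
    LocallyIntegrable (source D) (volume : Measure Plane) := by
  have h1 : LocallyIntegrable (fun x : Plane => x 0) (volume : Measure Plane) :=
    (by fun_prop : Continuous fun x : Plane => x 0).locallyIntegrable
  exact h1.indicator hD.measurableSet

lemma weak_rhs (D : Set Plane) (φ : Plane → ℝ) (x : Plane) :
    x 0 * D.indicator (fun _ => (1 : ℝ)) x * φ x = source D x * φ x := by
  unfold source
  by_cases hx : x ∈ D
  · simp [hx]
  · simp [hx]

lemma exists_radius {φ : Plane → ℝ} (hφs : tsupport φ ⊆ ball (0 : Plane) 2) : ∃ s : ℝ, s < 2 ∧ tsupport φ ⊆ ball (0 : Plane) s := by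
  obtain ⟨s, hs1, hs2⟩ := exists_pos_lt_subset_ball (by norm_num : (0 : ℝ) < 2)
    (isClosed_tsupport φ) hφs
  exact ⟨s, hs1.2, hs2⟩

/-- it suffices to have the equation in the form `G = source D` almost everywhere -/
lemma weakEq_of_ae {D : Set Plane} {u : Plane → ℝ} (hu : IsC11 (ball 0 2) u)
    (h : SolvesAE D (ball 0 2) u) : WeakEq D u := by
  intro φ hφ hφc hφs
  obtain ⟨s, hs, hs'⟩ := exists_radius hφs
  obtain ⟨G, -, hG1, hG2⟩ := key hu hs
  have h1 := hG2 φ hφ hφc hs'
  have h2 : ∫ x, u x * laplacian φ x = ∫ x, source D x * φ x := by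
    rw [h1]
    refine integral_congr_ae ?_
    filter_upwards [h, hG1] with x hx hx2
    by_cases hxs : x ∈ tsupport φ
    · show G x * φ x = source D x * φ x
      rw [← hx2 (hs' hxs), hx (hφs hxs)]
    · show G x * φ x = source D x * φ x
      rw [image_eq_zero_of_notMem_tsupport hxs]; simp
  simp only [weak_rhs]
  exact h2

lemma ae_of_weakly {D : Set Plane} (hD : IsOpen D) {u : Plane → ℝ} (hu : IsC11 (ball 0 2) u)
    (h : SolvesWeakly D (ball 0 2) u) : SolvesAE D (ball 0 2) u := by
  have main : ∀ s : ℝ, s < 2 → ∀ᵐ x ∂(volume : Measure Plane), x ∈ ball (0 : Plane) s →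
      laplacian u x = source D x := by
    intro s hs
    obtain ⟨G, hG0, hG1, hG2⟩ := key hu hs
    have hsrc := source_locInt hD
    have h1 : ∀ᵐ x ∂(volume : Measure Plane), x ∈ ball (0 : Plane) s → G x - source D x = 0 := by
      refine isOpen_ball.ae_eq_zero_of_integral_contDiff_smul_eq_zero
        ((hG0.sub hsrc).locallyIntegrableOn _) ?_
      intro φ hφ hφc hφs
      have h2 := hG2 φ (hφ.of_le (WithTop.coe_le_coe.2 le_top)) hφc hφs
      have h3 := h φ hφ hφc (hφs.trans (ball_subset_ball hs.le))
      rw [h2] at h3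
      have i1 := hG0.integrable_smul_left_of_hasCompactSupport hφ.continuous hφc
      have i2 := hsrc.integrable_smul_left_of_hasCompactSupport hφ.continuous hφc
      have h4 : ∀ x, φ x • ((G - source D) x) = φ x • G x - φ x • source D x := by
        intro x; simp only [Pi.sub_apply, smul_eq_mul]; ring
      show ∫ x, φ x • ((G - source D) x) = 0
      simp only [h4]
      rw [integral_sub i1 i2]
      simp only [smul_eq_mul, mul_comm (φ _)]
      rw [h3, sub_self]
    filter_upwards [h1, hG1] with x hx hx2 hxs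
    rw [hx2 hxs]
    linarith [hx hxs]
  have h2 : ∀ᵐ x ∂(volume : Measure Plane), ∀ n : ℕ,
      x ∈ ball (0 : Plane) (2 - 1 / ((n : ℝ) + 1)) → laplacian u x = source D x :=
    ae_all_iff.2 fun n => main _ (by have : (0 : ℝ) < 1 / ((n : ℝ) + 1) := by positivity
                                     linarith)
  filter_upwards [h2] with x hx hx2
  rw [mem_ball_zero_iff] at hx2
  obtain ⟨n, hn⟩ := exists_nat_one_div_lt (by linarith : (0 : ℝ) < 2 - ‖x‖)
  refine hx n ?_
  rw [mem_ball_zero_iff]
  linarith

lemma weakEq_of_or {D : Set Plane} (hD : IsOpen D) {u : Plane → ℝ} (hu : IsC11 (ball 0 2) u)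
    (h : SolvesAE D (ball 0 2) u ∨ SolvesWeakly D (ball 0 2) u) : WeakEq D u := by
  rcases h with h | h
  · exact weakEq_of_ae hu h
  · exact weakEq_of_ae hu (ae_of_weakly hD hu h)

end Pool.Agent.Lib.MP_354547_an.Own
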