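import Mathlib
import Pool.Agent.Lib.MP_354547_an.OwnWeak

set_option autoImplicit false

/-!
The final form of the own statement of MP_354547_an.
-/

open Metric MeasureTheory Set Filter Topology
open scoped ContDiff NNReal

namespace Pool.Agent.Lib.MP_354547_an.Own

/-- coordinates of a linear isometry of the plane: a proper rotation up to the sign of the first
coordinate -/
lemma isometry_coords (R : Plane ≃ₗᵢ[ℝ] Plane) : ∃ c s ε : ℝ, c ^ 2 + s ^ 2 = 1 ∧
    (∀ x : Plane, (R x) 0 = ε * (c * x 0 + s * x 1)) ∧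
    ∀ x : Plane, (R x) 1 = - s * x 0 + c * x 1 := by
  have hx : ∀ x : Plane, x = x 0 • e 0 + x 1 • e 1 := by
    intro x
    ext i
    fin_cases i <;> simp
  set a := (R (e 0)) 0 with ha
  set b := (R (e 0)) 1 with hb
  set c' := (R (e 1)) 0 with hc'
  set d := (R (e 1)) 1 with hd
  have hR : ∀ x : Plane, R x = x 0 • R (e 0) + x 1 • R (e 1) := by
    intro x
    conv_lhs => rw [hx x]
    simp
  have h0 : ∀ x : Plane, (R x) 0 = a * x 0 + c' * x 1 := by
    intro x
    rw [hR x]
    simp [← ha, ← hc', mul_comm]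
  have h1 : ∀ x : Plane, (R x) 1 = b * x 0 + d * x 1 := by
    intro x
    rw [hR x]
    simp [← hb, ← hd, mul_comm]
  have hn : ∀ x : Plane, ((R x) 0) ^ 2 + ((R x) 1) ^ 2 = (x 0) ^ 2 + (x 1) ^ 2 := by
    intro x
    have h2 := R.norm_map x
    have h3 : ‖R x‖ ^ 2 = ‖x‖ ^ 2 := by rw [h2]
    rw [EuclideanSpace.norm_sq_eq, EuclideanSpace.norm_sq_eq] at h3
    simpa [Fin.sum_univ_two] using h3
  have n0 : a ^ 2 + b ^ 2 = 1 := by
    have := hn (e 0)
    simpa [← ha, ← hb] using this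
  have n1 : c' ^ 2 + d ^ 2 = 1 := by
    have := hn (e 1)
    simpa [← hc', ← hd] using this
  have n2 : a * c' + b * d = 0 := by
    have h2 := hn (e 0 + e 1)
    rw [h0, h1] at h2
    simp at h2
    nlinarith [h2, n0, n1]
  have k1 : (a * d - b * c') * a = d := by
    have : (a * d - b * c') * a = d * (a ^ 2 + b ^ 2) - b * (a * c' + b * d) := by ring
    rw [this, n0, n2]; ring
  have k2 : (a * d - b * c') * c' = - b := by
    have : (a * d - b * c') * c' = d * (a * c' + b * d) - b * (c' ^ 2 + d ^ 2) := by ring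
    rw [this, n1, n2]; ring
  have k3 : (a * d - b * c') ^ 2 = 1 := by
    have : (a * d - b * c') ^ 2 = (a ^ 2 + b ^ 2) * (c' ^ 2 + d ^ 2) - (a * c' + b * d) ^ 2 := by
      ring
    rw [this, n0, n1, n2]; ring
  refine ⟨d, - b, a * d - b * c', ?_, ?_, ?_⟩
  · have h2 : d ^ 2 = a ^ 2 := by
      have : d ^ 2 = (a * d - b * c') ^ 2 * a ^ 2 := by rw [← mul_pow, k1]
      rw [this, k3, one_mul]
    have h3 : (- b) ^ 2 = b ^ 2 := by ring
    rw [h2, h3]; exact n0
  · intro x
    rw [h0]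
    have h2 : (a * d - b * c') * (d * x 0 + - b * x 1) =
        (a * d - b * c') ^ 2 * (a * x 0 + c' * x 1) := by
      have e1 : d * x 0 + - b * x 1 = (a * d - b * c') * (a * x 0 + c' * x 1) := by
        calc d * x 0 + - b * x 1 = ((a * d - b * c') * a) * x 0 + ((a * d - b * c') * c') * x 1 := by
              rw [k1, k2]
          _ = _ := by ring
      rw [e1]; ring
    rw [h2, k3, one_mul]
  · intro x
    rw [h1]; ring

/-- the region above a graph has the graph as its frontier -/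
lemma frontier_graph {D : Set Plane} (hD : IsOpen D) {ρ c s : ℝ} (hcs : c ^ 2 + s ^ 2 = 1)
    {g : ℝ → ℝ} (hg : Continuous g)
    (h : ∀ x ∈ ball (0 : Plane) ρ, (x ∈ D ↔ g (c * x 0 + s * x 1) < - s * x 0 + c * x 1)) :
    ∀ x ∈ ball (0 : Plane) ρ,
      (x ∈ frontier D ↔ - s * x 0 + c * x 1 = g (c * x 0 + s * x 1)) := by
  intro x hx
  rw [hD.frontier_eq]
  constructor
  · rintro ⟨h1, h2⟩
    have h3 : ¬ g (c * x 0 + s * x 1) < - s * x 0 + c * x 1 := fun h4 => h2 ((h x hx).2 h4)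
    refine le_antisymm (not_lt.1 h3) ?_
    by_contra hlt
    push Not at hlt
    have hopen : IsOpen {y : Plane | - s * y 0 + c * y 1 < g (c * y 0 + s * y 1)} :=
      isOpen_lt (by fun_prop) (hg.comp (by fun_prop))
    obtain ⟨y, ⟨hy1, hy2⟩, hy3⟩ := mem_closure_iff.1 h1 _ (hopen.inter isOpen_ball) ⟨hlt, hx⟩
    have h5 := (h y hy2).1 hy3
    have h6 : - s * y 0 + c * y 1 < g (c * y 0 + s * y 1) := hy1
    linarith
  · intro h1
    refine ⟨?_, fun h2 => ?_⟩
    · set n : Plane := (- s) • e 0 + c • e 1 with hn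
      have n0 : n 0 = - s := by simp [hn]
      have n1 : n 1 = c := by simp [hn]
      have hcont : Continuous (fun t : ℝ => x + t • n) := by fun_prop
      have hlim : Tendsto (fun t : ℝ => x + t • n) (𝓝[>] 0) (𝓝 x) := by
        have h3 := hcont.tendsto 0
        simp only [zero_smul, add_zero] at h3
        exact h3.mono_left nhdsWithin_le_nhds
      refine mem_closure_of_tendsto hlim ?_
      filter_upwards [hlim.eventually (isOpen_ball.mem_nhds hx), self_mem_nhdsWithin] with t ht ht0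
      rw [h _ ht]
      have ht0' : (0 : ℝ) < t := ht0
      have e0 : (x + t • n) 0 = x 0 + t * (- s) := by simp [n0]
      have e1 : (x + t • n) 1 = x 1 + t * c := by simp [n1]
      rw [e0, e1]
      have e2 : c * (x 0 + t * (- s)) + s * (x 1 + t * c) = c * x 0 + s * x 1 := by ring
      have e3 : - s * (x 0 + t * (- s)) + c * (x 1 + t * c) =
          (- s * x 0 + c * x 1) + t * (c ^ 2 + s ^ 2) := by ring
      rw [e2, e3, hcs, ← h1]
      linarith
    · have h3 := (h x hx).1 h2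
      rw [h1] at h3
      exact lt_irrefl _ h3

theorem own_final (D : Set Plane) (hD : IsOpen D) (h0 : (0 : Plane) ∈ frontier D)
    (hlip : LipschitzNear D 0) (u : Plane → ℝ) (hu : IsC11 (ball 0 2) u)
    (heq : SolvesAE D (ball 0 2) u ∨ SolvesWeakly D (ball 0 2) u)
    (hzero : ∀ x ∈ ball (0 : Plane) 2, x ∉ closure D → u x = 0) :
    BoundaryC1Near D 0 := by
  obtain ⟨r, hr, R, f, ⟨L, hL⟩, hf⟩ := hlip
  obtain ⟨ρ, hρ, R', g, hg, hgD⟩ := main_thm D u hD h0 ⟨r, hr, R, f, L, hL, hf⟩ hu.1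
    (fun s hs => c11_closedBall hu hs) (weakEq_of_or hD hu heq) hzero
  obtain ⟨c, s, ε, hcs, hX, hY⟩ := isometry_coords R'
  have hg' : ContDiff ℝ 1 (fun t => g (ε * t)) := hg.comp (contDiff_const.mul contDiff_id)
  have hD' : ∀ x ∈ ball (0 : Plane) ρ,
      (x ∈ D ↔ (fun t => g (ε * t)) (c * x 0 + s * x 1) < - s * x 0 + c * x 1) := by
    intro x hx
    rw [hgD x hx, hX, hY]
  exact ⟨ρ, hρ, c, s, hcs, fun t => g (ε * t), hg',
    frontier_graph hD hcs hg'.continuous hD', hD'⟩

end Pool.Agent.Lib.MP_354547_an.Own
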